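import Pool.Agent.H102R3.FR.Stmts

/-!
# Task SMALL of project H102-FR
-/

set_option autoImplicit false

namespace Pool.Agent.H528R3.FR

open Pool.Agent.H102R3.FR

section

variable {V : Type} [Fintype V] [DecidableEq V] (G : SimpleGraph V) [DecidableRel G.Adj]

theorem stay_succ_of_mem (A : Finset V) (l : ℕ) (x : V) (hx : x ∈ A) :
    stay G A (l + 1) x = (∑ y ∈ G.neighborFinset x, stay G A l y) / (G.degree x : ℝ) := by
  rw [stay, if_pos hx]

theorem stay_of_notMem (A : Finset V) (l : ℕ) (x : V) (hx : x ∉ A) : stay G A l x = 0 := by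
  cases l with
  | zero => rw [stay, if_neg hx]
  | succ l => rw [stay, if_neg hx]

theorem stay_nonneg (A : Finset V) (l : ℕ) : ∀ x, 0 ≤ stay G A l x := by
  induction l with
  | zero =>
    intro x
    rw [stay]
    split_ifs <;> norm_num
  | succ l ih =>
    intro x
    by_cases hx : x ∈ A
    · rw [stay_succ_of_mem G A l x hx]
      exact div_nonneg (Finset.sum_nonneg fun y _ => ih y) (Nat.cast_nonneg _)
    · rw [stay_of_notMem G A _ x hx]

theorem stay_le_one (hdeg : ∀ x, 0 < G.degree x) (A : Finset V) (l : ℕ) :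
    ∀ x, stay G A l x ≤ 1 := by
  induction l with
  | zero =>
    intro x
    rw [stay]
    split_ifs <;> norm_num
  | succ l ih =>
    intro x
    by_cases hx : x ∈ A
    · rw [stay_succ_of_mem G A l x hx]
      have hd : (0 : ℝ) < G.degree x := by exact_mod_cast hdeg x
      rw [div_le_one hd]
      calc ∑ y ∈ G.neighborFinset x, stay G A l y ≤ ∑ _y ∈ G.neighborFinset x, (1 : ℝ) :=
            Finset.sum_le_sum fun y _ => ih y
        _ = G.degree x := by
            rw [Finset.sum_const, G.card_neighborFinset_eq_degree, nsmul_eq_mul, mul_one]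
    · rw [stay_of_notMem G A _ x hx]
      exact zero_le_one

theorem stay_succ_le (hdeg : ∀ x, 0 < G.degree x) (A : Finset V) (l : ℕ) :
    ∀ x, stay G A (l + 1) x ≤ stay G A l x := by
  induction l with
  | zero =>
    intro x
    by_cases hx : x ∈ A
    · have h1 := stay_le_one G hdeg A (0 + 1) x
      have h2 : stay G A 0 x = 1 := by rw [stay, if_pos hx]
      rw [h2]; exact h1
    · rw [stay_of_notMem G A _ x hx, stay_of_notMem G A _ x hx]
  | succ l ih =>
    intro x
    by_cases hx : x ∈ A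
    · rw [stay_succ_of_mem G A _ x hx, stay_succ_of_mem G A _ x hx]
      exact div_le_div_of_nonneg_right (Finset.sum_le_sum fun y _ => ih y) (Nat.cast_nonneg _)
    · rw [stay_of_notMem G A _ x hx, stay_of_notMem G A _ x hx]

theorem stay_anti (hdeg : ∀ x, 0 < G.degree x) (A : Finset V) (x : V) :
    Antitone fun l => stay G A l x :=
  antitone_nat_of_succ_le fun l => stay_succ_le G hdeg A l x

theorem stay_add_le (A : Finset V) (j : ℕ) (c : ℝ) (hc : ∀ y, stay G A j y ≤ c) (l : ℕ) :
    ∀ x, stay G A (l + j) x ≤ stay G A l x * c := by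
  induction l with
  | zero =>
    intro x
    rw [zero_add]
    by_cases hx : x ∈ A
    · have h2 : stay G A 0 x = 1 := by rw [stay, if_pos hx]
      rw [h2, one_mul]
      exact hc x
    · rw [stay_of_notMem G A _ x hx, stay_of_notMem G A _ x hx, zero_mul]
  | succ l ih =>
    intro x
    have e : l + 1 + j = (l + j) + 1 := by ring
    rw [e]
    by_cases hx : x ∈ A
    · rw [stay_succ_of_mem G A _ x hx, stay_succ_of_mem G A _ x hx, div_mul_eq_mul_div,
        Finset.sum_mul]
      exact div_le_div_of_nonneg_right (Finset.sum_le_sum fun y _ => ih y) (Nat.cast_nonneg _)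
    · rw [stay_of_notMem G A _ x hx, stay_of_notMem G A _ x hx, zero_mul]

theorem step_le (d : ℕ) (hdeg : ∀ x, 0 < G.degree x) (hd : ∀ x, G.degree x ≤ d) (A : Finset V)
    (l : ℕ) (x y : V) (hxy : G.Adj x y) (hy : stay G A l y ≤ 1 - ((d : ℝ)⁻¹) ^ l) :
    stay G A (l + 1) x ≤ 1 - ((d : ℝ)⁻¹) ^ (l + 1) := by
  have hd0 : 0 < d := lt_of_lt_of_le (hdeg x) (hd x)
  have hdr : (1 : ℝ) ≤ d := by exact_mod_cast hd0
  have hinv1 : ((d : ℝ)⁻¹) ≤ 1 := inv_le_one_of_one_le₀ hdr
  have hinv0 : 0 < ((d : ℝ)⁻¹) := by positivity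
  by_cases hx : x ∈ A
  · rw [stay_succ_of_mem G A l x hx]
    have hdx : (0 : ℝ) < G.degree x := by exact_mod_cast hdeg x
    have hdx2 : (G.degree x : ℝ) ≤ d := by exact_mod_cast hd x
    have hmem : y ∈ G.neighborFinset x := by rw [SimpleGraph.mem_neighborFinset]; exact hxy
    rw [div_le_iff₀ hdx]
    have h1 : ∑ z ∈ G.neighborFinset x, (1 - stay G A l z) ≥ ((d : ℝ)⁻¹) ^ l := by
      calc ((d : ℝ)⁻¹) ^ l ≤ 1 - stay G A l y := by linarith
        _ ≤ ∑ z ∈ G.neighborFinset x, (1 - stay G A l z) :=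
          Finset.single_le_sum (f := fun z => 1 - stay G A l z)
            (fun z _ => by have := stay_le_one G hdeg A l z; show 0 ≤ 1 - stay G A l z; linarith)
            hmem
    rw [Finset.sum_sub_distrib, Finset.sum_const, G.card_neighborFinset_eq_degree, nsmul_eq_mul,
      mul_one] at h1
    have h2 : ((d : ℝ)⁻¹) ^ (l + 1) * G.degree x ≤ ((d : ℝ)⁻¹) ^ l := by
      rw [pow_succ, mul_assoc]
      have h3 : (d : ℝ)⁻¹ * G.degree x ≤ 1 := by
        rw [inv_mul_le_iff₀ (by positivity), mul_one]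
        exact hdx2
      calc ((d : ℝ)⁻¹) ^ l * ((d : ℝ)⁻¹ * G.degree x) ≤ ((d : ℝ)⁻¹) ^ l * 1 :=
            mul_le_mul_of_nonneg_left h3 (by positivity)
        _ = ((d : ℝ)⁻¹) ^ l := mul_one _
    nlinarith
  · rw [stay_of_notMem G A _ x hx]
    have : ((d : ℝ)⁻¹) ^ (l + 1) ≤ 1 := pow_le_one₀ hinv0.le hinv1
    linarith

/-- the vertices from which the walk leaves `A` in `l` steps with probability at least `d ^ (-l)` -/
noncomputable def good (d : ℕ) (A : Finset V) (l : ℕ) : Finset V := by
  classical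
  exact Finset.univ.filter fun x => stay G A l x ≤ 1 - ((d : ℝ)⁻¹) ^ l

theorem mem_good (d : ℕ) (A : Finset V) (l : ℕ) (x : V) :
    x ∈ good G d A l ↔ stay G A l x ≤ 1 - ((d : ℝ)⁻¹) ^ l := by
  classical
  unfold good
  simp

theorem good_mono (d : ℕ) (hd0 : 0 < d) (hdeg : ∀ x, 0 < G.degree x) (A : Finset V) (l : ℕ) :
    good G d A l ⊆ good G d A (l + 1) := by
  intro x hx
  rw [mem_good] at hx ⊢
  have h1 := stay_succ_le G hdeg A l x
  have hdr : (1 : ℝ) ≤ d := by exact_mod_cast hd0
  have h2 : ((d : ℝ)⁻¹) ^ (l + 1) ≤ ((d : ℝ)⁻¹) ^ l :=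
    pow_le_pow_of_le_one (by positivity) (inv_le_one_of_one_le₀ hdr) (Nat.le_succ l)
  linarith

theorem card_good (d : ℕ) (hd0 : 0 < d) (hG : G.Connected) (hdeg : ∀ x, 0 < G.degree x)
    (hd : ∀ x, G.degree x ≤ d) (A : Finset V) (hA : A ≠ Finset.univ) (l : ℕ) :
    (good G d A l).Nonempty ∧
      (good G d A l = Finset.univ ∨ Fintype.card V - A.card + l ≤ (good G d A l).card) := by
  induction l with
  | zero =>
    have hsub : Finset.univ \ A ⊆ good G d A 0 := by
      intro x hx
      rw [mem_good, stay_of_notMem G A 0 x (Finset.mem_sdiff.1 hx).2]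
      simp
    obtain ⟨x, hx⟩ : ∃ x, x ∉ A := by
      by_contra hcon
      push Not at hcon
      exact hA (Finset.eq_univ_iff_forall.2 hcon)
    refine ⟨⟨x, hsub (Finset.mem_sdiff.2 ⟨Finset.mem_univ _, hx⟩)⟩, Or.inr ?_⟩
    have h1 := Finset.card_le_card hsub
    rw [Finset.card_sdiff_of_subset (Finset.subset_univ A), Finset.card_univ] at h1
    omega
  | succ l ih =>
    obtain ⟨hne, hor⟩ := ih
    have hmono := good_mono G d hd0 hdeg A l
    refine ⟨hne.mono hmono, ?_⟩
    rcases hor with h | h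
    · left
      rw [h] at hmono
      exact Finset.univ_subset_iff.1 hmono
    · by_cases hu : good G d A l = Finset.univ
      · left
        rw [hu] at hmono
        exact Finset.univ_subset_iff.1 hmono
      · right
        obtain ⟨y, hy⟩ := hne
        obtain ⟨x, hx⟩ : ∃ x, x ∉ good G d A l := by
          by_contra hcon
          push Not at hcon
          exact hu (Finset.eq_univ_iff_forall.2 hcon)
        obtain ⟨p⟩ := hG.preconnected y x
        obtain ⟨e, -, he1, he2⟩ := p.exists_boundary_dart (good G d A l : Set V) hy hx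
        have h3 : e.snd ∈ good G d A (l + 1) := by
          rw [mem_good]
          exact step_le G d hdeg hd A l e.snd e.fst e.adj.symm ((mem_good G d A l _).1 he1)
        have h4 : insert e.snd (good G d A l) ⊆ good G d A (l + 1) := by
          intro z hz
          rcases Finset.mem_insert.1 hz with rfl | hz
          · exact h3
          · exact hmono hz
        have h5 := Finset.card_le_card h4
        rw [Finset.card_insert_of_notMem (by exact_mod_cast he2)] at h5
        omega

end

theorem taskSmall : TaskSmall := by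
  intro V _ _ G _ d hG hdeg hd A m j x hm hA
  obtain ⟨x0, hx0⟩ : ∃ x, x ∉ A := by
    by_contra hcon
    push Not at hcon
    exact hA (Finset.eq_univ_iff_forall.2 hcon)
  have hd0 : 0 < d := lt_of_lt_of_le (hdeg x0) (hd x0)
  have hdr : (1 : ℝ) ≤ d := by exact_mod_cast hd0
  have hall : good G d A m = Finset.univ := by
    rcases (card_good G d hd0 hG hdeg hd A hA m).2 with h | h
    · exact h
    · apply Finset.eq_univ_of_card
      apply le_antisymm (Finset.card_le_univ _)
      have h2 : A.card ≤ Fintype.card V := Finset.card_le_univ A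
      omega
  have hm1 : ∀ y, stay G A m y ≤ 1 - ((d : ℝ)⁻¹) ^ m := by
    intro y
    rw [← mem_good, hall]
    exact Finset.mem_univ _
  have hq0 : 0 ≤ 1 - ((d : ℝ)⁻¹) ^ m := by
    have : ((d : ℝ)⁻¹) ^ m ≤ 1 := pow_le_one₀ (by positivity) (inv_le_one_of_one_le₀ hdr)
    linarith
  have key : ∀ j : ℕ, ∀ y, stay G A (j * m) y ≤ (1 - ((d : ℝ)⁻¹) ^ m) ^ j := by
    intro j
    induction j with
    | zero =>
      intro y
      rw [zero_mul, pow_zero]
      exact stay_le_one G hdeg A 0 y
    | succ j ih =>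
      intro y
      have e : (j + 1) * m = m + j * m := by ring
      rw [e, pow_succ']
      calc stay G A (m + j * m) y ≤ stay G A m y * (1 - ((d : ℝ)⁻¹) ^ m) ^ j :=
            stay_add_le G A (j * m) _ ih m y
        _ ≤ (1 - ((d : ℝ)⁻¹) ^ m) * (1 - ((d : ℝ)⁻¹) ^ m) ^ j :=
            mul_le_mul_of_nonneg_right (hm1 y) (pow_nonneg hq0 j)
  exact key j x

end Pool.Agent.H528R3.FR
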