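import Pool.Agent.H335R3.ZF.Stmts

/-!
# Ramified points (task P6-Ram of project ZP)
-/

set_option autoImplicit false

namespace Pool.Agent.H528R3.Ram

open Pool.Agent.H639R3 Pool.Agent.H639R3.ZpTower

section

variable {p : ℕ} [Fact p.Prime] {k K L : Type} [Field k] [Field K] [Field L]
    [Algebra k K] [Algebra K L] [Algebra k L] [IsScalarTower k K L] (T : ZpTower p k K L)

/-- the inclusion of intermediate fields -/
noncomputable def inclF (F₁ F₂ : IntermediateField K L) (hle : F₁ ≤ F₂) : F₁ →+* F₂ :=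
  (algebraMap F₁ L).codRestrict F₂.toSubfield.toSubring fun a => hle a.2

theorem inclF_alg (F₁ F₂ : IntermediateField K L) (hle : F₁ ≤ F₂) (a : F₁) :
    algebraMap F₂ L (inclF F₁ F₂ hle a) = algebraMap F₁ L a := rfl

theorem inclF_const (F₁ F₂ : IntermediateField K L) (hle : F₁ ≤ F₂) (a : k) :
    inclF F₁ F₂ hle (algebraMap k F₁ a) = algebraMap k F₂ a := by
  have hk : ∀ (F : IntermediateField K L) (a : k), algebraMap F L (algebraMap k F a) =
    algebraMap K L (algebraMap k K a) := fun F a => IsScalarTower.algebraMap_apply k K L a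
  apply (algebraMap F₂ L).injective
  rw [inclF_alg, hk, hk]

theorem inclF_base (F₁ F₂ : IntermediateField K L) (hle : F₁ ≤ F₂) (a : K) :
    inclF F₁ F₂ hle (algebraMap K F₁ a) = algebraMap K F₂ a := by
  apply (algebraMap F₂ L).injective
  rw [inclF_alg, ← IsScalarTower.algebraMap_apply, ← IsScalarTower.algebraMap_apply]

theorem comap_inclF (F₁ F₂ : IntermediateField K L) (hle : F₁ ≤ F₂) (w : ValuationSubring L) :
    (w.comap (algebraMap F₂ L)).comap (inclF F₁ F₂ hle) = w.comap (algebraMap F₁ L) := by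
  ext a
  rw [ValuationSubring.mem_comap, ValuationSubring.mem_comap, ValuationSubring.mem_comap, inclF_alg]

/-- the inclusion of a layer into the next one -/
noncomputable def incl (n : ℕ) : T.layer n →+* T.layer (n + 1) :=
  inclF (T.layer n) (T.layer (n + 1)) (T.layer_mono (Nat.le_succ n))

theorem incl_const (n : ℕ) (a : k) :
    incl T n (algebraMap k (T.layer n) a) = algebraMap k (T.layer (n + 1)) a :=
  inclF_const _ _ _ a

/-- the point of the lower layer below a point -/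
noncomputable def down (n : ℕ) (y : ClosedPoint k (T.layer (n + 1))) :
    ClosedPoint k (T.layer n) where
  ring := y.ring.comap (incl T n)
  const_mem := by
    intro a
    rw [ValuationSubring.mem_comap, incl_const]
    exact y.const_mem a
  ne_top := by
    intro h
    apply (T.below (n + 1) y).ne_top
    rw [eq_top_iff]
    intro a _
    have h1 : algebraMap K (T.layer n) a ∈ y.ring.comap (incl T n) := by rw [h]; trivial
    rw [ValuationSubring.mem_comap] at h1
    have h2 : incl T n (algebraMap K (T.layer n) a) = algebraMap K (T.layer (n + 1)) a :=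
      inclF_base _ _ _ a
    rw [h2] at h1
    exact h1

theorem down_pt (n : ℕ) (x : ClosedPoint k K) (w : ValuationSubring L)
    (hw : w.comap (algebraMap K L) = x.ring) : down T n (T.pt (n + 1) x w hw) = T.pt n x w hw := by
  apply ClosedPoint.ext'
  exact comap_inclF (T.layer n) (T.layer (n + 1)) (T.layer_mono (Nat.le_succ n)) w

theorem mv_nat_mul (w : ValuationSubring L) (δ : ℤ_[p]) (h : T.mv δ w = w) (m : ℕ) :
    T.mv (m * δ) w = w := by
  induction m with
  | zero => rw [Nat.cast_zero, zero_mul, mv_zero]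
  | succ m ih => rw [Nat.cast_add, Nat.cast_one, add_mul, one_mul, mv_add, h, ih]

/-- the fibres of consecutive layers have the same number of elements -/
theorem ncard_eq [Finite k] (x : ClosedPoint k K) (w : ValuationSubring L)
    (hw : w.comap (algebraMap K L) = x.ring) (δ : ℤ_[p]) (hδ : δ ≠ 0) (h : T.mv δ w = w) (n : ℕ)
    (hn : δ.valuation ≤ n) :
    {y : ClosedPoint k (T.layer (n + 1)) | T.below (n + 1) y = x}.ncard =
      {y : ClosedPoint k (T.layer n) | T.below n y = x}.ncard := by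
  have himg : {y : ClosedPoint k (T.layer n) | T.below n y = x} =
      down T n '' {y : ClosedPoint k (T.layer (n + 1)) | T.below (n + 1) y = x} := by
    ext y
    constructor
    · intro hy
      obtain ⟨w', hw', hy'⟩ := T.exists_pt n x y hy
      refine ⟨T.pt (n + 1) x w' hw', T.below_pt (n + 1) x w' hw', ?_⟩
      rw [down_pt, hy']
    · rintro ⟨y', hy', rfl⟩
      obtain ⟨w', hw', hy2⟩ := T.exists_pt (n + 1) x y' hy'
      rw [hy2, down_pt]
      exact T.below_pt n x w' hw'
  rw [himg, Set.InjOn.ncard_image]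
  intro y₁ hy₁ y₂ hy₂ h12
  obtain ⟨w₁, hw₁, rfl⟩ := T.exists_pt (n + 1) x y₁ hy₁
  obtain ⟨w₂, hw₂, rfl⟩ := T.exists_pt (n + 1) x y₂ hy₂
  rw [down_pt, down_pt] at h12
  have h1 : w₁.comap (algebraMap (T.layer n) L) = w₂.comap (algebraMap (T.layer n) L) :=
    congrArg ClosedPoint.ring h12
  obtain ⟨z, hz⟩ := T.exists_mv_layer n x w₁ w₂ hw₁ h1
  obtain ⟨z₁, hz₁⟩ := T.exists_mv x w w₁ hw hw₁
  have hδ1 : T.mv δ w₁ = w₁ := by
    rw [hz₁, ← mv_add, add_comm, mv_add, h]
  -- p ^ n z = c δ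
  have hδ2 := PadicInt.unitCoeff_spec hδ
  set v := δ.valuation with hv
  set u : ℤ_[p] := (((PadicInt.unitCoeff hδ)⁻¹ : ℤ_[p]ˣ) : ℤ_[p]) with hu
  have h3 : u * (PadicInt.unitCoeff hδ : ℤ_[p]) = 1 := Units.inv_mul _
  obtain ⟨m, -, e, he⟩ := exists_nat_dvd (p := p) (n + 1) ((p : ℤ_[p]) ^ (n - v) * u * z)
  have hpn : (p : ℤ_[p]) ^ n = (p : ℤ_[p]) ^ (n - v) * (p : ℤ_[p]) ^ v := by
    rw [← pow_add]; congr 1; omega
  have h4 : (p : ℤ_[p]) ^ n * z = (p : ℤ_[p]) ^ (n + 1) * (e * δ) + m * δ := by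
    have h5 : ((p : ℤ_[p]) ^ (n - v) * u * z) * δ = (p : ℤ_[p]) ^ n * z := by
      rw [hpn]
      linear_combination ((p : ℤ_[p]) ^ (n - v) * u * z) * hδ2 +
        ((p : ℤ_[p]) ^ (n - v) * z * (p : ℤ_[p]) ^ v) * h3
    linear_combination -h5 + δ * he
  apply ClosedPoint.ext'
  show w₁.comap (algebraMap (T.layer (n + 1)) L) = w₂.comap (algebraMap (T.layer (n + 1)) L)
  rw [hz, h4, mv_add, mv_nat_mul T w₁ δ hδ1 m]
  have h6 := T.mv_comap_layer (n + 1) ((p : ℤ_[p]) ^ (n + 1) * (e * δ)) 0 w₁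
    ⟨e * δ, by ring⟩
  rw [h6, mv_zero]

/-- a natural multiple of an inertia element is an inertia element -/
theorem inertia_nat (w : ValuationSubring L) (δ : ℤ_[p])
    (h1 : ∀ a, a ∈ w ↔ T.aut δ a ∈ w) (h2 : ∀ a ∈ w, w.valuation (T.aut δ a - a) < 1) (j : ℕ) :
    ∀ a ∈ w, T.aut (j * δ) a ∈ w ∧ w.valuation (T.aut (j * δ) a - a) < 1 := by
  induction j with
  | zero =>
    intro a ha
    rw [Nat.cast_zero, zero_mul, aut_zero, sub_self, map_zero]
    exact ⟨ha, zero_lt_one⟩
  | succ j ih =>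
    intro a ha
    obtain ⟨h3, h4⟩ := ih a ha
    have h5 : T.aut ((j + 1 : ℕ) * δ) a = T.aut δ (T.aut (j * δ) a) := by
      rw [Nat.cast_add, Nat.cast_one, add_mul, one_mul, aut_add]
    rw [h5]
    refine ⟨(h1 _).1 h3, ?_⟩
    have h6 := h2 _ h3
    have h7 : T.aut δ (T.aut (j * δ) a) - a =
        (T.aut δ (T.aut (j * δ) a) - T.aut (j * δ) a) + (T.aut (j * δ) a - a) := by ring
    rw [h7]
    exact lt_of_le_of_lt (Valuation.map_add _ _ _) (max_lt h6 h4)

/-- the norm to the lower layer -/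
theorem norm_mem (n : ℕ) (τ u : ℤ_[p]) (hu : IsUnit u) (hτ : τ = (p : ℤ_[p]) ^ n * u) (a : L)
    (ha : a ∈ T.layer (n + 1)) : ∏ i ∈ Finset.range p, T.aut ((i : ℕ) * τ) a ∈ T.layer n := by
  set N := ∏ i ∈ Finset.range p, T.aut ((i : ℕ) * τ) a with hN
  have hp : 0 < p := (Fact.out : p.Prime).pos
  have hN1 : N ∈ T.layer (n + 1) := prod_mem fun i _ => T.aut_layer (n + 1) _ a ha
  have hper : T.aut ((p : ℕ) * τ) a = a := by
    have : ((p : ℕ) : ℤ_[p]) * τ = (p : ℤ_[p]) ^ (n + 1) * u := by rw [hτ]; ring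
    rw [this]
    exact T.aut_fix (n + 1) u a ha
  have hshift : T.aut τ N = N := by
    obtain ⟨q, hq⟩ : ∃ q, p = q + 1 := ⟨p - 1, by omega⟩
    have e1 : T.aut τ N = ∏ i ∈ Finset.range p, T.aut (((i + 1 : ℕ) : ℤ_[p]) * τ) a := by
      rw [hN, map_prod]
      apply Finset.prod_congr rfl
      intro i _
      rw [← aut_add]
      congr 2
      push_cast
      ring
    rw [e1, hN]
    have e2 : ∀ g : ℕ → L, g p = g 0 → ∏ i ∈ Finset.range p, g (i + 1) = ∏ i ∈ Finset.range p, g i := by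
      intro g hg
      rw [hq] at hg ⊢
      rw [Finset.prod_range_succ, Finset.prod_range_succ', hg]
    have e3 := e2 (fun i => T.aut (((i : ℕ) : ℤ_[p]) * τ) a) (by
      show T.aut (((p : ℕ) : ℤ_[p]) * τ) a = T.aut (((0 : ℕ) : ℤ_[p]) * τ) a
      rw [hper, Nat.cast_zero, zero_mul, aut_zero])
    exact e3
  have hshift2 : ∀ j : ℕ, T.aut (j * τ) N = N := by
    intro j
    induction j with
    | zero => rw [Nat.cast_zero, zero_mul, aut_zero]
    | succ j ih => rw [Nat.cast_add, Nat.cast_one, add_mul, one_mul, aut_add, ih, hshift]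
  rw [mem_layer]
  intro σ hσ
  rw [mem_sub] at hσ
  obtain ⟨y, hy⟩ := hσ
  obtain ⟨c, hc⟩ := hu
  obtain ⟨j, -, e, he⟩ := exists_nat_dvd (p := p) 1 (y * ((c⁻¹ : ℤ_[p]ˣ) : ℤ_[p]))
  have h3 : (c : ℤ_[p]) * ((c⁻¹ : ℤ_[p]ˣ) : ℤ_[p]) = 1 := Units.mul_inv _
  have h4 : (T.iso σ).toAdd = j * τ + (p : ℤ_[p]) ^ (n + 1) * (e * u) := by
    rw [hy, hτ, ← hc]
    rw [pow_one] at he
    linear_combination (p : ℤ_[p]) ^ n * (c : ℤ_[p]) * he - (p : ℤ_[p]) ^ n * y * h3
  rw [← T.aut_surj σ, h4, aut_add, hshift2]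
  exact T.aut_fix (n + 1) _ N hN1

/-- the degrees of the points of consecutive layers agree -/
theorem deg_eq [Finite k] [CharP k p] (x : ClosedPoint k K) (w : ValuationSubring L)
    (hw : w.comap (algebraMap K L) = x.ring) (δ : ℤ_[p]) (hδ : δ ≠ 0)
    (h1 : ∀ a, a ∈ w ↔ T.aut δ a ∈ w) (h2 : ∀ a ∈ w, w.valuation (T.aut δ a - a) < 1) (n : ℕ)
    (hn : δ.valuation ≤ n) : (T.pt n x w hw).deg = (T.pt (n + 1) x w hw).deg := by
  set x1 := T.pt n x w hw with hx1
  set x2 := T.pt (n + 1) x w hw with hx2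
  have hcomap : x2.ring.comap (incl T n) = x1.ring :=
    comap_inclF (T.layer n) (T.layer (n + 1)) (T.layer_mono (Nat.le_succ n)) w
  have h : ∀ a, a ∈ x1.ring ↔ incl T n a ∈ x2.ring := by
    intro a
    rw [← hcomap, ValuationSubring.mem_comap]
  have hk : ∀ a : k, incl T n (algebraMap k (T.layer n) a) = algebraMap k (T.layer (n + 1)) a :=
    incl_const T n
  let _ : Algebra k (IsLocalRing.ResidueField x1.ring) := x1.constHom.toAlgebra
  let _ : Algebra k (IsLocalRing.ResidueField x2.ring) := x2.constHom.toAlgebra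
  have hfin : Module.Finite k (IsLocalRing.ResidueField x2.ring) :=
    x2.finite_residue (T.isCurve_layer (n + 1))
  have hfin2 : Finite (IsLocalRing.ResidueField x2.ring) := Module.finite_of_finite k
  have hchar : CharP (IsLocalRing.ResidueField x2.ring) p :=
    charP_of_injective_algebraMap (algebraMap k (IsLocalRing.ResidueField x2.ring)).injective p
  have hsurj : Function.Surjective (resMap x1 x2 (incl T n) h) := by
    intro r
    have hfrob : Function.Surjective (frobenius (IsLocalRing.ResidueField x2.ring) p) :=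
      Finite.surjective_of_injective (frobenius_inj _ p)
    obtain ⟨c, hc⟩ := hfrob r
    obtain ⟨a, rfl⟩ := IsLocalRing.residue_surjective c
    have haw : ((a : T.layer (n + 1)) : L) ∈ w := a.2
    -- the norm
    set v := δ.valuation with hv
    have hδ2 := PadicInt.unitCoeff_spec hδ
    set τ : ℤ_[p] := ((p ^ (n - v) : ℕ) : ℤ_[p]) * δ with hτ
    have hτ2 : τ = (p : ℤ_[p]) ^ n * (PadicInt.unitCoeff hδ : ℤ_[p]) := by
      have hpn : (p : ℤ_[p]) ^ n = (p : ℤ_[p]) ^ (n - v) * (p : ℤ_[p]) ^ v := by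
        rw [← pow_add]; congr 1; omega
      rw [hτ, hpn]
      push_cast
      linear_combination (p : ℤ_[p]) ^ (n - v) * hδ2
    have hN := norm_mem T n τ _ (PadicInt.unitCoeff hδ).isUnit hτ2
      ((a : T.layer (n + 1)) : L) (a : T.layer (n + 1)).2
    have hin : ∀ i : ℕ, T.aut (i * τ) ((a : T.layer (n + 1)) : L) ∈ w ∧
        w.valuation (T.aut (i * τ) ((a : T.layer (n + 1)) : L) - ((a : T.layer (n + 1)) : L)) < 1 := by
      intro i
      have := inertia_nat T w δ h1 h2 (i * p ^ (n - v)) _ haw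
      have e : ((i * p ^ (n - v) : ℕ) : ℤ_[p]) * δ = i * τ := by
        rw [hτ]; push_cast; ring
      rw [e] at this
      exact this
    have hNw : ∏ i ∈ Finset.range p, T.aut ((i : ℕ) * τ) ((a : T.layer (n + 1)) : L) ∈ w :=
      prod_mem fun i _ => (hin i).1
    have hval : w.valuation ((∏ i ∈ Finset.range p, T.aut ((i : ℕ) * τ)
        ((a : T.layer (n + 1)) : L)) - ((a : T.layer (n + 1)) : L) ^ p) < 1 := by
      let B : ℕ → w := fun i => ⟨T.aut ((i : ℕ) * τ) ((a : T.layer (n + 1)) : L), (hin i).1⟩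
      let A : w := ⟨((a : T.layer (n + 1)) : L), haw⟩
      have hB : ∀ i, IsLocalRing.residue w (B i) = IsLocalRing.residue w A := by
        intro i
        rw [← sub_eq_zero, ← map_sub, IsLocalRing.residue_eq_zero_iff,
          ValuationSubring.valuation_lt_one_iff]
        exact (hin i).2
      have hprod : IsLocalRing.residue w (∏ i ∈ Finset.range p, B i - A ^ p) = 0 := by
        rw [map_sub, map_prod, map_pow, Finset.prod_congr rfl fun i _ => hB i, Finset.prod_const,
          Finset.card_range, sub_self]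
      rw [IsLocalRing.residue_eq_zero_iff, ValuationSubring.valuation_lt_one_iff] at hprod
      have hcoe : ((∏ i ∈ Finset.range p, B i - A ^ p : w) : L) =
          (∏ i ∈ Finset.range p, T.aut ((i : ℕ) * τ) ((a : T.layer (n + 1)) : L)) -
            ((a : T.layer (n + 1)) : L) ^ p := by
        push_cast
        rfl
      rw [hcoe] at hprod
      exact hprod
    refine ⟨IsLocalRing.residue x1.ring ⟨⟨_, hN⟩, hNw⟩, ?_⟩
    rw [resMap_residue, ← hc, frobenius_def, ← map_pow, ← sub_eq_zero, ← map_sub,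
      IsLocalRing.residue_eq_zero_iff, ValuationSubring.valuation_lt_one_iff]
    exact (comap_val_lt_one w (algebraMap (T.layer (n + 1)) L) _).mpr hval
  exact LinearEquiv.finrank_eq (LinearEquiv.ofBijective (resLin x1 x2 (incl T n) hk h)
    ⟨(resMap x1 x2 (incl T n) h).injective, hsurj⟩)

end

theorem taskRam : Pool.Agent.H335R3.ZF.TaskRam := by
  intro p _ k K L _ _ _ _ _ _ _ _ _ T x hx
  unfold IsUnramifiedIn at hx
  push Not at hx
  obtain ⟨w, hw, σ, h1, h2, hσ⟩ := hx
  set δ : ℤ_[p] := (T.iso σ).toAdd with hδ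
  have hσδ : T.aut δ = σ := T.aut_surj σ
  have hδ0 : δ ≠ 0 := by
    intro h0
    apply hσ
    rw [← hσδ, h0]
    ext a
    rw [aut_zero]
    rfl
  have h1' : ∀ a, a ∈ w ↔ T.aut δ a ∈ w := by rw [hσδ]; exact h1
  have h2' : ∀ a ∈ w, w.valuation (T.aut δ a - a) < 1 := by rw [hσδ]; exact h2
  have hmv : T.mv δ w = w := by
    ext a
    rw [mem_mv]
    exact (h1' a).symm
  refine ⟨δ.valuation, fun n hn m => ?_⟩
  rw [T.contrib_eq (n + 1) x m w hw, T.contrib_eq n x m w hw, ncard_eq T x w hw δ hδ0 hmv n hn,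
    deg_eq T x w hw δ hδ0 h1' h2' n hn]

end Pool.Agent.H528R3.Ram
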