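import Mathlib

/-!
A quantitative obstruction to `n`-divisibility: a law that is (essentially) bounded below by `0`,
has a very light upper tail, and is non-degenerate, is not the law of a sum of `n` i.i.d. variables.
-/

set_option autoImplicit false

namespace Pool.Agent.H528R3.Gmc

open MeasureTheory ProbabilityTheory Set

noncomputable section

/-- the law of the sum of `n` independent copies of `ν` -/
def sumLaw (n : ℕ) (ν : Measure ℝ) : Measure ℝ :=
  (Measure.pi fun _ : Fin n => ν).map fun x => ∑ i, x i

theorem sum_measurable (n : ℕ) : Measurable fun x : Fin n → ℝ => ∑ i, x i := by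
  fun_prop

theorem pow_le_of_lower {n : ℕ} (hn : 0 < n) (ν : Measure ℝ) [IsProbabilityMeasure ν] (c : ℝ) :
    (ν.real (Iio (c / n)))^n ≤ (sumLaw n ν).real (Iio c) := by
  have hn' : (0:ℝ) < n := by exact_mod_cast hn
  have h1 : (Set.univ.pi fun _ : Fin n => Iio (c/n)) ⊆ (fun x : Fin n → ℝ => ∑ i, x i) ⁻¹' (Iio c) := by
    intro x hx
    simp only [mem_univ_pi, mem_Iio, mem_preimage] at hx ⊢
    have : Nonempty (Fin n) := ⟨⟨0, hn⟩⟩
    calc ∑ i, x i < ∑ _i : Fin n, c/n :=
          Finset.sum_lt_sum_of_nonempty Finset.univ_nonempty fun i _ => hx i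
      _ = c := by simp; field_simp
  have h2 : (Measure.pi fun _ : Fin n => ν).real (Set.univ.pi fun _ : Fin n => Iio (c/n))
      = (ν.real (Iio (c / n)))^n := by
    simp [measureReal_def, Measure.pi_pi, ENNReal.toReal_prod, Finset.prod_const]
  rw [← h2, sumLaw, map_measureReal_apply (sum_measurable n) measurableSet_Iio]
  exact measureReal_mono h1

theorem pow_le_of_upper {n : ℕ} (hn : 0 < n) (ν : Measure ℝ) [IsProbabilityMeasure ν] (s : ℝ) :
    (ν.real (Ioi s))^n ≤ (sumLaw n ν).real (Ioi (n * s)) := by
  have h1 : (Set.univ.pi fun _ : Fin n => Ioi s) ⊆ (fun x : Fin n → ℝ => ∑ i, x i) ⁻¹' (Ioi (n*s)) := by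
    intro x hx
    simp only [mem_univ_pi, mem_Ioi, mem_preimage] at hx ⊢
    have : Nonempty (Fin n) := ⟨⟨0, hn⟩⟩
    calc n * s = ∑ _i : Fin n, s := by simp
      _ < ∑ i, x i := Finset.sum_lt_sum_of_nonempty Finset.univ_nonempty fun i _ => hx i
  have h2 : (Measure.pi fun _ : Fin n => ν).real (Set.univ.pi fun _ : Fin n => Ioi s)
      = (ν.real (Ioi s))^n := by
    simp [measureReal_def, Measure.pi_pi, ENNReal.toReal_prod, Finset.prod_const]
  rw [← h2, sumLaw, map_measureReal_apply (sum_measurable n) measurableSet_Ioi]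
  exact measureReal_mono h1

/-- clamp to `[a, b]` -/
def clamp (a b x : ℝ) : ℝ := max a (min x b)

theorem clamp_ge {a b : ℝ} (x : ℝ) : a ≤ clamp a b x := le_max_left _ _

theorem clamp_le {a b : ℝ} (hab : a ≤ b) (x : ℝ) : clamp a b x ≤ b :=
  max_le hab (min_le_right _ _)

theorem clamp_eq {a b x : ℝ} (h1 : a ≤ x) (h2 : x ≤ b) : clamp a b x = x := by
  unfold clamp; rw [min_eq_left h2, max_eq_right h1]

theorem clamp_measurable (a b : ℝ) : Measurable (clamp a b) := by
  unfold clamp; fun_prop

/-- The obstruction. -/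
theorem not_divisible {p s η α : ℝ} {n : ℕ} (hn : 0 < n) (hp : 0 < p) (hs : 0 < s) (hη : 0 < η)
    (hα : 0 ≤ α) (hnα : n * (2 * α) ≤ p) (hsη : s + η < p / 12)
    (ν : Measure ℝ) [IsProbabilityMeasure ν]
    (hlow : (sumLaw n ν).real (Iio (-η)) ≤ α^n)
    (hup : (sumLaw n ν).real (Ioi (n * s)) ≤ α^n)
    (h1 : 2 * p ≤ (sumLaw n ν).real (Iic 1))
    (h2 : 2 * p ≤ (sumLaw n ν).real (Ici 2)) : False := by
  have hn' : (0:ℝ) < n := by exact_mod_cast hn
  set a : ℝ := -(η / n) with ha
  have hab : a ≤ s := by
    have : 0 < η / n := by positivity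
    linarith
  -- the marginal tails
  have hν1 : ν.real (Iio a) ≤ α := by
    have h := pow_le_of_lower hn ν (-η)
    have e : -η / n = a := by rw [ha, neg_div]
    rw [e] at h
    exact le_of_pow_le_pow_left₀ hn.ne' hα (h.trans hlow)
  have hν2 : ν.real (Ioi s) ≤ α := by
    have h := pow_le_of_upper hn ν s
    exact le_of_pow_le_pow_left₀ hn.ne' hα (h.trans hup)
  set Q : Measure (Fin n → ℝ) := Measure.pi fun _ : Fin n => ν with hQ
  set S : (Fin n → ℝ) → ℝ := fun x => ∑ i, x i with hS
  set S' : (Fin n → ℝ) → ℝ := fun x => ∑ i, clamp a s (x i) with hS'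
  have hSm : Measurable S := sum_measurable n
  have hS'm : Measurable S' := by
    rw [hS']
    exact Finset.measurable_sum _ fun i _ => (clamp_measurable a s).comp (measurable_pi_apply i)
  -- exceptional set
  set X : Set (Fin n → ℝ) := ⋃ i : Fin n, {x | x i < a ∨ s < x i} with hX
  have hXm : MeasurableSet X := by
    refine MeasurableSet.iUnion fun i => ?_
    exact (measurableSet_lt (measurable_pi_apply i) measurable_const).union
      (measurableSet_lt measurable_const (measurable_pi_apply i))
  have hXp : Q.real X ≤ p := by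
    have hi : ∀ i : Fin n, Q.real {x | x i < a ∨ s < x i} ≤ 2 * α := by
      intro i
      have e : {x : Fin n → ℝ | x i < a ∨ s < x i} = Function.eval i ⁻¹' (Iio a ∪ Ioi s) := by
        ext x; simp
      have hmp := measurePreserving_eval (fun _ : Fin n => ν) i
      have h3 : Q (Function.eval i ⁻¹' (Iio a ∪ Ioi s)) = ν (Iio a ∪ Ioi s) :=
        hmp.measure_preimage (measurableSet_Iio.union measurableSet_Ioi).nullMeasurableSet
      have h4 : ν.real (Iio a ∪ Ioi s) ≤ ν.real (Iio a) + ν.real (Ioi s) := measureReal_union_le _ _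
      rw [e, measureReal_def, h3, ← measureReal_def]
      linarith
    calc Q.real X ≤ ∑ i : Fin n, Q.real {x | x i < a ∨ s < x i} := measureReal_iUnion_fintype_le _
      _ ≤ ∑ _i : Fin n, 2 * α := Finset.sum_le_sum fun i _ => hi i
      _ = n * (2 * α) := by simp
      _ ≤ p := hnα
  have hSS : ∀ x ∉ X, S' x = S x := by
    intro x hx
    simp only [hX, mem_iUnion, mem_ofPred_eq, not_exists, not_or, not_lt] at hx
    exact Finset.sum_congr rfl fun i _ => clamp_eq (hx i).1 (hx i).2
  -- two-sided non-degeneracy of S'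
  have hQ1 : p ≤ Q.real {x | S' x ≤ 1} := by
    have e : (sumLaw n ν).real (Iic 1) = Q.real {x | S x ≤ 1} := by
      rw [sumLaw, map_measureReal_apply hSm measurableSet_Iic]; rfl
    have hsub : {x | S x ≤ 1} ⊆ {x | S' x ≤ 1} ∪ X := by
      intro x hx
      by_cases hxX : x ∈ X
      · exact Or.inr hxX
      · left; show S' x ≤ 1; rw [hSS x hxX]; exact hx
    have := (measureReal_mono hsub (μ := Q)).trans (measureReal_union_le _ _)
    linarith
  have hQ2 : p ≤ Q.real {x | 2 ≤ S' x} := by
    have e : (sumLaw n ν).real (Ici 2) = Q.real {x | 2 ≤ S x} := by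
      rw [sumLaw, map_measureReal_apply hSm measurableSet_Ici]; rfl
    have hsub : {x | 2 ≤ S x} ⊆ {x | 2 ≤ S' x} ∪ X := by
      intro x hx
      by_cases hxX : x ∈ X
      · exact Or.inr hxX
      · left; show 2 ≤ S' x; rw [hSS x hxX]; exact hx
    have := (measureReal_mono hsub (μ := Q)).trans (measureReal_union_le _ _)
    linarith
  -- moments of the clamped variable
  have hcb : ∀ x, ‖clamp a s x‖ ≤ |a| + |s| := by
    intro x
    rw [Real.norm_eq_abs, abs_le]
    have h1 := clamp_ge (a := a) (b := s) x
    have h2 := clamp_le hab x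
    constructor
    · have := neg_abs_le a; have := abs_nonneg s; linarith
    · have := le_abs_self s; have := abs_nonneg a; linarith
  have hcL : MemLp (clamp a s) 2 ν :=
    MemLp.of_bound (clamp_measurable a s).aestronglyMeasurable (|a| + |s|) (ae_of_all _ hcb)
  have hcI : Integrable (clamp a s) ν := hcL.integrable (by norm_num)
  have hvar1 : Var[S'; Q] = n * Var[clamp a s; ν] := by
    have h := variance_sum_pi (μ := fun _ : Fin n => ν) (X := fun _ => clamp a s) (fun _ => hcL)
    have e : (∑ i : Fin n, fun ω : Fin n → ℝ => clamp a s (ω i)) = S' := by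
      ext x; simp [hS']
    rw [e] at h
    rw [hQ, h]; simp
  have hmean : ∫ x, S' x ∂Q = n * ∫ y, clamp a s y ∂ν := by
    rw [hS', integral_finsetSum]
    · have : ∀ i : Fin n, ∫ x, clamp a s (x i) ∂Q = ∫ y, clamp a s y ∂ν := by
        intro i
        have hmp := measurePreserving_eval (fun _ : Fin n => ν) i
        have := integral_map (μ := Q) hmp.measurable.aemeasurable
          (f := clamp a s) (clamp_measurable a s).aestronglyMeasurable
        rw [hQ, hmp.map_eq] at this
        rw [this]
      rw [Finset.sum_congr rfl fun i _ => this i]; simp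
    · intro i _
      exact (measurePreserving_eval (fun _ : Fin n => ν) i).integrable_comp_of_integrable hcI
  set m : ℝ := ∫ x, S' x ∂Q with hm
  set c : ℝ := ∫ y, clamp a s y ∂ν with hc
  have hvar2 : Var[clamp a s; ν] ≤ (s - a) * (c - a) := by
    have hle : Var[clamp a s; ν] ≤ ∫ y, (clamp a s y - a)^2 ∂ν := by
      have h := variance_le_expectation_sq (X := fun y => clamp a s y - a) (μ := ν)
        ((clamp_measurable a s).sub_const a).aestronglyMeasurable
      have e : Var[fun y => clamp a s y - a; ν] = Var[clamp a s; ν] :=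
        variance_sub_const (clamp_measurable a s).aestronglyMeasurable a
      rw [e] at h
      simpa using h
    have hI2 : Integrable (fun y => (clamp a s y - a)) ν := hcI.sub (integrable_const a)
    calc Var[clamp a s; ν] ≤ ∫ y, (clamp a s y - a)^2 ∂ν := hle
      _ ≤ ∫ y, (s - a) * (clamp a s y - a) ∂ν := by
          apply integral_mono_of_nonneg (ae_of_all _ fun y => sq_nonneg _) (hI2.const_mul _)
          refine ae_of_all _ fun y => ?_
          have h1 := clamp_ge (a := a) (b := s) y
          have h2 := clamp_le hab y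
          show (clamp a s y - a)^2 ≤ (s - a) * (clamp a s y - a)
          nlinarith
      _ = (s - a) * (c - a) := by
          rw [integral_const_mul, integral_sub hcI (integrable_const a)]; simp [hc]
  have hca : a ≤ c := by
    have : ∫ _y : ℝ, a ∂ν ≤ c := integral_mono (integrable_const a) hcI fun y => clamp_ge y
    simpa using this
  have hηn : η / n ≤ η := div_le_self hη.le (by exact_mod_cast hn)
  have hna : n * a = -η := by rw [ha]; field_simp
  have hvar : Var[S'; Q] ≤ (s + η) * (m + η) := by
    rw [hvar1, hmean]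
    calc n * Var[clamp a s; ν] ≤ n * ((s - a) * (c - a)) := mul_le_mul_of_nonneg_left hvar2 hn'.le
      _ = (s - a) * (n * c - n * a) := by ring
      _ = (s - a) * (n * c + η) := by rw [hna]; ring
      _ ≤ (s + η) * (n * c + η) := by
          apply mul_le_mul_of_nonneg_right
          · rw [ha]; linarith
          · have : n * a ≤ n * c := mul_le_mul_of_nonneg_left hca hn'.le
            linarith
  have hmη : 0 ≤ m + η := by
    rw [hmean]
    have : n * a ≤ n * c := mul_le_mul_of_nonneg_left hca hn'.le
    linarith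
  -- lower bounds for the variance
  have hS'L : MemLp S' 2 Q := by
    have hb : ∀ x, ‖S' x‖ ≤ n * (|a| + |s|) := by
      intro x
      calc ‖S' x‖ ≤ ∑ i : Fin n, ‖clamp a s (x i)‖ := norm_sum_le _ _
        _ ≤ ∑ _i : Fin n, (|a| + |s|) := Finset.sum_le_sum fun i _ => hcb _
        _ = _ := by simp; ring
    exact MemLp.of_bound hS'm.aestronglyMeasurable _ (ae_of_all _ hb)
  have hvarI : Var[S'; Q] = ∫ x, (S' x - m)^2 ∂Q := by
    rw [variance_eq_integral hS'm.aemeasurable]
  have hIsq : Integrable (fun x => (S' x - m)^2) Q := by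
    have := (hS'L.sub (memLp_const m)).integrable_sq
    simpa using this
  have hlower : ∀ (A : Set (Fin n → ℝ)) (t : ℝ), MeasurableSet A → 0 ≤ t → p ≤ Q.real A →
      (∀ x ∈ A, t ≤ (S' x - m)^2) → p * t ≤ Var[S'; Q] := by
    intro A t hA ht hpA hAt
    rw [hvarI]
    calc p * t ≤ Q.real A * t := mul_le_mul_of_nonneg_right hpA ht
      _ = ∫ x, A.indicator (fun _ => t) x ∂Q := by
          rw [integral_indicator_const _ hA]; simp
      _ ≤ ∫ x, (S' x - m)^2 ∂Q := by
          apply integral_mono ((integrable_const t).indicator hA) hIsq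
          intro x
          by_cases hx : x ∈ A
          · rw [indicator_of_mem hx]; exact hAt x hx
          · rw [indicator_of_notMem hx]; exact sq_nonneg _
  rcases le_total m (3/2) with hm32 | hm32
  · have h := hlower {x | 2 ≤ S' x} (1/4) (measurableSet_le measurable_const hS'm) (by norm_num) hQ2
      (by intro x hx; simp only [mem_ofPred_eq] at hx; nlinarith)
    have h3 : (s + η) * (m + η) ≤ (s + η) * 2 := by
      apply mul_le_mul_of_nonneg_left _ (by linarith)
      have : p ≤ 1 := le_trans hQ1 measureReal_le_one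
      linarith
    linarith
  · have h := hlower {x | S' x ≤ 1} ((m-1)^2) (measurableSet_le hS'm measurable_const)
      (sq_nonneg _) hQ1 (by intro x hx; simp only [mem_ofPred_eq] at hx; nlinarith)
    have hp1 : p ≤ 1 := le_trans hQ1 measureReal_le_one
    have h3 : (s + η) * (m + η) ≤ (p/12) * (2 * m) := by
      apply mul_le_mul hsη.le (by linarith) hmη (by positivity)
    have h5 : (s + η) * (m + η) < (p/12) * (2 * m) := by
      have : m + η ≤ 2 * m := by linarith
      calc (s + η) * (m + η) ≤ (s + η) * (2 * m) := mul_le_mul_of_nonneg_left this (by linarith)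
        _ < (p/12) * (2*m) := mul_lt_mul_of_pos_right hsη (by linarith)
    have h4 : m / 6 ≤ (m-1)^2 := by nlinarith
    have h6 : p * (m/6) ≤ p * (m-1)^2 := mul_le_mul_of_nonneg_left h4 hp.le
    linarith

end

end Pool.Agent.H528R3.Gmc
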