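import Mathlib

/-!
Finite-dimensional Gaussian computations.
-/

set_option autoImplicit false
set_option linter.unusedSectionVars false

namespace Pool.Agent.H528R3.Gmc

open MeasureTheory ProbabilityTheory Set WithLp
open scoped RealInnerProductSpace

noncomputable section

/-- standard one-dimensional Gaussian -/
abbrev γ : Measure ℝ := gaussianReal 0 1

/-- the extended Gaussian space -/
abbrev bigLaw {ι : Type*} [Fintype ι] [DecidableEq ι] (m : EuclideanSpace ℝ ι)
    (C : Matrix ι ι ℝ) : Measure (EuclideanSpace ℝ ι × (ℝ × ℝ)) :=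
  (multivariateGaussian m C).prod (γ.prod γ)

/-- the decomposed field -/
def dec {ι : Type*} (b : ℝ) (a : ι → ℝ) (r : EuclideanSpace ℝ ι × (ℝ × ℝ)) : ι → ℝ :=
  fun i => r.1 i + b * (r.2.1 * Real.cos (a i) + r.2.2 * Real.sin (a i))

theorem dec_measurable {ι : Type*} [Fintype ι] (b : ℝ) (a : ι → ℝ) : Measurable (dec b a) := by
  unfold dec
  fun_prop

variable {ι : Type*} [Fintype ι] [DecidableEq ι]

theorem law_eq {Ω : Type*} [MeasurableSpace Ω] {P : Measure Ω} [IsProbabilityMeasure P]
    (X : ι → Ω → ℝ) (hX : HasGaussianLaw (fun w => (X · w)) P)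
    (C : Matrix ι ι ℝ) (hC : C.PosSemidef) (m : EuclideanSpace ℝ ι) (a : ι → ℝ) (b : ℝ)
    (hm : ∀ i, P[X i] = m i)
    (hcov : ∀ i k, cov[X i, X k; P] = C i k + b^2 * Real.cos (a i - a k)) :
    P.map (fun w => (X · w)) = (bigLaw m C).map (dec b a) := by
  have hXm : AEMeasurable (fun w => (X · w)) P := hX.aemeasurable
  have hXL : ∀ i, MemLp (X i) 2 P := fun i => (hX.eval i).memLp_two
  have hXI : ∀ i, Integrable (X i) P := fun i => (hX.eval i).integrable
  -- transport to Euclidean space
  have key : P.map (fun w => toLp 2 (X · w)) =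
      (bigLaw m C).map (fun r => toLp 2 (dec b a r)) := by
    have hX2 : HasGaussianLaw (fun w => toLp 2 (X · w)) P := hX.toLp_pi 2
    have : IsProbabilityMeasure (P.map (fun w => toLp 2 (X · w))) :=
      hX2.isGaussian_map.toIsProbabilityMeasure
    have hdm : Measurable (fun r => toLp 2 (dec b a r)) := by
      have := dec_measurable b a
      fun_prop
    have : IsProbabilityMeasure ((bigLaw m C).map (fun r => toLp 2 (dec b a r))) :=
      Measure.isProbabilityMeasure_map hdm.aemeasurable
    apply Measure.ext_of_charFun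
    ext t
    rw [hX2.charFun_map_eq t]
    have h1 : ∀ w, ⟪t, toLp 2 (X · w)⟫ = ∑ i, t i * X i w := by
      intro w
      simp [PiLp.inner_apply, mul_comm]
    have hmean : P[fun w => ⟪t, toLp 2 (X · w)⟫] = ∑ i, t i * m i := by
      simp_rw [h1]
      rw [integral_finsetSum _ fun i _ => (hXI i).const_mul _]
      simp_rw [integral_const_mul, hm]
    have hvar : Var[fun w => ⟪t, toLp 2 (X · w)⟫; P]
        = ∑ i, ∑ k, t i * t k * (C i k + b^2 * Real.cos (a i - a k)) := by
      simp_rw [h1]
      have haem : AEMeasurable (fun w => ∑ i, t i * X i w) P :=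
        Finset.aemeasurable_fun_sum _ fun i _ => (hX.eval i).aemeasurable.const_mul _
      rw [← covariance_self haem]
      rw [covariance_fun_sum_fun_sum (fun i => (hXL i).const_mul _) (fun i => (hXL i).const_mul _)]
      refine Finset.sum_congr rfl fun i _ => Finset.sum_congr rfl fun k _ => ?_
      rw [covariance_const_mul_left, covariance_const_mul_right, hcov]
      ring
    rw [hmean, hvar]
    -- right-hand side
    set c1 : ℝ := ∑ i, t i * Real.cos (a i) with hc1
    set c2 : ℝ := ∑ i, t i * Real.sin (a i) with hc2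
    have hR : charFun ((bigLaw m C).map (fun r => toLp 2 (dec b a r))) t
        = charFun (multivariateGaussian m C) t * (charFun γ (b * c1) * charFun γ (b * c2)) := by
      rw [charFun_apply, integral_map hdm.aemeasurable (by fun_prop)]
      rw [charFun_apply, charFun_apply_real, charFun_apply_real]
      rw [← integral_prod_mul (μ := γ) (ν := γ)
        (fun x : ℝ => Complex.exp (((b * c1 : ℝ):ℂ) * x * Complex.I))
        (fun x : ℝ => Complex.exp (((b * c2 : ℝ):ℂ) * x * Complex.I))]
      rw [← integral_prod_mul (μ := multivariateGaussian m C) (ν := γ.prod γ)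
        (fun x : EuclideanSpace ℝ ι => Complex.exp ((⟪x, t⟫ : ℝ) * Complex.I))
        (fun z : ℝ × ℝ => Complex.exp (((b * c1 : ℝ):ℂ) * z.1 * Complex.I) *
          Complex.exp (((b * c2 : ℝ):ℂ) * z.2 * Complex.I))]
      congr 1
      ext r
      rw [← Complex.exp_add, ← Complex.exp_add]
      congr 1
      have e1 : ⟪toLp 2 (dec b a r), t⟫ = ⟪r.1, t⟫ + (b * c1 * r.2.1 + b * c2 * r.2.2) := by
        simp only [PiLp.inner_apply, dec, hc1, hc2, Finset.mul_sum, Finset.sum_mul]
        rw [← Finset.sum_add_distrib, ← Finset.sum_add_distrib]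
        refine Finset.sum_congr rfl fun i _ => ?_
        simp
        ring
      rw [e1]
      push_cast
      ring
    rw [hR, charFun_multivariateGaussian hC, charFun_gaussianReal, charFun_gaussianReal,
      ← Complex.exp_add, ← Complex.exp_add]
    congr 1
    have e2 : ⟪t, m⟫ = ∑ i, t i * m i := by simp [PiLp.inner_apply, mul_comm]
    have e3 : ∑ i, ∑ k, t i * t k * (C i k + b^2 * Real.cos (a i - a k))
        = (t.ofLp ⬝ᵥ C.mulVec t.ofLp) + (b*c1)^2 + (b*c2)^2 := by
      have e4 : (b*c1)^2 = ∑ i, ∑ k, b^2 * (t i * Real.cos (a i) * (t k * Real.cos (a k))) := by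
        rw [mul_pow, pow_two c1, hc1, Finset.sum_mul_sum, Finset.mul_sum]
        exact Finset.sum_congr rfl fun i _ => by rw [Finset.mul_sum]
      have e5 : (b*c2)^2 = ∑ i, ∑ k, b^2 * (t i * Real.sin (a i) * (t k * Real.sin (a k))) := by
        rw [mul_pow, pow_two c2, hc2, Finset.sum_mul_sum, Finset.mul_sum]
        exact Finset.sum_congr rfl fun i _ => by rw [Finset.mul_sum]
      have e6 : (t.ofLp ⬝ᵥ C.mulVec t.ofLp) = ∑ i, ∑ k, t i * (C i k * t k) := by
        simp only [dotProduct, Matrix.mulVec]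
        exact Finset.sum_congr rfl fun i _ => by rw [Finset.mul_sum]
      rw [e4, e5, e6, ← Finset.sum_add_distrib, ← Finset.sum_add_distrib]
      refine Finset.sum_congr rfl fun i _ => ?_
      rw [← Finset.sum_add_distrib, ← Finset.sum_add_distrib]
      refine Finset.sum_congr rfl fun k _ => ?_
      rw [Real.cos_sub]; ring
    rw [e2, e3]
    push_cast
    simp
    ring
  have hof : Measurable (fun x : EuclideanSpace ℝ ι => (x.ofLp : ι → ℝ)) := by fun_prop
  have h2 := congrArg (fun μ => Measure.map (fun x : EuclideanSpace ℝ ι => (x.ofLp : ι → ℝ)) μ) key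
  simp only at h2
  rw [AEMeasurable.map_map_of_aemeasurable hof.aemeasurable (hX.toLp_pi 2).aemeasurable] at h2
  have hdm : Measurable (fun r => toLp 2 (dec b a r)) := by
      have := dec_measurable b a
      fun_prop
  rw [Measure.map_map hof hdm] at h2
  exact h2


/-! ### exponential moments -/

section moments

variable {C : Matrix ι ι ℝ} {m : EuclideanSpace ℝ ι}

theorem exp_moment (hC : C.PosSemidef) (c : ι → ℝ) :
    ∫ x, Real.exp (∑ i, c i * x i) ∂(multivariateGaussian m C)
      = Real.exp (∑ i, c i * m i + (∑ i, ∑ k, c i * c k * C i k) / 2) := by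
  set L : EuclideanSpace ℝ ι →L[ℝ] ℝ := ∑ i, c i • EuclideanSpace.proj i with hL
  have hLx : ∀ x, L x = ∑ i, c i * x i := by
    intro x
    simp [hL]
  have hmap := IsGaussian.map_eq_gaussianReal (μ := multivariateGaussian m C) L
  have hev : ∀ i : ι, MemLp (fun x : EuclideanSpace ℝ ι => x i) 2 (multivariateGaussian m C) :=
    fun i => IsGaussian.memLp_dual _ (EuclideanSpace.proj i) 2 (by norm_num)
  have hmean : (multivariateGaussian m C)[L] = ∑ i, c i * m i := by
    rw [ContinuousLinearMap.integral_comp_id_comm IsGaussian.integrable_id,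
      integral_id_multivariateGaussian, hLx]
  have hvar : Var[L; multivariateGaussian m C] = ∑ i, ∑ k, c i * c k * C i k := by
    have e : (L : EuclideanSpace ℝ ι → ℝ) = fun x => ∑ i, c i * x i := funext hLx
    rw [e, ← covariance_self (by fun_prop)]
    rw [covariance_fun_sum_fun_sum (fun i => (hev i).const_mul _) (fun i => (hev i).const_mul _)]
    refine Finset.sum_congr rfl fun i _ => Finset.sum_congr rfl fun k _ => ?_
    rw [covariance_const_mul_left, covariance_const_mul_right, covariance_eval_multivariateGaussian hC]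
    ring
  have hvn : 0 ≤ ∑ i, ∑ k, c i * c k * C i k := by rw [← hvar]; exact variance_nonneg _ _
  rw [hmean, hvar] at hmap
  have hmgf := mgf_gaussianReal hmap 1
  rw [mgf, Real.coe_toNNReal _ hvn] at hmgf
  simp only [one_mul, hLx] at hmgf
  rw [hmgf]
  congr 1; ring

theorem exp_integrable (hC : C.PosSemidef) (c : ι → ℝ) :
    Integrable (fun x => Real.exp (∑ i, c i * x i)) (multivariateGaussian m C) := by
  by_contra h
  have := exp_moment (m := m) hC c
  rw [integral_undef h] at this
  exact (Real.exp_pos _).ne this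

theorem pair_eq (i k : ι) (x : ι → ℝ) :
    ∑ j, ((Pi.single i (1:ℝ) : ι → ℝ) j + (Pi.single k (1:ℝ) : ι → ℝ) j) * x j = x i + x k := by
  simp [add_mul, Finset.sum_add_distrib, Pi.single_apply]

theorem pair_moment (hC : C.PosSemidef) (i k : ι) :
    ∫ x, Real.exp (x i + x k) ∂(multivariateGaussian m C)
      = Real.exp (m i + m k + (C i i + C k k + 2 * C i k) / 2) := by
  have h := exp_moment (m := m) hC
    (fun j => (Pi.single i (1:ℝ) : ι → ℝ) j + (Pi.single k (1:ℝ) : ι → ℝ) j)
  simp_rw [pair_eq] at h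
  rw [h]
  congr 1
  have hsym : C k i = C i k := by
    have := hC.isHermitian.apply i k
    simpa using this
  have e : ∑ x, ∑ x_1, ((Pi.single i (1:ℝ) : ι → ℝ) x + (Pi.single k (1:ℝ) : ι → ℝ) x) *
      ((Pi.single i (1:ℝ) : ι → ℝ) x_1 + (Pi.single k (1:ℝ) : ι → ℝ) x_1) * C x x_1
      = C i i + C i k + (C k i + C k k) := by
    have : ∀ x, ∑ x_1, ((Pi.single i (1:ℝ) : ι → ℝ) x + (Pi.single k (1:ℝ) : ι → ℝ) x) *
      ((Pi.single i (1:ℝ) : ι → ℝ) x_1 + (Pi.single k (1:ℝ) : ι → ℝ) x_1) * C x x_1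
      = ((Pi.single i (1:ℝ) : ι → ℝ) x + (Pi.single k (1:ℝ) : ι → ℝ) x) * (C x i + C x k) := by
      intro x
      rw [← pair_eq i k (fun j => C x j), Finset.mul_sum]
      exact Finset.sum_congr rfl fun j _ => by ring
    simp_rw [this]
    rw [pair_eq i k (fun j => C j i + C j k)]
  rw [e, hsym]; ring

theorem pair_integrable (hC : C.PosSemidef) (i k : ι) :
    Integrable (fun x => Real.exp (x i + x k)) (multivariateGaussian m C) := by
  have h := exp_integrable (m := m) hC
    (fun j => (Pi.single i (1:ℝ) : ι → ℝ) j + (Pi.single k (1:ℝ) : ι → ℝ) j)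
  simpa only [pair_eq] using h

theorem single_moment (hC : C.PosSemidef) (i : ι) :
    ∫ x, Real.exp (x i) ∂(multivariateGaussian m C) = Real.exp (m i + C i i / 2) := by
  have h := exp_moment (m := m) hC (fun j => (Pi.single i (1:ℝ) : ι → ℝ) j)
  simpa [Pi.single_apply] using h

theorem single_integrable (hC : C.PosSemidef) (i : ι) :
    Integrable (fun x => Real.exp (x i)) (multivariateGaussian m C) := by
  have h := exp_integrable (m := m) hC (fun j => (Pi.single i (1:ℝ) : ι → ℝ) j)
  simpa [Pi.single_apply] using h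

end moments

/-! ### trigonometry -/

/-- the maximum norm on the plane -/
def mx (z : ℝ × ℝ) : ℝ := max |z.1| |z.2|

theorem mx_measurable : Measurable mx := by
  unfold mx
  fun_prop

theorem mx_nonneg (z : ℝ × ℝ) : 0 ≤ mx z := le_max_of_le_left (abs_nonneg _)

theorem trig_upper (z : ℝ × ℝ) (a : ℝ) : z.1 * Real.cos a + z.2 * Real.sin a ≤ 2 * mx z := by
  have h1 : |z.1 * Real.cos a| ≤ mx z := by
    rw [abs_mul]
    calc |z.1| * |Real.cos a| ≤ |z.1| * 1 :=
          mul_le_mul_of_nonneg_left (Real.abs_cos_le_one a) (abs_nonneg _)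
      _ ≤ mx z := by rw [mul_one]; exact le_max_left _ _
  have h2 : |z.2 * Real.sin a| ≤ mx z := by
    rw [abs_mul]
    calc |z.2| * |Real.sin a| ≤ |z.2| * 1 :=
          mul_le_mul_of_nonneg_left (Real.abs_sin_le_one a) (abs_nonneg _)
      _ ≤ mx z := by rw [mul_one]; exact le_max_right _ _
  have h3 := le_abs_self (z.1 * Real.cos a)
  have h4 := le_abs_self (z.2 * Real.sin a)
  linarith

/-- the four centres -/
def ctr : Fin 4 → ℝ := ![0, Real.pi / 2, Real.pi, -(Real.pi / 2)]

theorem small_angle {d : ℝ} (hd : |d| ≤ 1/4) : 31/32 ≤ Real.cos d ∧ |Real.sin d| ≤ 1/4 := by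
  constructor
  · have h := Real.one_sub_sq_div_two_le_cos (x := d)
    have : d^2 ≤ (1/4)^2 := sq_le_sq' (by linarith [(abs_le.mp hd).1]) (abs_le.mp hd).2
    linarith
  · exact (Real.abs_sin_le_abs).trans hd

theorem combo {m u v c s : ℝ} (hm : 0 ≤ m) (hu : u = m) (hv : |v| ≤ m) (hc : 31/32 ≤ c)
    (hs : |s| ≤ 1/4) : m / 2 ≤ u * c + v * s := by
  subst hu
  have h1 : |v * s| ≤ u * (1/4) := by
    rw [abs_mul]
    exact mul_le_mul hv hs (abs_nonneg _) hm
  have h2 := neg_abs_le (v * s)
  have h3 : u * (31/32) ≤ u * c := mul_le_mul_of_nonneg_left hc hm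
  linarith

theorem trig_lower (z : ℝ × ℝ) : ∃ j : Fin 4, ∀ a : ℝ, |a - ctr j| ≤ 1/4 →
    mx z / 2 ≤ z.1 * Real.cos a + z.2 * Real.sin a := by
  rcases le_total |z.2| |z.1| with h | h
  · have hm : mx z = |z.1| := max_eq_left h
    rcases le_total 0 z.1 with h0 | h0
    · refine ⟨0, fun a ha => ?_⟩
      have ha' : |a| ≤ 1/4 := by simpa [ctr] using ha
      obtain ⟨hc, hs⟩ := small_angle ha'
      exact combo (mx_nonneg z) (by rw [hm, abs_of_nonneg h0]) (by rw [hm]; exact h) hc hs
    · refine ⟨2, fun a ha => ?_⟩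
      obtain ⟨δ, rfl⟩ : ∃ δ, a = δ + Real.pi := ⟨a - Real.pi, by ring⟩
      have ha' : |δ| ≤ 1/4 := by simpa [ctr] using ha
      obtain ⟨hc, hs⟩ := small_angle ha'
      rw [Real.cos_add_pi, Real.sin_add_pi]
      have := combo (u := -z.1) (v := -z.2) (mx_nonneg z) (by rw [hm, abs_of_nonpos h0])
        (by rw [hm, abs_neg]; exact h) hc hs
      linarith
  · have hm : mx z = |z.2| := max_eq_right h
    rcases le_total 0 z.2 with h0 | h0
    · refine ⟨1, fun a ha => ?_⟩
      obtain ⟨δ, rfl⟩ : ∃ δ, a = δ + Real.pi / 2 := ⟨a - Real.pi / 2, by ring⟩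
      have ha' : |δ| ≤ 1/4 := by simpa [ctr] using ha
      obtain ⟨hc, hs⟩ := small_angle ha'
      rw [Real.cos_add_pi_div_two, Real.sin_add_pi_div_two]
      have := combo (u := z.2) (v := -z.1) (mx_nonneg z) (by rw [hm, abs_of_nonneg h0])
        (by rw [hm, abs_neg]; exact h) hc hs
      linarith
    · refine ⟨3, fun a ha => ?_⟩
      obtain ⟨δ, rfl⟩ : ∃ δ, a = δ - Real.pi / 2 := ⟨a + Real.pi / 2, by ring⟩
      have ha' : |δ| ≤ 1/4 := by
        have e : δ - Real.pi / 2 - ctr 3 = δ := by simp [ctr]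
        rw [e] at ha; exact ha
      obtain ⟨hc, hs⟩ := small_angle ha'
      rw [Real.cos_sub_pi_div_two, Real.sin_sub_pi_div_two]
      have := combo (u := -z.2) (v := z.1) (mx_nonneg z) (by rw [hm, abs_of_nonpos h0])
        (by rw [hm]; exact h) hc hs
      linarith

/-! ### the two estimates -/

section estimates

variable {C : Matrix ι ι ℝ} {m : EuclideanSpace ℝ ι} {b c0 : ℝ}

/-- the small-scale part -/
def part (b : ℝ) (w : ι → ℝ) (I : Finset ι) (x : EuclideanSpace ℝ ι) : ℝ :=
  ∑ i ∈ I, w i * Real.exp (x i + b^2/2)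

omit [DecidableEq ι] in
theorem part_measurable (b : ℝ) (w : ι → ℝ) (I : Finset ι) : Measurable (part b w I) := by
  unfold part
  fun_prop

omit [DecidableEq ι] in
theorem part_nonneg {b : ℝ} {w : ι → ℝ} (hw : ∀ i, 0 ≤ w i) (I : Finset ι)
    (x : EuclideanSpace ℝ ι) : 0 ≤ part b w I x :=
  Finset.sum_nonneg fun i _ => mul_nonneg (hw i) (Real.exp_pos _).le

theorem part_integrable (hC : C.PosSemidef) (w : ι → ℝ) (I : Finset ι) :
    Integrable (part b w I) (multivariateGaussian m C) := by
  unfold part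
  refine integrable_finsetSum _ fun i _ => Integrable.const_mul ?_ _
  simp_rw [Real.exp_add]
  exact (single_integrable hC i).mul_const _

theorem part_mean (hC : C.PosSemidef) (hdiag : ∀ i, C i i = c0) (hm : ∀ i, m i = -(c0 + b^2)/2)
    (w : ι → ℝ) (I : Finset ι) :
    ∫ x, part b w I x ∂(multivariateGaussian m C) = ∑ i ∈ I, w i := by
  unfold part
  rw [integral_finsetSum]
  · refine Finset.sum_congr rfl fun i _ => ?_
    rw [integral_const_mul]
    simp_rw [Real.exp_add]
    rw [integral_mul_const, single_moment hC, ← Real.exp_add, hdiag, hm]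
    have : -(c0 + b^2)/2 + c0/2 + b^2/2 = 0 := by ring
    rw [this, Real.exp_zero, mul_one]
  · intro i _
    refine Integrable.const_mul ?_ _
    simp_rw [Real.exp_add]
    exact (single_integrable hC i).mul_const _

omit [DecidableEq ι] in
theorem part_sq (w : ι → ℝ) (I : Finset ι) (x : EuclideanSpace ℝ ι) :
    (part b w I x)^2 = ∑ i ∈ I, ∑ k ∈ I, w i * w k * Real.exp (b^2) * Real.exp (x i + x k) := by
  unfold part
  rw [pow_two, Finset.sum_mul_sum]
  refine Finset.sum_congr rfl fun i _ => Finset.sum_congr rfl fun k _ => ?_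
  have : Real.exp (x i + b^2/2) * Real.exp (x k + b^2/2)
      = Real.exp (b^2) * Real.exp (x i + x k) := by
    rw [← Real.exp_add, ← Real.exp_add]; congr 1; ring
  calc _ = w i * w k * (Real.exp (x i + b^2/2) * Real.exp (x k + b^2/2)) := by ring
    _ = _ := by rw [this]; ring

theorem part_sq_integrable (hC : C.PosSemidef) (w : ι → ℝ) (I : Finset ι) :
    Integrable (fun x => (part b w I x)^2) (multivariateGaussian m C) := by
  simp_rw [part_sq]
  exact integrable_finsetSum _ fun i _ => integrable_finsetSum _ fun k _ =>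
    (pair_integrable hC i k).const_mul _

theorem part_second (hC : C.PosSemidef) (hdiag : ∀ i, C i i = c0) (hm : ∀ i, m i = -(c0 + b^2)/2)
    (w : ι → ℝ) (I : Finset ι) :
    ∫ x, (part b w I x)^2 ∂(multivariateGaussian m C)
      = ∑ i ∈ I, ∑ k ∈ I, w i * w k * Real.exp (C i k) := by
  simp_rw [part_sq]
  rw [integral_finsetSum _ fun i _ => integrable_finsetSum _ fun k _ =>
    (pair_integrable hC i k).const_mul _]
  refine Finset.sum_congr rfl fun i _ => ?_
  rw [integral_finsetSum _ fun k _ => (pair_integrable hC i k).const_mul _]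
  refine Finset.sum_congr rfl fun k _ => ?_
  rw [integral_const_mul, pair_moment hC, hdiag, hdiag, hm, hm, mul_assoc, ← Real.exp_add]
  congr 2
  ring

/-- the mean-square deviation of the small-scale part from `v` -/
def dev (w : ι → ℝ) (C : Matrix ι ι ℝ) (v : ℝ) (I : Finset ι) : ℝ :=
  ∑ i ∈ I, ∑ k ∈ I, w i * w k * Real.exp (C i k) - 2 * v * ∑ i ∈ I, w i + v^2

theorem part_dev (hC : C.PosSemidef) (hdiag : ∀ i, C i i = c0) (hm : ∀ i, m i = -(c0 + b^2)/2)
    (w : ι → ℝ) (I : Finset ι) (v : ℝ) :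
    ∫ x, (part b w I x - v)^2 ∂(multivariateGaussian m C) = dev w C v I := by
  have e : ∀ x, (part b w I x - v)^2 = (part b w I x)^2 - 2 * v * part b w I x + v^2 := by
    intro x; ring
  simp_rw [e]
  rw [integral_add, integral_sub, integral_const_mul, part_second hC hdiag hm, part_mean hC hdiag hm]
  · simp [dev]
  · exact part_sq_integrable hC w I
  · exact (part_integrable hC w I).const_mul _
  · exact (part_sq_integrable hC w I).sub ((part_integrable hC w I).const_mul _)
  · exact integrable_const _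

theorem part_low (hC : C.PosSemidef) (hdiag : ∀ i, C i i = c0) (hm : ∀ i, m i = -(c0 + b^2)/2)
    (w : ι → ℝ) (I : Finset ι) {v : ℝ} (hv : 0 < v) :
    (multivariateGaussian m C).real {x | part b w I x < v/2} ≤ 4 / v^2 * dev w C v I := by
  have hint : Integrable (fun x => (part b w I x - v)^2) (multivariateGaussian m C) := by
    have e : ∀ x, (part b w I x - v)^2 = (part b w I x)^2 - 2 * v * part b w I x + v^2 := by
      intro x; ring
    simp_rw [e]
    exact ((part_sq_integrable hC w I).sub ((part_integrable hC w I).const_mul _)).add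
      (integrable_const _)
  have h := mul_meas_ge_le_integral_of_nonneg (μ := multivariateGaussian m C)
    (ae_of_all _ fun x => sq_nonneg (part b w I x - v)) hint (v^2/4)
  rw [part_dev hC hdiag hm] at h
  have hsub : (multivariateGaussian m C).real {x | part b w I x < v/2}
      ≤ (multivariateGaussian m C).real {x | v^2/4 ≤ (part b w I x - v)^2} := by
    refine measureReal_mono ?_
    intro x hx
    simp only [mem_ofPred_eq] at hx ⊢
    nlinarith
  have hv2 : 0 < v^2/4 := by positivity
  calc _ ≤ (multivariateGaussian m C).real {x | v^2/4 ≤ (part b w I x - v)^2} := hsub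
    _ ≤ dev w C v I / (v^2/4) := by
        rw [le_div_iff₀ hv2, mul_comm]; exact h
    _ = _ := by field_simp

theorem part_up (hC : C.PosSemidef) (hdiag : ∀ i, C i i = c0) (hm : ∀ i, m i = -(c0 + b^2)/2)
    {w : ι → ℝ} (hw : ∀ i, 0 ≤ w i) (I : Finset ι) (u : ℝ) :
    (multivariateGaussian m C).real {x | Real.exp u < part b w I x}
      ≤ (∑ i ∈ I, w i) * Real.exp (-u) := by
  have h := mul_meas_ge_le_integral_of_nonneg (μ := multivariateGaussian m C)
    (ae_of_all _ fun x => part_nonneg (b := b) hw I x) (part_integrable hC w I) (Real.exp u)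
  rw [part_mean hC hdiag hm] at h
  have hsub : (multivariateGaussian m C).real {x | Real.exp u < part b w I x}
      ≤ (multivariateGaussian m C).real {x | Real.exp u ≤ part b w I x} := by
    refine measureReal_mono ?_
    intro x hx
    simp only [mem_ofPred_eq] at hx ⊢
    exact hx.le
  have hu := Real.exp_pos u
  calc _ ≤ (multivariateGaussian m C).real {x | Real.exp u ≤ part b w I x} := hsub
    _ ≤ (∑ i ∈ I, w i) / Real.exp u := by
        rw [le_div_iff₀ hu, mul_comm]; exact h
    _ = _ := by rw [Real.exp_neg]; rfl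

/-- the total mass of the decomposed field -/
def tot (b : ℝ) (a w : ι → ℝ) (r : EuclideanSpace ℝ ι × (ℝ × ℝ)) : ℝ :=
  ∑ i, w i * Real.exp (dec b a r i)

theorem tot_le (hb : 0 ≤ b) (a : ι → ℝ) {w : ι → ℝ} (hw : ∀ i, 0 ≤ w i)
    (r : EuclideanSpace ℝ ι × (ℝ × ℝ)) :
    tot b a w r ≤ Real.exp (-b^2/2 + b * (2 * mx r.2)) * part b w Finset.univ r.1 := by
  unfold tot part
  rw [Finset.mul_sum]
  refine Finset.sum_le_sum fun i _ => ?_
  have h := mul_le_mul_of_nonneg_left (trig_upper r.2 (a i)) hb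
  calc w i * Real.exp (dec b a r i)
      ≤ w i * (Real.exp (-b^2/2 + b * (2 * mx r.2)) * Real.exp (r.1 i + b^2/2)) := by
        apply mul_le_mul_of_nonneg_left _ (hw i)
        rw [← Real.exp_add]
        apply Real.exp_le_exp.mpr
        unfold dec
        linarith
    _ = _ := by ring

theorem le_tot (hb : 0 ≤ b) (a : ι → ℝ) {w : ι → ℝ} (hw : ∀ i, 0 ≤ w i)
    (I : Fin 4 → Finset ι) (hI : ∀ j, ∀ i ∈ I j, |a i - ctr j| ≤ 1/4)
    (r : EuclideanSpace ℝ ι × (ℝ × ℝ)) :
    ∃ j, Real.exp (-b^2/2 + b * (mx r.2 / 2)) * part b w (I j) r.1 ≤ tot b a w r := by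
  obtain ⟨j, hj⟩ := trig_lower r.2
  refine ⟨j, ?_⟩
  unfold tot part
  rw [Finset.mul_sum]
  calc _ ≤ ∑ i ∈ I j, w i * Real.exp (dec b a r i) := by
        refine Finset.sum_le_sum fun i hi => ?_
        have h := mul_le_mul_of_nonneg_left (hj (a i) (hI j i hi)) hb
        calc Real.exp (-b^2/2 + b * (mx r.2 / 2)) * (w i * Real.exp (r.1 i + b^2/2))
            = w i * (Real.exp (-b^2/2 + b * (mx r.2 / 2)) * Real.exp (r.1 i + b^2/2)) := by ring
          _ ≤ w i * Real.exp (dec b a r i) := by
            apply mul_le_mul_of_nonneg_left _ (hw i)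
            rw [← Real.exp_add]
            apply Real.exp_le_exp.mpr
            unfold dec
            linarith
    _ ≤ _ := Finset.sum_le_sum_of_subset_of_nonneg (Finset.subset_univ _)
        fun i _ _ => mul_nonneg (hw i) (Real.exp_pos _).le

theorem bigLaw_fst (S : Set (EuclideanSpace ℝ ι)) :
    (bigLaw m C).real {r | r.1 ∈ S} = (multivariateGaussian m C).real S := by
  have e : {r : EuclideanSpace ℝ ι × (ℝ × ℝ) | r.1 ∈ S} = S ×ˢ Set.univ := by ext r; simp
  rw [e, bigLaw, measureReal_prod_prod]; simp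

theorem bigLaw_snd (S : Set (ℝ × ℝ)) :
    (bigLaw m C).real {r | r.2 ∈ S} = (γ.prod γ).real S := by
  have e : {r : EuclideanSpace ℝ ι × (ℝ × ℝ) | r.2 ∈ S} = Set.univ ×ˢ S := by ext r; simp
  rw [e, bigLaw, measureReal_prod_prod]; simp

theorem est_up (hC : C.PosSemidef) (hdiag : ∀ i, C i i = c0) (hm : ∀ i, m i = -(c0 + b^2)/2)
    (hb : 0 ≤ b) (a : ι → ℝ) {w : ι → ℝ} (hw : ∀ i, 0 ≤ w i) (t η : ℝ) :
    (bigLaw m C).real {r | Real.exp (-b^2/2 + b * (t + η)) < tot b a w r}
      ≤ (γ.prod γ).real {z | t < 2 * mx z} + (∑ i, w i) * Real.exp (-(b * η)) := by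
  have hsub : {r : EuclideanSpace ℝ ι × (ℝ × ℝ) | Real.exp (-b^2/2 + b * (t + η)) < tot b a w r}
      ⊆ {r | r.2 ∈ {z : ℝ × ℝ | t < 2 * mx z}} ∪
        {r | r.1 ∈ {x : EuclideanSpace ℝ ι | Real.exp (b * η) < part b w Finset.univ x}} := by
    intro r hr
    simp only [mem_ofPred_eq] at hr
    by_contra hcon
    simp only [mem_union, mem_ofPred_eq, not_or, not_lt] at hcon
    obtain ⟨h1, h2⟩ := hcon
    have h3 := tot_le hb a hw r
    have h4 : Real.exp (-b^2/2 + b * (2 * mx r.2)) * part b w Finset.univ r.1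
        ≤ Real.exp (-b^2/2 + b * t) * Real.exp (b * η) := by
      apply mul_le_mul _ h2 (part_nonneg hw _ _) (Real.exp_pos _).le
      apply Real.exp_le_exp.mpr
      have := mul_le_mul_of_nonneg_left h1 hb
      linarith
    rw [← Real.exp_add] at h4
    have e : -b^2/2 + b * t + b * η = -b^2/2 + b * (t + η) := by ring
    rw [e] at h4
    linarith
  calc _ ≤ _ := measureReal_mono hsub
    _ ≤ _ := measureReal_union_le _ _
    _ ≤ _ := by
      rw [bigLaw_snd, bigLaw_fst]
      have := part_up (b := b) hC hdiag hm hw Finset.univ (b * η)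
      linarith

theorem est_low (hC : C.PosSemidef) (hdiag : ∀ i, C i i = c0) (hm : ∀ i, m i = -(c0 + b^2)/2)
    (hb : 0 ≤ b) (a : ι → ℝ) {w : ι → ℝ} (hw : ∀ i, 0 ≤ w i)
    (I : Fin 4 → Finset ι) (hI : ∀ j, ∀ i ∈ I j, |a i - ctr j| ≤ 1/4) {v : ℝ} (hv : 0 < v) (m1 : ℝ) :
    (bigLaw m C).real {r | tot b a w r < Real.exp (-b^2/2 + b * (m1/2)) * (v/2)}
      ≤ (γ.prod γ).real {z | mx z < m1} + ∑ j, 4 / v^2 * dev w C v (I j) := by
  have hsub : {r : EuclideanSpace ℝ ι × (ℝ × ℝ) |
        tot b a w r < Real.exp (-b^2/2 + b * (m1/2)) * (v/2)}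
      ⊆ {r | r.2 ∈ {z : ℝ × ℝ | mx z < m1}} ∪
        ⋃ j, {r | r.1 ∈ {x : EuclideanSpace ℝ ι | part b w (I j) x < v/2}} := by
    intro r hr
    simp only [mem_ofPred_eq] at hr
    by_contra hcon
    simp only [mem_union, mem_ofPred_eq, mem_iUnion, not_or, not_lt, not_exists] at hcon
    obtain ⟨h1, h2⟩ := hcon
    obtain ⟨j, hj⟩ := le_tot hb a hw I hI r
    have h4 : Real.exp (-b^2/2 + b * (m1/2)) * (v/2)
        ≤ Real.exp (-b^2/2 + b * (mx r.2 / 2)) * part b w (I j) r.1 := by
      apply mul_le_mul _ (h2 j) (by positivity) (Real.exp_pos _).le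
      apply Real.exp_le_exp.mpr
      have := mul_le_mul_of_nonneg_left h1 hb
      linarith
    linarith
  calc _ ≤ _ := measureReal_mono hsub
    _ ≤ _ := measureReal_union_le _ _
    _ ≤ _ := by
      apply add_le_add
      · rw [bigLaw_snd]
      · refine (measureReal_iUnion_fintype_le _).trans (Finset.sum_le_sum fun j _ => ?_)
        rw [bigLaw_fst]
        exact part_low hC hdiag hm w (I j) hv

end estimates

end

end Pool.Agent.H528R3.Gmc
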