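import Mathlib
import Pool.Agent.H528R3.GmcA

/-!
Definitions for the statement about infinite divisibility of the logarithm of the total mass of
Gaussian multiplicative chaos.
-/

set_option autoImplicit false

namespace Pool.Agent.H528R3.Gmc

open MeasureTheory ProbabilityTheory Set Filter Topology

noncomputable section

/-- The space `ℝ^d`. -/
abbrev Sp (d : ℕ) := EuclideanSpace ℝ (Fin d)

/-- Positive definiteness of a real even function `g` on `ℝ^d` (which may have a logarithmic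
singularity at the origin): `∬ g(x - y) ψ(x) ψ(y) dx dy ≥ 0` for all continuous `ψ` of compact
support. -/
structure PosDef {d : ℕ} (g : Sp d → ℝ) : Prop where
  even : ∀ x, g (-x) = g x
  pos : ∀ ψ : Sp d → ℝ, Continuous ψ → HasCompactSupport ψ →
    0 ≤ ∫ x, ∫ y, g (x - y) * ψ x * ψ y

/-- `g` is a positive-definite function of the form `g x = log⁺ (1/|x|) + h x` with `h` bounded
and continuous. -/
structure Admissible {d : ℕ} (g : Sp d → ℝ) : Prop where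
  posdef : PosDef g
  form : ∃ h : Sp d → ℝ, Continuous h ∧ (∃ K : ℝ, ∀ x, |h x| ≤ K) ∧
    ∀ x, x ≠ 0 → g x = max (Real.log (1 / ‖x‖)) 0 + h x

/-- `θ ≥ 0` is a positive-definite continuous bump function with total mass one and fast decay at
infinity. -/
structure Bump {d : ℕ} (θ : Sp d → ℝ) : Prop where
  cont : Continuous θ
  nonneg : ∀ x, 0 ≤ θ x
  mass : ∫ x, θ x = 1
  decay : ∀ k : ℕ, ∃ K : ℝ, ∀ x, ‖x‖ ^ k * θ x ≤ K
  posdef : PosDef θ

/-- The convolution `θ_ε ⋆ g`, with `θ_ε z = ε^{-d} θ (z/ε)`. -/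
def moll {d : ℕ} (θ g : Sp d → ℝ) (ε : ℝ) (x : Sp d) : ℝ :=
  ∫ z, (ε ^ d)⁻¹ * θ (ε⁻¹ • z) * g (x - z)

/-- `ω` is a (jointly measurable version of the) stationary Gaussian process on `ℝ^d` with
`Cov[ω x, ω y] = μ (θ_ε ⋆ g)(x - y)` and `E[ω x] = - Var[ω x] / 2`. -/
structure IsField {d : ℕ} (g θ : Sp d → ℝ) (μ ε : ℝ) {Ω : Type} [MeasurableSpace Ω]
    (P : Measure Ω) (ω : Sp d → Ω → ℝ) : Prop where
  meas : Measurable (fun p : Sp d × Ω => ω p.1 p.2)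
  gauss : IsGaussianProcess ω P
  mean : ∀ x, ∫ w, ω x w ∂P = -(Var[ω x; P]) / 2
  cov : ∀ x y, cov[ω x, ω y; P] = μ * moll θ g ε (x - y)

/-- `Λ` is the law of `∫_D φ(x) e^{ω_{μ,ε}(x)} dx`. -/
def IsMassLaw {d : ℕ} (g θ : Sp d → ℝ) (μ : ℝ) (D : Set (Sp d)) (φ : Sp d → ℝ) (ε : ℝ)
    (Λ : Measure ℝ) : Prop :=
  ∃ (Ω : Type) (_ : MeasurableSpace Ω) (P : Measure Ω) (_ : IsProbabilityMeasure P)
    (ω : Sp d → Ω → ℝ), IsField g θ μ ε P ω ∧
      Λ = P.map (fun w => ∫ x in D, φ x * Real.exp (ω x w))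

/-- `ρ` is a limit in law, along some sequence `ε_k → 0`, of the regularised total masses
`∫_D φ(x) e^{ω_{μ,ε}(x)} dx`. -/
def IsLimitLaw {d : ℕ} (g θ : Sp d → ℝ) (μ : ℝ) (D : Set (Sp d)) (φ : Sp d → ℝ)
    (ρ : ProbabilityMeasure ℝ) : Prop :=
  ∃ (ε : ℕ → ℝ) (Λ : ℕ → ProbabilityMeasure ℝ), (∀ k, 0 < ε k) ∧ Tendsto ε atTop (𝓝 0) ∧
    (∀ k, IsMassLaw g θ μ D φ (ε k) (Λ k)) ∧ Tendsto Λ atTop (𝓝 ρ)

/-- A law on `ℝ` is infinitely divisible if for every `n ≥ 1` it is the law of a sum of `n`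
independent copies of some law. -/
def InfDiv (ρ : Measure ℝ) : Prop :=
  ∀ n : ℕ, 1 ≤ n → ∃ ν : Measure ℝ, IsProbabilityMeasure ν ∧ ρ = sumLaw n ν

end

end Pool.Agent.H528R3.Gmc
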