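import Mathlib
import Pool.Agent.H528R3.GmcDefs

/-!
The kernel `g0 x = (1/2) log (1 + 1/|x|^2)`.
-/

set_option autoImplicit false
set_option linter.unusedSectionVars false

namespace Pool.Agent.H528R3.Gmc

open MeasureTheory ProbabilityTheory Set Filter Topology
open scoped RealInnerProductSpace

noncomputable section

/-- superposition principle -/
theorem sup_lemma {L Y T : Type*} [Fintype L] [MeasurableSpace Y] [MeasurableSpace T]
    (ϱ : Measure Y) [SFinite ϱ] (τ : Measure T) [SFinite τ]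
    (F : L → Y → ℝ) (K : L → Y → T → ℝ)
    (hint : ∀ l, Integrable (fun p : Y × T => F l p.1 * K l p.1 p.2) (ϱ.prod τ))
    (h : ∀ᵐ t ∂τ, 0 ≤ ∑ l, ∫ y, F l y * K l y t ∂ϱ) :
    0 ≤ ∑ l, ∫ y, F l y * ∫ t, K l y t ∂τ ∂ϱ := by
  have e : ∀ l, ∫ y, F l y * ∫ t, K l y t ∂τ ∂ϱ = ∫ t, ∫ y, F l y * K l y t ∂ϱ ∂τ := by
    intro l
    have := integral_integral_swap (f := fun y t => F l y * K l y t) (hint l)
    rw [← this]
    congr 1
    ext y
    rw [integral_const_mul]
  simp_rw [e]
  rw [← integral_finsetSum _ fun l _ => (hint l).integral_prod_right]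
  exact integral_nonneg_of_ae h

variable {d : ℕ}

/-- the kernel -/
def g0 (x : Sp d) : ℝ := 1/2 * Real.log (1 + 1/‖x‖^2)

theorem g0_nonneg (x : Sp d) : 0 ≤ g0 x := by
  unfold g0
  have : 0 ≤ Real.log (1 + 1/‖x‖^2) := Real.log_nonneg (by
    have : 0 ≤ 1/‖x‖^2 := by positivity
    linarith)
  linarith

theorem g0_even (x : Sp d) : g0 (-x) = g0 x := by
  unfold g0; rw [norm_neg]

theorem g0_measurable : Measurable (g0 : Sp d → ℝ) := by
  unfold g0; fun_prop

/-- the continuous part -/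
def h0 (x : Sp d) : ℝ := 1/2 * Real.log (1 + ‖x‖^2) - Real.log (max ‖x‖ 1)

theorem h0_continuous : Continuous (h0 : Sp d → ℝ) := by
  unfold h0
  have h1 : ∀ x : Sp d, 1 + ‖x‖^2 ≠ 0 := fun x => by positivity
  have h2 : ∀ x : Sp d, max ‖x‖ 1 ≠ 0 := fun x => by
    have : (1:ℝ) ≤ max ‖x‖ 1 := le_max_right _ _
    linarith
  exact (continuous_const.mul ((by fun_prop : Continuous fun x : Sp d => 1 + ‖x‖^2).log h1)).sub
    ((by fun_prop : Continuous fun x : Sp d => max ‖x‖ 1).log h2)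

theorem h0_bound (x : Sp d) : |h0 x| ≤ 1 := by
  have h1 : (1:ℝ) ≤ max ‖x‖ 1 := le_max_right _ _
  have h2 : ‖x‖ ≤ max ‖x‖ 1 := le_max_left _ _
  have h3 : 0 ≤ ‖x‖ := norm_nonneg x
  set M := max ‖x‖ 1 with hM
  have hM0 : 0 < M := by linarith
  have e : h0 x = 1/2 * (Real.log (1 + ‖x‖^2) - Real.log (M^2)) := by
    unfold h0; rw [Real.log_pow]; push_cast; ring
  have h4 : Real.log (1 + ‖x‖^2) ≤ Real.log (2 * M^2) := by
    apply Real.log_le_log (by positivity)
    nlinarith
  have h5 : Real.log (M^2) ≤ Real.log (1 + ‖x‖^2) := by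
    apply Real.log_le_log (by positivity)
    rcases le_total ‖x‖ 1 with h | h
    · rw [hM, max_eq_right h]; nlinarith
    · rw [hM, max_eq_left h]; nlinarith
  rw [Real.log_mul (by norm_num) (by positivity)] at h4
  have h6 : Real.log 2 ≤ 1 := by
    have := Real.log_le_sub_one_of_pos (x := 2) (by norm_num)
    linarith
  rw [e, abs_of_nonneg (by linarith)]
  linarith

theorem h0_even (x : Sp d) : h0 (-x) = h0 x := by unfold h0; rw [norm_neg]

theorem g0_form (x : Sp d) (hx : x ≠ 0) : g0 x = max (Real.log (1/‖x‖)) 0 + h0 x := by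
  have hx0 : 0 < ‖x‖ := norm_pos_iff.mpr hx
  have e1 : Real.log (1 + 1/‖x‖^2) = Real.log (1 + ‖x‖^2) - 2 * Real.log ‖x‖ := by
    have : 1 + 1/‖x‖^2 = (1 + ‖x‖^2) / ‖x‖^2 := by field_simp; ring
    rw [this, Real.log_div (by positivity) (by positivity), Real.log_pow]; push_cast; ring
  have e2 : Real.log (1/‖x‖) = -Real.log ‖x‖ := by rw [one_div, Real.log_inv]
  unfold g0 h0
  rw [e1, e2]
  rcases le_total ‖x‖ 1 with h | h
  · have : Real.log ‖x‖ ≤ 0 := Real.log_nonpos hx0.le h
    rw [max_eq_right h, max_eq_left (by linarith), Real.log_one]; ring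
  · have : 0 ≤ Real.log ‖x‖ := Real.log_nonneg h
    rw [max_eq_left h, max_eq_right (by linarith)]; ring

/-- auxiliary majorant `e^{g0/2} - 1` -/
def q (x : Sp d) : ℝ := Real.exp (g0 x / 2) - 1

theorem q_nonneg (x : Sp d) : 0 ≤ q x := by
  unfold q
  have := Real.add_one_le_exp (g0 x / 2)
  have := g0_nonneg x
  linarith

theorem q_measurable : Measurable (q : Sp d → ℝ) := by
  unfold q
  have := g0_measurable (d := d)
  fun_prop

theorem g0_le_q (x : Sp d) : g0 x ≤ 2 * q x := by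
  unfold q
  have := Real.add_one_le_exp (g0 x / 2)
  linarith

theorem exp_g0_le {μ : ℝ} (h0 : 0 ≤ μ) (h1 : μ ≤ 1/2) (x : Sp d) :
    Real.exp (μ * g0 x) ≤ 1 + 2 * μ * q x := by
  have h := convexOn_exp.2 (mem_univ (g0 x / 2)) (mem_univ 0) (by linarith : 0 ≤ 2*μ)
    (by linarith : 0 ≤ 1 - 2 * μ) (by ring)
  simp only [smul_eq_mul, mul_zero, add_zero, Real.exp_zero, mul_one] at h
  have e : 2 * μ * (g0 x / 2) = μ * g0 x := by ring
  rw [e] at h
  unfold q
  linarith

theorem q_le_one {x : Sp d} (hx : 1 ≤ ‖x‖) : q x ≤ 1 := by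
  unfold q g0
  have h1 : 1 + 1/‖x‖^2 ≤ 2 := by
    have : 1/‖x‖^2 ≤ 1 := by
      rw [div_le_one (by positivity)]
      nlinarith
    linarith
  have h2 : Real.log (1 + 1/‖x‖^2) ≤ Real.log 2 := Real.log_le_log (by positivity) h1
  have h3 : 0 ≤ Real.log 2 := Real.log_nonneg (by norm_num)
  have h4 : Real.exp (1/2 * Real.log (1 + 1/‖x‖^2) / 2) ≤ Real.exp (Real.log 2) :=
    Real.exp_le_exp.mpr (by linarith)
  rw [Real.exp_log (by norm_num)] at h4
  linarith

/-- the singular part of `q` -/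
def q1 : Sp d → ℝ := (Metric.ball 0 1).indicator q

theorem q1_nonneg (x : Sp d) : 0 ≤ q1 x := indicator_nonneg (fun x _ => q_nonneg x) x

theorem q1_measurable : Measurable (q1 : Sp d → ℝ) :=
  q_measurable.indicator measurableSet_ball

theorem q_le (x : Sp d) : q x ≤ 1 + q1 x := by
  unfold q1
  by_cases hx : x ∈ Metric.ball (0 : Sp d) 1
  · rw [indicator_of_mem hx]; linarith
  · rw [indicator_of_notMem hx]
    have : 1 ≤ ‖x‖ := by simpa using hx
    linarith [q_le_one this]

theorem q1_integrable (hd : 1 ≤ d) : Integrable (q1 : Sp d → ℝ) := by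
  unfold q1
  rw [integrable_indicator_iff measurableSet_ball]
  have : Nonempty (Fin d) := ⟨⟨0, hd⟩⟩
  have hnt : Nontrivial (Sp d) := inferInstance
  -- comparison function
  have hcmp : IntegrableOn (fun x : Sp d => (fun r : ℝ => 2 * r ^ (-(1/2) : ℝ)) ‖x‖)
      (Metric.ball 0 1) := by
    refine (integrableOn_fun_norm_addHaar (E := Sp d) volume
      (f := fun r : ℝ => 2 * r ^ (-(1/2) : ℝ)) (r := 1)).mpr ?_
    rw [finrank_euclideanSpace, Fintype.card_fin]
    have h1 : IntegrableOn (fun y : ℝ => y ^ (-(1/2) : ℝ)) (Ioo 0 1) := by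
      rw [← integrableOn_Ioc_iff_integrableOn_Ioo, ← intervalIntegrable_iff_integrableOn_Ioc_of_le
        (by norm_num)]
      exact intervalIntegral.intervalIntegrable_rpow' (by norm_num)
    refine Integrable.mono' (h1.const_mul 2) ?_ ?_
    · exact (by fun_prop : Measurable fun y : ℝ => y ^ (d-1) • (2 * y ^ (-(1/2) : ℝ))).aestronglyMeasurable
    · filter_upwards [ae_restrict_mem measurableSet_Ioo] with y hy
      have hy0 : 0 < y := hy.1
      rw [smul_eq_mul, norm_mul, norm_mul, norm_pow, Real.norm_eq_abs, Real.norm_eq_abs,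
        Real.norm_eq_abs, abs_of_pos hy0, abs_of_pos (by positivity : (0:ℝ) < y ^ (-(1/2):ℝ)),
        abs_of_pos (by norm_num : (0:ℝ) < 2)]
      have : y^(d-1) ≤ 1 := pow_le_one₀ hy0.le hy.2.le
      calc _ ≤ 1 * (2 * y ^ (-(1/2) : ℝ)) := by gcongr
        _ = _ := by ring
  refine Integrable.mono' hcmp q_measurable.aestronglyMeasurable ?_
  filter_upwards [ae_restrict_mem measurableSet_ball] with x hx
  have hx1 : ‖x‖ < 1 := by simpa using hx
  rw [Real.norm_eq_abs, abs_of_nonneg (q_nonneg x)]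
  by_cases hx0 : x = 0
  · subst hx0
    simp [q, g0]
  have hxp : 0 < ‖x‖ := norm_pos_iff.mpr hx0
  unfold q g0
  have h1 : 1 + 1/‖x‖^2 ≤ 2 / ‖x‖^2 := by
    rw [add_comm, ← sub_nonneg]
    have : 2 / ‖x‖^2 - (1/‖x‖^2 + 1) = (1 - ‖x‖^2)/‖x‖^2 := by field_simp; ring
    rw [this]
    apply div_nonneg _ (by positivity)
    nlinarith
  have h2 : Real.log (1 + 1/‖x‖^2) ≤ Real.log 2 - 2 * Real.log ‖x‖ := by
    calc _ ≤ Real.log (2/‖x‖^2) := Real.log_le_log (by positivity) h1
      _ = _ := by rw [Real.log_div (by norm_num) (by positivity), Real.log_pow]; push_cast; ring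
  have h3 : 0 ≤ Real.log 2 := Real.log_nonneg (by norm_num)
  have h4 : Real.exp (1/2 * Real.log (1 + 1/‖x‖^2) / 2)
      ≤ Real.exp (Real.log 2 + Real.log ‖x‖ * (-(1/2))) :=
    Real.exp_le_exp.mpr (by linarith)
  rw [Real.exp_add, Real.exp_log (by norm_num), ← Real.rpow_def_of_pos hxp] at h4
  linarith

/-! ### positive definiteness of `g0`, in superposition form -/

theorem gauss_cos (z : Sp d) {t : ℝ} (ht : 0 ≤ t) :
    ∫ N, Real.cos ⟪z, Real.sqrt (2*t) • N⟫ ∂(stdGaussian (Sp d)) = Real.exp (-(t * ‖z‖^2)) := by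
  have h := charFun_stdGaussian (Real.sqrt (2*t) • z)
  rw [charFun_apply] at h
  have hint : Integrable (fun x : Sp d => Complex.exp (⟪x, Real.sqrt (2*t) • z⟫ * Complex.I))
      (stdGaussian (Sp d)) := by
    refine Integrable.of_bound (by fun_prop) 1 (ae_of_all _ fun x => ?_)
    rw [Complex.norm_exp_ofReal_mul_I]
  have h2 := congrArg Complex.re h
  have h3 : (∫ x : Sp d, Complex.exp (⟪x, Real.sqrt (2*t) • z⟫ * Complex.I) ∂(stdGaussian (Sp d))).re
      = ∫ x : Sp d, (Complex.exp (⟪x, Real.sqrt (2*t) • z⟫ * Complex.I)).re ∂(stdGaussian (Sp d)) := by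
    have := Complex.reCLM.integral_comp_comm hint
    simpa using this.symm
  rw [h3] at h2
  simp_rw [Complex.exp_ofReal_mul_I_re] at h2
  have e : ∀ N : Sp d, ⟪z, Real.sqrt (2*t) • N⟫ = ⟪N, Real.sqrt (2*t) • z⟫ := by
    intro N
    rw [real_inner_smul_right, real_inner_smul_right, real_inner_comm]
  simp_rw [e, h2]
  have hn : ‖Real.sqrt (2*t) • z‖^2 = 2*t*‖z‖^2 := by
    rw [norm_smul, mul_pow, Real.norm_eq_abs, sq_abs, Real.sq_sqrt (by linarith)]
  have : (-((‖Real.sqrt (2*t) • z‖ : ℝ):ℂ)^2 / 2) = ((-(t * ‖z‖^2) : ℝ) : ℂ) := by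
    rw [← Complex.ofReal_pow, hn]; push_cast; ring
  rw [this, Complex.exp_ofReal_re]

theorem int_exp_Ioi {a : ℝ} (ha : 0 < a) : ∫ t in Ioi (0:ℝ), Real.exp (-(t * a)) = 1 / a := by
  have h := integral_exp_mul_Ioi (a := -a) (by linarith) 0
  have e : ∀ t : ℝ, -(t * a) = -a * t := fun t => by ring
  simp_rw [e, h]
  simp

theorem int_inv_Ioo {s : ℝ} (hs : 0 < s) : ∫ u in Ioo (0:ℝ) 1, 1 / (s + u) = Real.log (1 + 1/s) := by
  rw [← integral_Ioc_eq_integral_Ioo, ← intervalIntegral.integral_of_le (by norm_num)]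
  have h := intervalIntegral.integral_comp_add_left (a := 0) (b := 1) (fun x : ℝ => 1 / x) s
  rw [h, integral_one_div_of_pos (by linarith) (by linarith)]
  congr 1
  field_simp
  ring

theorem g0_super {L Y : Type*} [Fintype L] [MeasurableSpace Y] (ϱ : Measure Y)
    [SFinite ϱ] (F : L → Y → ℝ) (z : L → Y → Sp d) (hz : ∀ l, Measurable (z l))
    (hF : ∀ l, Integrable (F l) ϱ) (hFg : ∀ l, Integrable (fun y => F l y * g0 (z l y)) ϱ)
    (hz0 : ∀ l, ∀ᵐ y ∂ϱ, z l y ≠ 0)
    (h : ∀ ζ : Sp d, 0 ≤ ∑ l, ∫ y, F l y * Real.cos ⟪z l y, ζ⟫ ∂ϱ) :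
    0 ≤ ∑ l, ∫ y, F l y * g0 (z l y) ∂ϱ := by
  -- Gaussian kernels
  have hA : ∀ t : ℝ, 0 ≤ t → 0 ≤ ∑ l, ∫ y, F l y * Real.exp (-(t * ‖z l y‖^2)) ∂ϱ := by
    intro t ht
    have hs := sup_lemma ϱ (stdGaussian (Sp d)) F
      (fun l y N => Real.cos ⟪z l y, Real.sqrt (2*t) • N⟫) ?_ (ae_of_all _ fun N => h _)
    · simp_rw [gauss_cos _ ht] at hs
      exact hs
    · intro l
      have h1 : Integrable (fun p : Y × Sp d => F l p.1 * (fun _ : Sp d => (1:ℝ)) p.2)
          (ϱ.prod (stdGaussian (Sp d))) := (hF l).mul_prod (integrable_const _)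
      refine Integrable.mono h1 ?_ (ae_of_all _ fun p => ?_)
      · have m1 : AEStronglyMeasurable (fun p : Y × Sp d => F l p.1) (ϱ.prod (stdGaussian (Sp d))) :=
          (hF l).aestronglyMeasurable.comp_fst
        have m2 : Measurable (fun p : Y × Sp d => Real.cos ⟪z l p.1, Real.sqrt (2*t) • p.2⟫) := by
          have := hz l
          fun_prop
        exact m1.mul m2.aestronglyMeasurable
      · rw [norm_mul, norm_mul]
        apply mul_le_mul_of_nonneg_left _ (norm_nonneg _)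
        simpa using Real.abs_cos_le_one _
  -- resolvent kernels
  have hB : ∀ u : ℝ, 0 < u → 0 ≤ ∑ l, ∫ y, F l y * (1 / (‖z l y‖^2 + u)) ∂ϱ := by
    intro u hu
    have hs := sup_lemma ϱ (volume.restrict (Ioi (0:ℝ))) F
      (fun l y t => Real.exp (-(t * (‖z l y‖^2 + u)))) ?_ ?_
    · have e : ∀ l y, ∫ t in Ioi (0:ℝ), Real.exp (-(t * (‖z l y‖^2 + u))) = 1 / (‖z l y‖^2 + u) :=
        fun l y => int_exp_Ioi (by positivity)
      simp_rw [e] at hs
      exact hs
    · intro l
      have hex : Integrable (fun t : ℝ => Real.exp (-(t * u))) (volume.restrict (Ioi (0:ℝ))) := by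
        have e : (fun t : ℝ => Real.exp (-(t * u))) = fun t => Real.exp (-u * t) := by
          ext t; congr 1; ring
        rw [e]
        exact integrableOn_exp_mul_Ioi (by linarith) 0
      have h1 := (hF l).mul_prod hex
      refine Integrable.mono h1 ?_ ?_
      · have m1 : AEStronglyMeasurable (fun p : Y × ℝ => F l p.1)
          (ϱ.prod (volume.restrict (Ioi (0:ℝ)))) := (hF l).aestronglyMeasurable.comp_fst
        have m2 : Measurable (fun p : Y × ℝ => Real.exp (-(p.2 * (‖z l p.1‖^2 + u)))) := by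
          have := hz l
          fun_prop
        exact m1.mul m2.aestronglyMeasurable
      · have hpos : ∀ᵐ p ∂(ϱ.prod (volume.restrict (Ioi (0:ℝ)))), 0 < p.2 := by
          have : ∀ᵐ t ∂(volume.restrict (Ioi (0:ℝ))), 0 < t := ae_restrict_mem measurableSet_Ioi
          exact Measure.quasiMeasurePreserving_snd.ae this
        filter_upwards [hpos] with p hp
        rw [norm_mul, norm_mul]
        apply mul_le_mul_of_nonneg_left _ (norm_nonneg _)
        rw [Real.norm_eq_abs, Real.norm_eq_abs, abs_of_pos (Real.exp_pos _),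
          abs_of_pos (Real.exp_pos _)]
        apply Real.exp_le_exp.mpr
        have : 0 ≤ p.2 * ‖z l p.1‖^2 := by positivity
        linarith
    · filter_upwards [ae_restrict_mem measurableSet_Ioi] with t ht
      have ht' : 0 < t := ht
      have e : ∀ l, ∫ y, F l y * Real.exp (-(t * (‖z l y‖^2 + u))) ∂ϱ
          = Real.exp (-(t*u)) * ∫ y, F l y * Real.exp (-(t * ‖z l y‖^2)) ∂ϱ := by
        intro l
        rw [← integral_const_mul]
        congr 1
        ext y
        have : -(t * (‖z l y‖^2 + u)) = -(t*u) + -(t * ‖z l y‖^2) := by ring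
        rw [this, Real.exp_add]; ring
      simp_rw [e]
      rw [← Finset.mul_sum]
      exact mul_nonneg (Real.exp_pos _).le (hA t ht'.le)
  -- the logarithmic kernel
  have hs := sup_lemma ϱ (volume.restrict (Ioo (0:ℝ) 1)) F
      (fun l y u => 1 / (‖z l y‖^2 + u)) ?_ ?_
  · have e : ∀ l, ∫ y, F l y * (∫ u in Ioo (0:ℝ) 1, 1 / (‖z l y‖^2 + u)) ∂ϱ
        = 2 * ∫ y, F l y * g0 (z l y) ∂ϱ := by
      intro l
      rw [← integral_const_mul]
      apply integral_congr_ae
      filter_upwards [hz0 l] with y hy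
      have : 0 < ‖z l y‖ := norm_pos_iff.mpr hy
      rw [int_inv_Ioo (by positivity)]
      unfold g0
      ring
    simp_rw [e] at hs
    rw [← Finset.mul_sum] at hs
    linarith
  · intro l
    have m1 : AEStronglyMeasurable (fun p : Y × ℝ => F l p.1 * (1 / (‖z l p.1‖^2 + p.2)))
        (ϱ.prod (volume.restrict (Ioo (0:ℝ) 1))) := by
      have m1 : AEStronglyMeasurable (fun p : Y × ℝ => F l p.1)
        (ϱ.prod (volume.restrict (Ioo (0:ℝ) 1))) := (hF l).aestronglyMeasurable.comp_fst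
      have m2 : Measurable (fun p : Y × ℝ => 1 / (‖z l p.1‖^2 + p.2)) := by
        have := hz l
        fun_prop
      exact m1.mul m2.aestronglyMeasurable
    rw [integrable_prod_iff m1]
    constructor
    · filter_upwards [hz0 l] with y hy
      have hzp : 0 < ‖z l y‖ := norm_pos_iff.mpr hy
      refine Integrable.const_mul ?_ _
      refine Measure.integrableOn_of_bounded (M := 1 / ‖z l y‖^2) (by simp)
        (by fun_prop : Measurable fun u : ℝ => 1 / (‖z l y‖^2 + u)).aestronglyMeasurable ?_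
      filter_upwards [ae_restrict_mem measurableSet_Ioo] with u hu
      have hu0 : 0 < u := hu.1
      rw [Real.norm_eq_abs, abs_of_pos (by positivity)]
      apply one_div_le_one_div_of_le (by positivity)
      linarith
    · refine ((hFg l).norm.const_mul 2).congr ?_
      filter_upwards [hz0 l] with y hy
      have hzp : 0 < ‖z l y‖ := norm_pos_iff.mpr hy
      have e : ∫ u in Ioo (0:ℝ) 1, ‖F l y * (1 / (‖z l y‖^2 + u))‖
          = ∫ u in Ioo (0:ℝ) 1, ‖F l y‖ * (1 / (‖z l y‖^2 + u)) := by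
        apply setIntegral_congr_fun measurableSet_Ioo
        intro u hu
        have hu0 : 0 < u := hu.1
        simp only
        rw [norm_mul, Real.norm_eq_abs (1 / _), abs_of_pos (by positivity)]
      rw [e, integral_const_mul, int_inv_Ioo (by positivity), norm_mul,
        Real.norm_eq_abs (g0 _), abs_of_nonneg (g0_nonneg _)]
      unfold g0
      ring
  · filter_upwards [ae_restrict_mem measurableSet_Ioo] with u hu
    exact hB u hu.1

end

end Pool.Agent.H528R3.Gmc
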