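import Mathlib
import Pool.Agent.H528R3.GmcC

/-!
Mollified kernels.
-/

set_option autoImplicit false
set_option linter.unusedSectionVars false

namespace Pool.Agent.H528R3.Gmc

open MeasureTheory ProbabilityTheory Set Filter Topology
open scoped RealInnerProductSpace

noncomputable section

variable {d : ℕ} {θ : Sp d → ℝ}

/-- mollification, after the change of variables -/
def cm (θ g : Sp d → ℝ) (ε : ℝ) (x : Sp d) : ℝ := ∫ w, θ w * g (x - ε • w)

theorem moll_eq (θ g : Sp d → ℝ) {ε : ℝ} (hε : 0 < ε) (x : Sp d) :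
    moll θ g ε x = cm θ g ε x := by
  unfold moll cm
  have h := Measure.integral_comp_inv_smul_of_nonneg (volume : Measure (Sp d))
    (fun w => θ w * g (x - ε • w)) hε.le
  have e : ∀ z : Sp d, (ε^d)⁻¹ * θ (ε⁻¹ • z) * g (x - z)
      = (ε^d)⁻¹ * (θ (ε⁻¹ • z) * g (x - ε • (ε⁻¹ • z))) := by
    intro z
    rw [smul_smul, mul_inv_cancel₀ hε.ne', one_smul]; ring
  simp_rw [e]
  rw [integral_const_mul, h, finrank_euclideanSpace, Fintype.card_fin, smul_eq_mul, ← mul_assoc,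
    inv_mul_cancel₀ (by positivity), one_mul]

theorem Bump.integrable (hθ : Bump θ) : Integrable θ := by
  by_contra h
  have := hθ.mass
  rw [integral_undef h] at this
  norm_num at this

theorem Bump.bdd (hθ : Bump θ) : ∃ K : ℝ, 0 ≤ K ∧ ∀ x, θ x ≤ K := by
  obtain ⟨K, hK⟩ := hθ.decay 0
  refine ⟨max K 0, le_max_right _ _, fun x => ?_⟩
  have := hK x
  simp only [pow_zero, one_mul] at this
  exact this.trans (le_max_left _ _)

theorem Bump.meas (hθ : Bump θ) : Measurable θ := hθ.cont.measurable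

theorem q1_comp (hd : 1 ≤ d) {ε : ℝ} (hε : 0 < ε) (x : Sp d) :
    Integrable (fun w : Sp d => q1 (x - ε • w)) :=
  ((q1_integrable hd).comp_sub_left x).comp_smul hε.ne'

theorem q1_comp_int {ε : ℝ} (hε : 0 < ε) (x : Sp d) :
    ∫ w : Sp d, q1 (x - ε • w) = (ε^d)⁻¹ * ∫ w : Sp d, q1 w := by
  have h := Measure.integral_comp_smul_of_nonneg (volume : Measure (Sp d))
    (fun w => q1 (x - w)) ε (hR := hε.le)
  rw [h, finrank_euclideanSpace, Fintype.card_fin, smul_eq_mul, integral_sub_left_eq_self]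

theorem θq_integrable (hd : 1 ≤ d) (hθ : Bump θ) {ε : ℝ} (hε : 0 < ε) (x : Sp d) :
    Integrable (fun w => θ w * q (x - ε • w)) := by
  obtain ⟨K, hK0, hK⟩ := hθ.bdd
  have hdom : Integrable (fun w : Sp d => θ w + K * q1 (x - ε • w)) :=
    hθ.integrable.add ((q1_comp hd hε x).const_mul K)
  refine Integrable.mono' hdom ?_ (ae_of_all _ fun w => ?_)
  · have := hθ.meas
    have := q_measurable (d := d)
    exact (by fun_prop : Measurable fun w => θ w * q (x - ε • w)).aestronglyMeasurable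
  · have h1 := hθ.nonneg w
    have h2 := q_nonneg (x - ε • w)
    have h3 := q_le (x - ε • w)
    have h4 := q1_nonneg (x - ε • w)
    rw [Real.norm_eq_abs, abs_of_nonneg (mul_nonneg h1 h2)]
    calc θ w * q (x - ε • w) ≤ θ w * (1 + q1 (x - ε • w)) := mul_le_mul_of_nonneg_left h3 h1
      _ = θ w + θ w * q1 (x - ε • w) := by ring
      _ ≤ θ w + K * q1 (x - ε • w) := by
        have := mul_le_mul_of_nonneg_right (hK w) h4
        linarith

theorem θg_integrable (hd : 1 ≤ d) (hθ : Bump θ) {ε : ℝ} (hε : 0 < ε) (x : Sp d) :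
    Integrable (fun w => θ w * g0 (x - ε • w)) := by
  refine Integrable.mono' ((θq_integrable hd hθ hε x).const_mul 2) ?_ (ae_of_all _ fun w => ?_)
  · have := hθ.meas
    have := g0_measurable (d := d)
    exact (by fun_prop : Measurable fun w => θ w * g0 (x - ε • w)).aestronglyMeasurable
  · have h1 := hθ.nonneg w
    rw [Real.norm_eq_abs, abs_of_nonneg (mul_nonneg h1 (g0_nonneg _))]
    have := mul_le_mul_of_nonneg_left (g0_le_q (x - ε • w)) h1
    linarith

theorem cm_g0_nonneg (hθ : Bump θ) (ε : ℝ) (x : Sp d) : 0 ≤ cm θ g0 ε x :=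
  integral_nonneg fun w => mul_nonneg (hθ.nonneg w) (g0_nonneg _)

theorem cm_q_bound (hd : 1 ≤ d) (hθ : Bump θ) {ε : ℝ} (hε : 0 < ε) :
    ∃ B : ℝ, ∀ x : Sp d, cm θ q ε x ≤ B := by
  obtain ⟨K, hK0, hK⟩ := hθ.bdd
  refine ⟨1 + K * ((ε^d)⁻¹ * ∫ w : Sp d, q1 w), fun x => ?_⟩
  rw [← q1_comp_int hε x, ← integral_const_mul, ← hθ.mass, ← integral_add hθ.integrable
    ((q1_comp hd hε x).const_mul K)]
  refine integral_mono (θq_integrable hd hθ hε x)
    (hθ.integrable.add ((q1_comp hd hε x).const_mul K)) fun w => ?_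
  have h1 := hθ.nonneg w
  have h3 := q_le (x - ε • w)
  have h4 := q1_nonneg (x - ε • w)
  show θ w * q (x - ε • w) ≤ θ w + K * q1 (x - ε • w)
  calc θ w * q (x - ε • w) ≤ θ w * (1 + q1 (x - ε • w)) := mul_le_mul_of_nonneg_left h3 h1
    _ = θ w + θ w * q1 (x - ε • w) := by ring
    _ ≤ θ w + K * q1 (x - ε • w) := by
      have := mul_le_mul_of_nonneg_right (hK w) h4
      linarith

theorem cm_g0_le_q (hd : 1 ≤ d) (hθ : Bump θ) {ε : ℝ} (hε : 0 < ε) (x : Sp d) :
    cm θ g0 ε x ≤ 2 * cm θ q ε x := by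
  unfold cm
  rw [← integral_const_mul]
  refine integral_mono (θg_integrable hd hθ hε x) ((θq_integrable hd hθ hε x).const_mul 2)
    fun w => ?_
  have := mul_le_mul_of_nonneg_left (g0_le_q (x - ε • w)) (hθ.nonneg w)
  show θ w * g0 (x - ε • w) ≤ 2 * (θ w * q (x - ε • w))
  linarith

theorem cm_g0_bound (hd : 1 ≤ d) (hθ : Bump θ) {ε : ℝ} (hε : 0 < ε) :
    ∃ B : ℝ, ∀ x : Sp d, cm θ g0 ε x ≤ B := by
  obtain ⟨B, hB⟩ := cm_q_bound hd hθ hε
  exact ⟨2 * B, fun x => (cm_g0_le_q hd hθ hε x).trans (by linarith [hB x])⟩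

theorem cm_measurable (hθ : Bump θ) {f : Sp d → ℝ} (hf : Measurable f) (ε : ℝ) :
    Measurable (cm θ f ε) := by
  unfold cm
  have hm := hθ.meas
  have : StronglyMeasurable (Function.uncurry fun (x w : Sp d) => θ w * f (x - ε • w)) :=
    (by unfold Function.uncurry; fun_prop : Measurable _).stronglyMeasurable
  exact this.integral_prod_right.measurable

/-- Jensen -/
theorem jensen (hd : 1 ≤ d) (hθ : Bump θ) {ε : ℝ} (hε : 0 < ε) {μ : ℝ} (h0 : 0 ≤ μ)
    (h1 : μ ≤ 1/2) (x : Sp d) :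
    Real.exp (μ * cm θ g0 ε x) ≤ 1 + 2 * μ * cm θ q ε x := by
  set c := μ * cm θ g0 ε x with hc
  have hpt : ∀ w, Real.exp c * (θ w * (1 - c) + μ * (θ w * g0 (x - ε • w)))
      ≤ θ w + 2 * μ * (θ w * q (x - ε • w)) := by
    intro w
    have hw := hθ.nonneg w
    have ha := exp_g0_le h0 h1 (x - ε • w)
    have hb : Real.exp c * (1 + (μ * g0 (x - ε • w) - c)) ≤ Real.exp (μ * g0 (x - ε • w)) := by
      have h := Real.add_one_le_exp (μ * g0 (x - ε • w) - c)
      have e : Real.exp (μ * g0 (x - ε • w)) = Real.exp c * Real.exp (μ * g0 (x - ε • w) - c) := by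
        rw [← Real.exp_add]; congr 1; ring
      rw [e]
      exact mul_le_mul_of_nonneg_left (by linarith) (Real.exp_pos _).le
    have hc := mul_le_mul_of_nonneg_left (hb.trans ha) hw
    calc _ = θ w * (Real.exp c * (1 + (μ * g0 (x - ε • w) - c))) := by ring
      _ ≤ θ w * (1 + 2 * μ * q (x - ε • w)) := hc
      _ = _ := by ring
  have i1 : Integrable (fun w => Real.exp c * (θ w * (1 - c) + μ * (θ w * g0 (x - ε • w)))) :=
    ((hθ.integrable.mul_const _).add ((θg_integrable hd hθ hε x).const_mul _)).const_mul _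
  have i2 : Integrable (fun w => θ w + 2 * μ * (θ w * q (x - ε • w))) :=
    hθ.integrable.add ((θq_integrable hd hθ hε x).const_mul _)
  have h := integral_mono i1 i2 hpt
  rw [integral_const_mul, integral_add (hθ.integrable.mul_const _)
    ((θg_integrable hd hθ hε x).const_mul _), integral_mul_const, hθ.mass, integral_const_mul,
    integral_add hθ.integrable ((θq_integrable hd hθ hε x).const_mul _), integral_const_mul,
    hθ.mass] at h
  have e : (1:ℝ) * (1 - c) + μ * ∫ w, θ w * g0 (x - ε • w) = 1 := by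
    have : μ * ∫ w, θ w * g0 (x - ε • w) = c := rfl
    rw [this]; ring
  rw [e, mul_one] at h
  exact h

/-! ### Fourier transform of the bump -/

/-- cosine transform -/
def hat (θ : Sp d → ℝ) (ζ : Sp d) : ℝ := ∫ w, θ w * Real.cos ⟪w, ζ⟫

theorem θcos_integrable (hθ : Bump θ) {f : Sp d → ℝ} (hf : Measurable f) (hb : ∀ w, |f w| ≤ 1) :
    Integrable (fun w => θ w * f w) := by
  refine Integrable.mono hθ.integrable (hθ.meas.mul hf).aestronglyMeasurable
    (ae_of_all _ fun w => ?_)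
  rw [norm_mul]
  calc ‖θ w‖ * ‖f w‖ ≤ ‖θ w‖ * 1 := mul_le_mul_of_nonneg_left (hb w) (norm_nonneg _)
    _ = _ := mul_one _

theorem hat_le_one (hθ : Bump θ) (ζ : Sp d) : hat θ ζ ≤ 1 := by
  unfold hat
  rw [← hθ.mass]
  refine integral_mono (θcos_integrable hθ (by fun_prop) fun w => Real.abs_cos_le_one _)
    hθ.integrable fun w => ?_
  have := mul_le_mul_of_nonneg_left (Real.cos_le_one ⟪w, ζ⟫) (hθ.nonneg w)
  show θ w * Real.cos ⟪w, ζ⟫ ≤ θ w
  linarith

theorem hat_sin (hθ : Bump θ) (ζ : Sp d) : ∫ w, θ w * Real.sin ⟪w, ζ⟫ = 0 := by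
  have h := integral_neg_eq_self (fun w => θ w * Real.sin ⟪w, ζ⟫) (volume : Measure (Sp d))
  have e : ∀ w, θ (-w) * Real.sin ⟪-w, ζ⟫ = - (θ w * Real.sin ⟪w, ζ⟫) := by
    intro w
    rw [hθ.posdef.even, inner_neg_left, Real.sin_neg]; ring
  simp_rw [e] at h
  rw [integral_neg] at h
  linarith

theorem hat_tendsto (hθ : Bump θ) (ζ : Sp d) {ε : ℕ → ℝ} (hε : Tendsto ε atTop (𝓝 0)) :
    Tendsto (fun k => hat θ (ε k • ζ)) atTop (𝓝 1) := by
  unfold hat
  rw [← hθ.mass]
  refine tendsto_integral_of_dominated_convergence θ (fun k => ?_) hθ.integrable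
    (fun k => ae_of_all _ fun w => ?_) (ae_of_all _ fun w => ?_)
  · exact (θcos_integrable hθ (f := fun w => Real.cos ⟪w, ε k • ζ⟫) (by fun_prop)
      fun w => Real.abs_cos_le_one _).aestronglyMeasurable
  · rw [norm_mul, Real.norm_eq_abs, abs_of_nonneg (hθ.nonneg w)]
    calc θ w * ‖Real.cos ⟪w, ε k • ζ⟫‖ ≤ θ w * 1 :=
          mul_le_mul_of_nonneg_left (Real.abs_cos_le_one _) (hθ.nonneg w)
      _ = _ := mul_one _
  · have h1 : Tendsto (fun k => ε k * ⟪w, ζ⟫) atTop (𝓝 (0 * ⟪w, ζ⟫)) := hε.mul_const _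
    have h2 : Tendsto (fun k => θ w * Real.cos (ε k * ⟪w, ζ⟫)) atTop
        (𝓝 (θ w * Real.cos (0 * ⟪w, ζ⟫))) :=
      ((Real.continuous_cos.tendsto _).comp h1).const_mul _
    simp only [real_inner_smul_right]
    simpa using h2

theorem cm_cos (hθ : Bump θ) (ζ : Sp d) (ε : ℝ) (x : Sp d) :
    ∫ w, θ w * Real.cos ⟪x - ε • w, ζ⟫ = hat θ (ε • ζ) * Real.cos ⟪x, ζ⟫ := by
  have e : ∀ w, θ w * Real.cos ⟪x - ε • w, ζ⟫
      = Real.cos ⟪x, ζ⟫ * (θ w * Real.cos ⟪w, ε • ζ⟫)
        + Real.sin ⟪x, ζ⟫ * (θ w * Real.sin ⟪w, ε • ζ⟫) := by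
    intro w
    have : ⟪x - ε • w, ζ⟫ = ⟪x, ζ⟫ - ⟪w, ε • ζ⟫ := by
      rw [inner_sub_left, real_inner_smul_left, real_inner_smul_right]
    rw [this, Real.cos_sub]; ring
  simp_rw [e]
  rw [integral_add, integral_const_mul, integral_const_mul, hat_sin hθ]
  · unfold hat; ring
  · exact (θcos_integrable hθ (f := fun w => Real.cos ⟪w, ε • ζ⟫) (by fun_prop)
      fun w => Real.abs_cos_le_one _).const_mul _
  · exact (θcos_integrable hθ (f := fun w => Real.sin ⟪w, ε • ζ⟫) (by fun_prop)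
      fun w => Real.abs_sin_le_one _).const_mul _

end

end Pool.Agent.H528R3.Gmc
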