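import Mathlib
import Pool.Agent.H528R3.GmcD

/-!
Positive definiteness.
-/

set_option autoImplicit false
set_option linter.unusedSectionVars false

namespace Pool.Agent.H528R3.Gmc

open MeasureTheory ProbabilityTheory Set Filter Topology
open scoped RealInnerProductSpace

noncomputable section

variable {d : ℕ} {θ : Sp d → ℝ}

/-! ### the cosine transform of the bump is nonnegative -/

/-- tent function -/
def tent (x : Sp d) : ℝ := max (1 - ‖x‖) 0

theorem tent_continuous : Continuous (tent : Sp d → ℝ) := by unfold tent; fun_prop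

theorem tent_nonneg (x : Sp d) : 0 ≤ tent x := le_max_right _ _

theorem tent_le_one (x : Sp d) : tent x ≤ 1 := by
  unfold tent
  exact max_le (by linarith [norm_nonneg x]) (by norm_num)

theorem tent_support : HasCompactSupport (tent : Sp d → ℝ) := by
  apply HasCompactSupport.intro (isCompact_closedBall (0 : Sp d) 1)
  intro x hx
  have : 1 < ‖x‖ := by simpa using hx
  unfold tent
  exact max_eq_right (by linarith)

theorem tent_integrable : Integrable (tent : Sp d → ℝ) :=
  tent_continuous.integrable_of_hasCompactSupport tent_support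

theorem tent_sq_pos : 0 < ∫ x : Sp d, tent x * tent x := by
  have hc : Continuous fun x : Sp d => tent x * tent x := tent_continuous.mul tent_continuous
  apply hc.integral_pos_of_hasCompactSupport_nonneg_nonzero (x := 0)
  · exact tent_support.mul_left
  · exact fun x => mul_nonneg (tent_nonneg x) (tent_nonneg x)
  · simp [tent]

theorem pos_prod (hθ : Bump θ) {ψ : Sp d → ℝ} (hψ : Continuous ψ) (hs : HasCompactSupport ψ) :
    Integrable (fun p : Sp d × Sp d => θ (p.1 - p.2) * ψ p.1 * ψ p.2) (volume.prod volume) ∧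
    0 ≤ ∫ p, θ (p.1 - p.2) * ψ p.1 * ψ p.2 ∂((volume : Measure (Sp d)).prod volume) := by
  obtain ⟨K, hK0, hK⟩ := hθ.bdd
  have hψi : Integrable ψ := hψ.integrable_of_hasCompactSupport hs
  have hI : Integrable (fun p : Sp d × Sp d => θ (p.1 - p.2) * ψ p.1 * ψ p.2)
      (volume.prod volume) := by
    refine Integrable.mono ((hψi.mul_prod hψi).const_mul K) ?_ (ae_of_all _ fun p => ?_)
    · have := hθ.cont
      exact (by fun_prop : Continuous fun p : Sp d × Sp d => θ (p.1 - p.2) * ψ p.1 * ψ p.2).aestronglyMeasurable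
    · rw [mul_assoc, norm_mul, norm_mul K]
      apply mul_le_mul_of_nonneg_right _ (norm_nonneg _)
      rw [Real.norm_eq_abs, Real.norm_eq_abs, abs_of_nonneg (hθ.nonneg _), abs_of_nonneg hK0]
      exact hK _
  refine ⟨hI, ?_⟩
  rw [integral_prod _ hI]
  exact hθ.posdef.pos ψ hψ hs

theorem hat_nonneg (hθ : Bump θ) (ζ : Sp d) : 0 ≤ hat θ ζ := by
  -- correlation of the tent
  set T : Sp d → ℝ := fun v => ∫ u, tent u * tent (u - v) with hT
  have hTint : ∀ v : Sp d, Integrable (fun u => tent u * tent (u - v)) := by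
    intro v
    refine Integrable.mono tent_integrable ?_ (ae_of_all _ fun u => ?_)
    · have := tent_continuous (d := d)
      exact (by fun_prop : Continuous fun u : Sp d => tent u * tent (u - v)).aestronglyMeasurable
    · rw [norm_mul]
      calc ‖tent u‖ * ‖tent (u - v)‖ ≤ ‖tent u‖ * 1 := by
            apply mul_le_mul_of_nonneg_left _ (norm_nonneg _)
            rw [Real.norm_eq_abs, abs_of_nonneg (tent_nonneg _)]
            exact tent_le_one _
        _ = _ := mul_one _
  have hT0 : ∀ v, 0 ≤ T v := fun v => integral_nonneg fun u =>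
    mul_nonneg (tent_nonneg _) (tent_nonneg _)
  have hTle : ∀ v, T v ≤ ∫ u : Sp d, tent u := by
    intro v
    refine integral_mono (hTint v) tent_integrable fun u => ?_
    have := mul_le_mul_of_nonneg_left (tent_le_one (u - v)) (tent_nonneg u)
    show tent u * tent (u - v) ≤ tent u
    linarith
  have hTm : Measurable T := by
    have : StronglyMeasurable (Function.uncurry fun (v u : Sp d) => tent u * tent (u - v)) := by
      have := tent_continuous (d := d)
      exact (by unfold Function.uncurry; fun_prop : Continuous _).stronglyMeasurable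
    exact this.integral_prod_right.measurable
  -- scaled inequality
  have hscaled : ∀ R : ℝ, 0 < R → 0 ≤ ∫ z, θ z * Real.cos ⟪z, ζ⟫ * T (R⁻¹ • z) := by
    intro R hR
    have hcR : Continuous fun x : Sp d => tent (R⁻¹ • x) := by
      have := tent_continuous (d := d)
      fun_prop
    have hsR : HasCompactSupport fun x : Sp d => tent (R⁻¹ • x) :=
      tent_support.comp_smul (inv_ne_zero hR.ne')
    have hiR : Integrable fun x : Sp d => tent (R⁻¹ • x) := hcR.integrable_of_hasCompactSupport hsR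
    have p1 := pos_prod hθ (ψ := fun x => Real.cos ⟪x, ζ⟫ * tent (R⁻¹ • x)) (by fun_prop)
      (hsR.mul_left)
    have p2 := pos_prod hθ (ψ := fun x => Real.sin ⟪x, ζ⟫ * tent (R⁻¹ • x)) (by fun_prop)
      (hsR.mul_left)
    have p3 := add_nonneg p1.2 p2.2
    rw [← integral_add p1.1 p2.1] at p3
    have e1 : ∀ p : Sp d × Sp d,
        θ (p.1 - p.2) * (Real.cos ⟪p.1, ζ⟫ * tent (R⁻¹ • p.1)) * (Real.cos ⟪p.2, ζ⟫ * tent (R⁻¹ • p.2))
        + θ (p.1 - p.2) * (Real.sin ⟪p.1, ζ⟫ * tent (R⁻¹ • p.1)) * (Real.sin ⟪p.2, ζ⟫ * tent (R⁻¹ • p.2))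
        = θ (p.1 - p.2) * Real.cos ⟪p.1 - p.2, ζ⟫ * (tent (R⁻¹ • p.1) * tent (R⁻¹ • p.2)) := by
      intro p
      rw [inner_sub_left, Real.cos_sub]; ring
    have hI := p1.1.add p2.1
    have hI' : Integrable (fun p : Sp d × Sp d => θ (p.1 - p.2) * Real.cos ⟪p.1 - p.2, ζ⟫ *
        (tent (R⁻¹ • p.1) * tent (R⁻¹ • p.2))) (volume.prod volume) := by
      refine hI.congr (ae_of_all _ fun p => ?_)
      exact e1 p
    simp_rw [e1] at p3
    rw [integral_prod _ hI'] at p3
    have e2 : ∀ x : Sp d, ∫ y, θ (x - y) * Real.cos ⟪x - y, ζ⟫ * (tent (R⁻¹ • x) * tent (R⁻¹ • y))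
        = ∫ z, θ z * Real.cos ⟪z, ζ⟫ * (tent (R⁻¹ • x) * tent (R⁻¹ • (x - z))) := by
      intro x
      have := integral_sub_left_eq_self (fun y => θ (x - y) * Real.cos ⟪x - y, ζ⟫ *
        (tent (R⁻¹ • x) * tent (R⁻¹ • y))) (volume : Measure (Sp d)) x
      rw [← this]
      congr 1
      ext z
      rw [sub_sub_cancel]
    simp only at p3
    simp_rw [e2] at p3
    rw [integral_integral_swap] at p3
    · have e3 : ∀ z : Sp d, ∫ x, θ z * Real.cos ⟪z, ζ⟫ * (tent (R⁻¹ • x) * tent (R⁻¹ • (x - z)))
          = R^d * (θ z * Real.cos ⟪z, ζ⟫ * T (R⁻¹ • z)) := by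
        intro z
        rw [integral_const_mul]
        have := Measure.integral_comp_inv_smul_of_nonneg (volume : Measure (Sp d))
          (fun u => tent u * tent (u - R⁻¹ • z)) hR.le
        simp only [smul_sub]
        rw [this, finrank_euclideanSpace, Fintype.card_fin, smul_eq_mul]
        ring
      simp_rw [e3] at p3
      rw [integral_const_mul] at p3
      exact nonneg_of_mul_nonneg_right p3 (by positivity)
    · have hdom : Integrable (fun p : Sp d × Sp d => tent (R⁻¹ • p.1) * θ p.2)
          (volume.prod volume) := hiR.mul_prod hθ.integrable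
      refine Integrable.mono hdom ?_ (ae_of_all _ fun p => ?_)
      · have := hθ.cont
        have := tent_continuous (d := d)
        exact (by unfold Function.uncurry; fun_prop : Continuous _).aestronglyMeasurable
      · simp only [Function.uncurry]
        rw [norm_mul, norm_mul, norm_mul, norm_mul]
        have a1 : ‖Real.cos ⟪p.2, ζ⟫‖ ≤ 1 := Real.abs_cos_le_one _
        have a2 : ‖tent (R⁻¹ • (p.1 - p.2))‖ ≤ 1 := by
          rw [Real.norm_eq_abs, abs_of_nonneg (tent_nonneg _)]
          exact tent_le_one _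
        calc ‖θ p.2‖ * ‖Real.cos ⟪p.2, ζ⟫‖ * (‖tent (R⁻¹ • p.1)‖ * ‖tent (R⁻¹ • (p.1 - p.2))‖)
            ≤ ‖θ p.2‖ * 1 * (‖tent (R⁻¹ • p.1)‖ * 1) := by gcongr
          _ = _ := by ring
  -- limit
  have hlim : Tendsto (fun n : ℕ => ∫ z, θ z * Real.cos ⟪z, ζ⟫ * T (((n:ℝ)+1)⁻¹ • z)) atTop
      (𝓝 (∫ z, θ z * Real.cos ⟪z, ζ⟫ * T 0)) := by
    refine tendsto_integral_of_dominated_convergence (fun z => θ z * ∫ u : Sp d, tent u)
      (fun n => ?_) (hθ.integrable.mul_const _) (fun n => ae_of_all _ fun z => ?_)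
      (ae_of_all _ fun z => ?_)
    · have := hθ.meas
      exact (by fun_prop : Measurable fun z => θ z * Real.cos ⟪z, ζ⟫ * T (((n:ℝ)+1)⁻¹ • z)).aestronglyMeasurable
    · rw [norm_mul, norm_mul, Real.norm_eq_abs (θ z), abs_of_nonneg (hθ.nonneg z),
        Real.norm_eq_abs (T _), abs_of_nonneg (hT0 _)]
      have a1 : ‖Real.cos ⟪z, ζ⟫‖ ≤ 1 := Real.abs_cos_le_one _
      have a0 := hθ.nonneg z
      have a2 := hT0 (((n:ℝ)+1)⁻¹ • z)
      calc θ z * ‖Real.cos ⟪z, ζ⟫‖ * T (((n:ℝ)+1)⁻¹ • z) ≤ θ z * 1 * (∫ u : Sp d, tent u) := by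
            gcongr
            exact hTle _
        _ = _ := by ring
    · apply Tendsto.const_mul
      have hs : Tendsto (fun n : ℕ => ((n:ℝ)+1)⁻¹ • z) atTop (𝓝 ((0:ℝ) • z)) := by
        apply Tendsto.smul_const
        exact tendsto_inv_atTop_zero.comp (tendsto_natCast_atTop_atTop.atTop_add tendsto_const_nhds)
      rw [zero_smul] at hs
      refine tendsto_integral_of_dominated_convergence tent (fun n => ?_) tent_integrable
        (fun n => ae_of_all _ fun u => ?_) (ae_of_all _ fun u => ?_)
      · exact (hTint _).aestronglyMeasurable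
      · rw [Real.norm_eq_abs, abs_of_nonneg (mul_nonneg (tent_nonneg _) (tent_nonneg _))]
        have := mul_le_mul_of_nonneg_left (tent_le_one (u - ((n:ℝ)+1)⁻¹ • z)) (tent_nonneg u)
        linarith
      · apply Tendsto.const_mul
        have h2 : Tendsto (fun n : ℕ => u - ((n:ℝ)+1)⁻¹ • z) atTop (𝓝 (u - 0)) :=
          tendsto_const_nhds.sub hs
        exact (tent_continuous.tendsto _).comp h2
  have h0 : 0 ≤ ∫ z, θ z * Real.cos ⟪z, ζ⟫ * T 0 :=
    ge_of_tendsto' hlim fun n => hscaled _ (by positivity)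
  rw [integral_mul_const] at h0
  have hT00 : 0 < T 0 := by
    have := tent_sq_pos (d := d)
    simpa [hT] using this
  exact nonneg_of_mul_nonneg_left h0 hT00

end

end Pool.Agent.H528R3.Gmc
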