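import Mathlib
import Pool.Agent.H528R3.GmcE

/-!
Positive semidefinite matrices from the mollified kernel; the admissible kernel; the double
integral bound.
-/

set_option autoImplicit false
set_option linter.unusedSectionVars false

namespace Pool.Agent.H528R3.Gmc

open MeasureTheory ProbabilityTheory Set Filter Topology
open scoped RealInnerProductSpace

noncomputable section

variable {d : ℕ} {θ : Sp d → ℝ}

theorem cos_quad {ι : Type*} [Fintype ι] (c t : ι → ℝ) :
    ∑ l : ι × ι, c l.1 * c l.2 * Real.cos (t l.1 - t l.2)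
      = (∑ i, c i * Real.cos (t i))^2 + (∑ i, c i * Real.sin (t i))^2 := by
  rw [Fintype.sum_prod_type, pow_two, pow_two, Finset.sum_mul_sum, Finset.sum_mul_sum,
    ← Finset.sum_add_distrib]
  refine Finset.sum_congr rfl fun i _ => ?_
  rw [← Finset.sum_add_distrib]
  refine Finset.sum_congr rfl fun k _ => ?_
  rw [Real.cos_sub]; ring

theorem psd (hd : 1 ≤ d) (hθ : Bump θ) {ε : ℝ} (hε : 0 < ε) {μ : ℝ} (hμ : 0 ≤ μ)
    {ι : Type*} [Fintype ι] (x : ι → Sp d) :
    (Matrix.of fun i k => μ * cm θ g0 ε (x i - x k)).PosSemidef := by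
  have : Nonempty (Fin d) := ⟨⟨0, hd⟩⟩
  have hnt : Nontrivial (Sp d) := inferInstance
  refine Matrix.PosSemidef.of_dotProduct_mulVec_nonneg ?_ fun c => ?_
  · ext i k
    simp only [Matrix.conjTranspose_apply, Matrix.of_apply, star_trivial]
    congr 1
    unfold cm
    rw [← integral_neg_eq_self]
    congr 1
    ext w
    rw [hθ.posdef.even, ← g0_even]
    congr 2
    rw [smul_neg]; abel
  · have e : star c ⬝ᵥ (Matrix.of fun i k => μ * cm θ g0 ε (x i - x k)).mulVec c
        = μ * ∑ l : ι × ι, ∫ w, c l.1 * c l.2 * θ w * g0 (x l.1 - x l.2 - ε • w) := by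
      simp only [dotProduct, Matrix.mulVec, Matrix.of_apply, Pi.star_apply, star_trivial]
      rw [Fintype.sum_prod_type, Finset.mul_sum]
      refine Finset.sum_congr rfl fun i _ => ?_
      rw [Finset.mul_sum, Finset.mul_sum]
      refine Finset.sum_congr rfl fun k _ => ?_
      have : ∫ w, c i * c k * θ w * g0 (x i - x k - ε • w)
          = c i * c k * cm θ g0 ε (x i - x k) := by
        unfold cm
        rw [← integral_const_mul]
        congr 1
        ext w; ring
      rw [this]; ring
    rw [e]
    apply mul_nonneg hμ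
    refine g0_super volume (fun (l : ι × ι) w => c l.1 * c l.2 * θ w)
      (fun l w => x l.1 - x l.2 - ε • w) (fun l => by fun_prop)
      (fun l => hθ.integrable.const_mul _) (fun l => ?_) (fun l => ?_) (fun ζ => ?_)
    · refine ((θg_integrable hd hθ hε (x l.1 - x l.2)).const_mul (c l.1 * c l.2)).congr
        (ae_of_all _ fun w => ?_)
      show c l.1 * c l.2 * (θ w * g0 (x l.1 - x l.2 - ε • w)) = _
      ring
    · have hs : ∀ᵐ w : Sp d, w ∉ ({ε⁻¹ • (x l.1 - x l.2)} : Set (Sp d)) := by
        rw [← measure_eq_zero_iff_ae_notMem]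
        exact measure_singleton _
      filter_upwards [hs] with w hw h0
      apply hw
      rw [mem_singleton_iff]
      have : x l.1 - x l.2 = ε • w := sub_eq_zero.mp h0
      rw [this, smul_smul, inv_mul_cancel₀ hε.ne', one_smul]
    · have e1 : ∀ l : ι × ι, ∫ w, c l.1 * c l.2 * θ w * Real.cos ⟪x l.1 - x l.2 - ε • w, ζ⟫
          = hat θ (ε • ζ) * (c l.1 * c l.2 * Real.cos (⟪x l.1, ζ⟫ - ⟪x l.2, ζ⟫)) := by
        intro l
        have : ∫ w, c l.1 * c l.2 * θ w * Real.cos ⟪x l.1 - x l.2 - ε • w, ζ⟫
            = c l.1 * c l.2 * ∫ w, θ w * Real.cos ⟪x l.1 - x l.2 - ε • w, ζ⟫ := by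
          rw [← integral_const_mul]
          congr 1
          ext w; ring
        rw [this, cm_cos hθ, inner_sub_left]; ring
      simp_rw [e1]
      rw [← Finset.mul_sum, cos_quad c fun i => ⟪x i, ζ⟫]
      exact mul_nonneg (hat_nonneg hθ _) (by positivity)

/-! ### the admissible kernel -/

/-- `g = g0 + A cos x_1` -/
def gA (A : ℝ) (i0 : Fin d) (x : Sp d) : ℝ := g0 x + A * Real.cos (x i0)

theorem coord_inner (x : Sp d) (i0 : Fin d) : ⟪x, EuclideanSpace.single i0 (1:ℝ)⟫ = x i0 := by
  simp [EuclideanSpace.inner_single_right]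

theorem cm_gA (hd : 1 ≤ d) (hθ : Bump θ) {ε : ℝ} (hε : 0 < ε) (A : ℝ) (i0 : Fin d) (x : Sp d) :
    cm θ (gA A i0) ε x
      = cm θ g0 ε x + A * hat θ (ε • EuclideanSpace.single i0 (1:ℝ)) * Real.cos (x i0) := by
  have h := cm_cos hθ (EuclideanSpace.single i0 (1:ℝ)) ε x
  simp only [coord_inner] at h
  have e : cm θ (gA A i0) ε x = ∫ w, (θ w * g0 (x - ε • w) + A * (θ w * Real.cos ((x - ε • w) i0))) := by
    unfold cm gA
    congr 1
    ext w; ring
  rw [e, integral_add (θg_integrable hd hθ hε x), integral_const_mul, h]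
  · unfold cm; ring
  · exact (θcos_integrable hθ (f := fun w => Real.cos ((x - ε • w) i0)) (by fun_prop)
      fun w => Real.abs_cos_le_one _).const_mul _

theorem gA_admissible (hd : 1 ≤ d) {A : ℝ} (hA : 0 ≤ A) (i0 : Fin d) :
    Admissible (gA A i0 : Sp d → ℝ) := by
  have : Nonempty (Fin d) := ⟨⟨0, hd⟩⟩
  have hnt : Nontrivial (Sp d) := inferInstance
  refine ⟨⟨fun x => ?_, fun ψ hψ hs => ?_⟩, fun x => h0 x + A * Real.cos (x i0), ?_, ?_, ?_⟩
  · unfold gA
    rw [g0_even]; simp
  · -- positive definiteness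
    have hψi : Integrable ψ := hψ.integrable_of_hasCompactSupport hs
    obtain ⟨K, hK⟩ := hs.exists_bound_of_continuous hψ
    have hψψ := hψi.mul_prod hψi
    have hmg := g0_measurable (d := d)
    have hψm := hψ.measurable
    -- integrability with the singular kernel
    have hq : Integrable (fun p : Sp d × Sp d => ψ p.1 * ψ p.2 * g0 (p.1 - p.2))
        (volume.prod volume) := by
      have h1 := Integrable.convolution_integrand (ContinuousLinearMap.mul ℝ ℝ) hψi.norm
        (q1_integrable hd)
      have h2 : Integrable (fun p : Sp d × Sp d => 2 * ‖ψ p.1 * ψ p.2‖ +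
          2 * K * (‖ψ p.2‖ * q1 (p.1 - p.2))) (volume.prod volume) :=
        (hψψ.norm.const_mul 2).add (h1.const_mul (2 * K))
      refine Integrable.mono' h2 ?_ (ae_of_all _ fun p => ?_)
      · exact (by fun_prop : Measurable fun p : Sp d × Sp d => ψ p.1 * ψ p.2 * g0 (p.1 - p.2)).aestronglyMeasurable
      · rw [norm_mul, Real.norm_eq_abs (g0 _), abs_of_nonneg (g0_nonneg _)]
        have a1 := g0_le_q (p.1 - p.2)
        have a2 := q_le (p.1 - p.2)
        have a3 := q1_nonneg (p.1 - p.2)
        have a4 : g0 (p.1 - p.2) ≤ 2 + 2 * q1 (p.1 - p.2) := by linarith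
        have a5 : ‖ψ p.1 * ψ p.2‖ ≤ K * ‖ψ p.2‖ := by
          rw [norm_mul]
          exact mul_le_mul_of_nonneg_right (hK _) (norm_nonneg _)
        calc ‖ψ p.1 * ψ p.2‖ * g0 (p.1 - p.2)
            ≤ ‖ψ p.1 * ψ p.2‖ * (2 + 2 * q1 (p.1 - p.2)) :=
              mul_le_mul_of_nonneg_left a4 (norm_nonneg _)
          _ = 2 * ‖ψ p.1 * ψ p.2‖ + 2 * (‖ψ p.1 * ψ p.2‖ * q1 (p.1 - p.2)) := by ring
          _ ≤ 2 * ‖ψ p.1 * ψ p.2‖ + 2 * (K * ‖ψ p.2‖ * q1 (p.1 - p.2)) := by
              have := mul_le_mul_of_nonneg_right a5 a3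
              linarith
          _ = _ := by ring
    have hcos : ∀ ζ : Sp d, Integrable (fun p : Sp d × Sp d =>
        ψ p.1 * ψ p.2 * Real.cos ⟪p.1 - p.2, ζ⟫) (volume.prod volume) := by
      intro ζ
      refine Integrable.mono hψψ ?_ (ae_of_all _ fun p => ?_)
      · exact (by fun_prop : Measurable fun p : Sp d × Sp d =>
          ψ p.1 * ψ p.2 * Real.cos ⟪p.1 - p.2, ζ⟫).aestronglyMeasurable
      · rw [norm_mul]
        calc _ ≤ ‖ψ p.1 * ψ p.2‖ * 1 :=
              mul_le_mul_of_nonneg_left (Real.abs_cos_le_one _) (norm_nonneg _)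
          _ = _ := mul_one _
    have hcospos : ∀ ζ : Sp d, 0 ≤ ∫ p, ψ p.1 * ψ p.2 * Real.cos ⟪p.1 - p.2, ζ⟫
        ∂((volume : Measure (Sp d)).prod volume) := by
      intro ζ
      have i1 : Integrable fun x => ψ x * Real.cos ⟪x, ζ⟫ :=
        (by fun_prop : Continuous fun x => ψ x * Real.cos ⟪x, ζ⟫).integrable_of_hasCompactSupport
          (hs.mul_right)
      have i2 : Integrable fun x => ψ x * Real.sin ⟪x, ζ⟫ :=
        (by fun_prop : Continuous fun x => ψ x * Real.sin ⟪x, ζ⟫).integrable_of_hasCompactSupport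
          (hs.mul_right)
      have e : ∀ p : Sp d × Sp d, ψ p.1 * ψ p.2 * Real.cos ⟪p.1 - p.2, ζ⟫
          = ψ p.1 * Real.cos ⟪p.1, ζ⟫ * (ψ p.2 * Real.cos ⟪p.2, ζ⟫)
            + ψ p.1 * Real.sin ⟪p.1, ζ⟫ * (ψ p.2 * Real.sin ⟪p.2, ζ⟫) := by
        intro p
        rw [inner_sub_left, Real.cos_sub]; ring
      simp_rw [e]
      rw [integral_add (i1.mul_prod i1) (i2.mul_prod i2), integral_prod_mul (fun x => ψ x * Real.cos ⟪x, ζ⟫) (fun x => ψ x * Real.cos ⟪x, ζ⟫), integral_prod_mul (fun x => ψ x * Real.sin ⟪x, ζ⟫) (fun x => ψ x * Real.sin ⟪x, ζ⟫)]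
      nlinarith [sq_nonneg (∫ x, ψ x * Real.cos ⟪x, ζ⟫), sq_nonneg (∫ x, ψ x * Real.sin ⟪x, ζ⟫)]
    have hg : 0 ≤ ∫ p, ψ p.1 * ψ p.2 * g0 (p.1 - p.2) ∂((volume : Measure (Sp d)).prod volume) := by
      have h := g0_super (L := Unit) ((volume : Measure (Sp d)).prod volume)
        (fun _ p => ψ p.1 * ψ p.2) (fun _ p => p.1 - p.2) (fun _ => by fun_prop)
        (fun _ => hψψ) (fun _ => hq) (fun _ => ?_) (fun ζ => ?_)
      · simpa using h
      · have hm : MeasurableSet {p : Sp d × Sp d | p.1 - p.2 ≠ 0} :=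
          (measurableSet_eq_fun (by fun_prop) measurable_const).compl
        rw [Measure.ae_prod_iff_ae_ae hm]
        refine ae_of_all _ fun x => ?_
        have hs : ∀ᵐ w : Sp d, w ∉ ({x} : Set (Sp d)) := by
          rw [← measure_eq_zero_iff_ae_notMem]
          exact measure_singleton _
        filter_upwards [hs] with w hw h0
        apply hw
        rw [mem_singleton_iff]
        exact (sub_eq_zero.mp h0).symm
      · simpa using hcospos ζ
    have hAc := hcospos (EuclideanSpace.single i0 (1:ℝ))
    have hAi := hcos (EuclideanSpace.single i0 (1:ℝ))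
    simp only [coord_inner] at hAc hAi
    have e3 : ∀ p : Sp d × Sp d, gA A i0 (p.1 - p.2) * ψ p.1 * ψ p.2
        = ψ p.1 * ψ p.2 * g0 (p.1 - p.2) + A * (ψ p.1 * ψ p.2 * Real.cos ((p.1 - p.2) i0)) := by
      intro p
      unfold gA
      ring
    have hI : Integrable (fun p : Sp d × Sp d => gA A i0 (p.1 - p.2) * ψ p.1 * ψ p.2)
        (volume.prod volume) :=
      (hq.add (hAi.const_mul A)).congr (ae_of_all _ fun p => (e3 p).symm)
    have h4 := integral_prod _ hI
    simp only at h4
    rw [← h4]
    simp_rw [e3]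
    rw [integral_add hq (hAi.const_mul A), integral_const_mul]
    exact add_nonneg hg (mul_nonneg hA hAc)
  · have := h0_continuous (d := d)
    fun_prop
  · refine ⟨1 + A, fun x => ?_⟩
    calc |h0 x + A * Real.cos (x i0)| ≤ |h0 x| + |A * Real.cos (x i0)| := abs_add_le _ _
      _ ≤ 1 + A := by
        rw [abs_mul, abs_of_nonneg hA]
        have := mul_le_mul_of_nonneg_left (Real.abs_cos_le_one (x i0)) hA
        linarith [h0_bound x]
  · intro x hx
    unfold gA
    rw [g0_form x hx]; ring

/-! ### the double integral bound -/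

/-- mass of the singular part -/
def kap (d : ℕ) : ℝ := ∫ x : Sp d, q1 x

theorem kap_nonneg : 0 ≤ kap d := integral_nonneg q1_nonneg

theorem inner_bound (hd : 1 ≤ d) (hθ : Bump θ) {ε : ℝ} (hε : 0 < ε) {S : Set (Sp d)}
    (hSf : volume S ≠ ⊤) (x : Sp d) :
    ∫ y in S, cm θ q ε (x - y) ≤ volume.real S + kap d := by
  have hmθ := hθ.meas
  have hmq := q_measurable (d := d)
  have hmq1 := q1_measurable (d := d)
  have hfin : IsFiniteMeasure (volume.restrict S : Measure (Sp d)) := ⟨by
    simpa using hSf.lt_top⟩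
  -- integrability on the product
  have hI1 : Integrable (fun p : Sp d × Sp d => θ p.2 * q1 (x - p.1 - ε • p.2))
      (volume.prod volume) := by
    rw [integrable_prod_iff' (by fun_prop : Measurable fun p : Sp d × Sp d =>
      θ p.2 * q1 (x - p.1 - ε • p.2)).aestronglyMeasurable]
    have hc : ∀ w : Sp d, (fun y : Sp d => q1 (x - y - ε • w)) = fun y => q1 (x - ε • w - y) := by
      intro w; ext y; congr 1; abel
    constructor
    · refine ae_of_all _ fun w => ?_
      simp only
      refine Integrable.const_mul ?_ _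
      rw [hc]
      exact (q1_integrable hd).comp_sub_left _
    · refine (hθ.integrable.mul_const (kap d)).congr (ae_of_all _ fun w => ?_)
      have : ∀ y : Sp d, ‖θ w * q1 (x - y - ε • w)‖ = θ w * q1 (x - y - ε • w) := fun y => by
        rw [Real.norm_eq_abs, abs_of_nonneg (mul_nonneg (hθ.nonneg w) (q1_nonneg _))]
      simp only
      simp_rw [this]
      rw [integral_const_mul, hc, integral_sub_left_eq_self]
      rfl
  have hI2 : Integrable (fun p : Sp d × Sp d => θ p.2 * q1 (x - p.1 - ε • p.2))
      ((volume.restrict S).prod volume) := by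
    have : ((volume : Measure (Sp d)).restrict S).prod (volume : Measure (Sp d))
        = ((volume : Measure (Sp d)).prod (volume : Measure (Sp d))).restrict (S ×ˢ univ) := by
      rw [← Measure.prod_restrict, Measure.restrict_univ]
    rw [this]
    exact hI1.restrict
  have hI3 : Integrable (fun p : Sp d × Sp d => θ p.2) ((volume.restrict S).prod volume) := by
    have := (integrable_const (1:ℝ) (μ := volume.restrict S)).mul_prod hθ.integrable
    simpa using this
  have hI : Integrable (Function.uncurry fun (y w : Sp d) => θ w * q (x - y - ε • w))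
      ((volume.restrict S).prod volume) := by
    refine Integrable.mono' (hI3.add hI2) ?_ (ae_of_all _ fun p => ?_)
    · exact (by unfold Function.uncurry; fun_prop : Measurable _).aestronglyMeasurable
    · simp only [Function.uncurry, Pi.add_apply]
      rw [Real.norm_eq_abs, abs_of_nonneg (mul_nonneg (hθ.nonneg _) (q_nonneg _))]
      have := mul_le_mul_of_nonneg_left (q_le (x - p.1 - ε • p.2)) (hθ.nonneg p.2)
      linarith
  unfold cm
  rw [integral_integral_swap hI]
  calc ∫ w : Sp d, ∫ y in S, θ w * q (x - y - ε • w)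
      ≤ ∫ w : Sp d, θ w * (volume.real S + kap d) := by
        refine integral_mono hI.integral_prod_right (hθ.integrable.mul_const _) fun w => ?_
        simp only
        rw [integral_const_mul]
        apply mul_le_mul_of_nonneg_left _ (hθ.nonneg w)
        have hi : Integrable (fun y : Sp d => q1 (x - y - ε • w)) := by
          have hc : (fun y : Sp d => q1 (x - y - ε • w)) = fun y => q1 (x - ε • w - y) := by
            ext y; congr 1; abel
          rw [hc]
          exact (q1_integrable hd).comp_sub_left _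
        have hval : ∫ y : Sp d, q1 (x - y - ε • w) = kap d := by
          have hc : (fun y : Sp d => q1 (x - y - ε • w)) = fun y => q1 (x - ε • w - y) := by
            ext y; congr 1; abel
          rw [hc, integral_sub_left_eq_self]
          rfl
        have hle : ∀ y : Sp d, q (x - y - ε • w) ≤ 1 + q1 (x - y - ε • w) := fun y => q_le _
        have hi2 : Integrable (fun y : Sp d => 1 + q1 (x - y - ε • w)) (volume.restrict S) :=
          (integrable_const _).add hi.restrict
        have hi3 : Integrable (fun y : Sp d => q (x - y - ε • w)) (volume.restrict S) := by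
          refine Integrable.mono' hi2 (by fun_prop : Measurable _).aestronglyMeasurable
            (ae_of_all _ fun y => ?_)
          rw [Real.norm_eq_abs, abs_of_nonneg (q_nonneg _)]
          exact hle y
        calc ∫ y in S, q (x - y - ε • w) ≤ ∫ y in S, (1 + q1 (x - y - ε • w)) :=
              integral_mono hi3 hi2 hle
          _ = volume.real S + ∫ y in S, q1 (x - y - ε • w) := by
              rw [integral_add (integrable_const _) hi.restrict]; simp
          _ ≤ _ := by
              have := setIntegral_le_integral (s := S) hi (ae_of_all _ fun y => q1_nonneg _)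
              rw [hval] at this
              linarith
    _ = _ := by rw [integral_mul_const, hθ.mass, one_mul]

theorem double_bound (hd : 1 ≤ d) (hθ : Bump θ) {ε : ℝ} (hε : 0 < ε) {μ : ℝ} (h0 : 0 ≤ μ)
    (h1 : μ ≤ 1/2) {S : Set (Sp d)} (hSf : volume S ≠ ⊤) :
    ∫ x in S, ∫ y in S, Real.exp (μ * cm θ g0 ε (x - y))
      ≤ (volume.real S)^2 + 2 * μ * (volume.real S * (volume.real S + kap d)) := by
  have hfin : IsFiniteMeasure (volume.restrict S : Measure (Sp d)) := ⟨by
    simpa using hSf.lt_top⟩
  have hm0 := cm_measurable hθ (g0_measurable (d := d)) ε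
  have hmq := cm_measurable hθ (q_measurable (d := d)) ε
  obtain ⟨B0, hB0⟩ := cm_g0_bound hd hθ hε
  obtain ⟨Bq, hBq⟩ := cm_q_bound hd hθ hε
  have hqn : ∀ x, 0 ≤ cm θ q ε x := fun x =>
    integral_nonneg fun w => mul_nonneg (hθ.nonneg w) (q_nonneg _)
  have hie : ∀ x, Integrable (fun y => Real.exp (μ * cm θ g0 ε (x - y))) (volume.restrict S) := by
    intro x
    refine Integrable.of_bound (by fun_prop : Measurable _).aestronglyMeasurable
      (Real.exp (μ * B0)) (ae_of_all _ fun y => ?_)
    rw [Real.norm_eq_abs, abs_of_pos (Real.exp_pos _)]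
    exact Real.exp_le_exp.mpr (mul_le_mul_of_nonneg_left (hB0 _) h0)
  have hiq : ∀ x, Integrable (fun y => cm θ q ε (x - y)) (volume.restrict S) := by
    intro x
    refine Integrable.of_bound (by fun_prop : Measurable _).aestronglyMeasurable
      Bq (ae_of_all _ fun y => ?_)
    rw [Real.norm_eq_abs, abs_of_nonneg (hqn _)]
    exact hBq _
  have hx : ∀ x, ∫ y in S, Real.exp (μ * cm θ g0 ε (x - y))
      ≤ volume.real S + 2 * μ * (volume.real S + kap d) := by
    intro x
    calc ∫ y in S, Real.exp (μ * cm θ g0 ε (x - y))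
        ≤ ∫ y in S, (1 + 2 * μ * cm θ q ε (x - y)) :=
          integral_mono (hie x) ((integrable_const _).add ((hiq x).const_mul _))
            fun y => jensen hd hθ hε h0 h1 _
      _ = volume.real S + 2 * μ * ∫ y in S, cm θ q ε (x - y) := by
          rw [integral_add (integrable_const _) ((hiq x).const_mul _), integral_const_mul]; simp
      _ ≤ _ := by
          have := mul_le_mul_of_nonneg_left (inner_bound hd hθ hε hSf x) (by linarith : 0 ≤ 2 * μ)
          linarith
  calc ∫ x in S, ∫ y in S, Real.exp (μ * cm θ g0 ε (x - y))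
      ≤ ∫ _x in S, (volume.real S + 2 * μ * (volume.real S + kap d)) := by
        refine integral_mono_of_nonneg (ae_of_all _ fun x => integral_nonneg fun y =>
          (Real.exp_pos _).le) (integrable_const _) (ae_of_all _ hx)
    _ = _ := by
        simp
        ring

end

end Pool.Agent.H528R3.Gmc
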