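import Mathlib

/-!
Monte-Carlo sampling of a space integral of a random field.
-/

set_option autoImplicit false
set_option linter.unusedSectionVars false

namespace Pool.Agent.H528R3.Gmc

open MeasureTheory ProbabilityTheory Set Filter Topology

noncomputable section

variable {E Ω : Type*} [MeasurableSpace E] [MeasurableSpace Ω]

/-- the law of `N` independent sample points -/
abbrev smp (N : ℕ) (U : Measure E) : Measure (Fin N → E) := Measure.pi fun _ : Fin N => U

theorem prod_real_eq {F : Type*} [MeasurableSpace F] (P : Measure Ω) [IsProbabilityMeasure P]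
    (Q : Measure F) [IsProbabilityMeasure Q] {S : Set (Ω × F)} (hS : MeasurableSet S) :
    (P.prod Q).real S = ∫ y, P.real {w | (w, y) ∈ S} ∂Q := by
  rw [measureReal_def, Measure.prod_apply_symm hS]
  have h := integral_toReal (μ := Q) (f := fun y => P ((fun x => (x, y)) ⁻¹' S))
    (measurable_measure_prodMk_right hS).aemeasurable (ae_of_all _ fun y => measure_lt_top _ _)
  rw [← h]
  rfl

/-- the empirical mean -/
def emp {N : ℕ} (f : E → Ω → ℝ) (w : Ω) (X : Fin N → E) : ℝ := (1/(N:ℝ)) * ∑ i, f (X i) w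

theorem emp_measurable {N : ℕ} {f : E → Ω → ℝ} (hf : Measurable fun p : E × Ω => f p.1 p.2) :
    Measurable fun p : Ω × (Fin N → E) => emp f p.1 p.2 := by
  unfold emp
  refine Measurable.const_mul (Finset.measurable_sum _ fun i _ => ?_) _
  exact hf.comp (by fun_prop : Measurable fun p : Ω × (Fin N → E) => (p.2 i, p.1))

theorem emp_cheb {N : ℕ} (hN : 0 < N) (U : Measure E) [IsProbabilityMeasure U]
    {h : E → ℝ} (hm : Measurable h) (hL : MemLp h 2 U) {δ : ℝ} (hδ : 0 < δ) :
    (smp N U) {X | δ ≤ |(1/(N:ℝ)) * ∑ i, h (X i) - ∫ x, h x ∂U|}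
      ≤ ENNReal.ofReal ((1/(N * δ^2)) * ∫ x, (h x)^2 ∂U) := by
  have hN' : (0:ℝ) < N := by exact_mod_cast hN
  have hcoord : ∀ i : Fin N, MemLp (fun X : Fin N → E => h (X i)) 2 (smp N U) := fun i =>
    hL.comp_measurePreserving (measurePreserving_eval (fun _ : Fin N => U) i)
  have hint : ∀ i : Fin N, Integrable (fun X : Fin N → E => h (X i)) (smp N U) := fun i =>
    (hcoord i).integrable (by norm_num)
  have hmean1 : ∀ i : Fin N, ∫ X : Fin N → E, h (X i) ∂(smp N U) = ∫ x, h x ∂U := by
    intro i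
    have hmp := measurePreserving_eval (fun _ : Fin N => U) i
    have := integral_map (μ := smp N U) hmp.measurable.aemeasurable
      (f := h) hm.aestronglyMeasurable
    rw [hmp.map_eq] at this
    rw [this]
  set S : (Fin N → E) → ℝ := fun X => (1/(N:ℝ)) * ∑ i, h (X i) with hS
  have hSL : MemLp S 2 (smp N U) := by
    have := memLp_finsetSum (Finset.univ : Finset (Fin N)) (fun i _ => hcoord i)
    exact this.const_mul _
  have hmean : ∫ X, S X ∂(smp N U) = ∫ x, h x ∂U := by
    rw [hS, integral_const_mul, integral_finsetSum _ fun i _ => hint i]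
    simp_rw [hmean1]
    simp
    field_simp
  have hvar : Var[S; smp N U] = (1/(N:ℝ)) * Var[h; U] := by
    have h1 := variance_sum_pi (μ := fun _ : Fin N => U) (X := fun _ => h) (fun _ => hL)
    have h2 : S = fun X => (1/(N:ℝ)) * (∑ i : Fin N, fun X : Fin N → E => h (X i)) X := by
      ext X; simp [hS]
    rw [h2, variance_const_mul, h1]
    simp
    field_simp
  have hc := meas_ge_le_variance_div_sq hSL hδ
  rw [hmean, hvar] at hc
  refine hc.trans (ENNReal.ofReal_le_ofReal ?_)
  have hv : Var[h; U] ≤ ∫ x, (h x)^2 ∂U := by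
    have := variance_le_expectation_sq (X := h) (μ := U) hm.aestronglyMeasurable
    simpa using this
  calc 1/(N:ℝ) * Var[h; U] / δ^2 = (1/(N * δ^2)) * Var[h; U] := by field_simp
    _ ≤ _ := mul_le_mul_of_nonneg_left hv (by positivity)

theorem sampling {N : ℕ} (hN : 0 < N) (P : Measure Ω) [IsProbabilityMeasure P]
    (U : Measure E) [IsProbabilityMeasure U] {f : E → Ω → ℝ}
    (hf : Measurable fun p : E × Ω => f p.1 p.2)
    (hint : Integrable (fun p : Ω × E => (f p.2 p.1)^2) (P.prod U)) {δ : ℝ} (hδ : 0 < δ) :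
    (P.prod (smp N U)).real {p | δ ≤ |emp f p.1 p.2 - ∫ x, f x p.1 ∂U|}
      ≤ (1/(N * δ^2)) * ∫ p, (f p.2 p.1)^2 ∂(P.prod U) := by
  have hmean_meas : Measurable fun w : Ω => ∫ x, f x w ∂U := by
    have : StronglyMeasurable (Function.uncurry fun (w : Ω) (x : E) => f x w) :=
      (hf.comp measurable_swap).stronglyMeasurable
    exact this.integral_prod_right.measurable
  have hSm : MeasurableSet {p : Ω × (Fin N → E) | δ ≤ |emp f p.1 p.2 - ∫ x, f x p.1 ∂U|} := by
    apply measurableSet_le measurable_const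
    exact ((emp_measurable hf).sub (hmean_meas.comp measurable_fst)).abs
  rw [measureReal_def, Measure.prod_apply hSm]
  have hae : ∀ᵐ w ∂P, Integrable (fun x => (f x w)^2) U := hint.prod_right_ae
  have hfw : ∀ w, Measurable fun x => f x w := fun w =>
    hf.comp (measurable_prodMk_right (y := w))
  have hle : ∫⁻ w, (smp N U) (Prod.mk w ⁻¹'
        {p : Ω × (Fin N → E) | δ ≤ |emp f p.1 p.2 - ∫ x, f x p.1 ∂U|}) ∂P
      ≤ ∫⁻ w, ENNReal.ofReal ((1/(N * δ^2)) * ∫ x, (f x w)^2 ∂U) ∂P := by
    refine lintegral_mono_ae ?_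
    filter_upwards [hae] with w hw
    have hL : MemLp (fun x => f x w) 2 U :=
      (memLp_two_iff_integrable_sq (hfw w).aestronglyMeasurable).mpr hw
    exact emp_cheb hN U (hfw w) hL hδ
  have hi2 : Integrable (fun w => (1/(N * δ^2)) * ∫ x, (f x w)^2 ∂U) P :=
    hint.integral_prod_left.const_mul _
  rw [← ofReal_integral_eq_lintegral_ofReal hi2 (ae_of_all _ fun w => by positivity)] at hle
  have h3 : ∫ p, (f p.2 p.1)^2 ∂(P.prod U) = ∫ w, ∫ x, (f x w)^2 ∂U ∂P := integral_prod _ hint
  rw [h3, ← integral_const_mul]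
  have hnn : 0 ≤ ∫ w, (1/(N * δ^2)) * ∫ x, (f x w)^2 ∂U ∂P :=
    integral_nonneg fun w => by positivity
  calc _ ≤ (ENNReal.ofReal (∫ w, (1/(N * δ^2)) * ∫ x, (f x w)^2 ∂U ∂P)).toReal :=
        ENNReal.toReal_mono ENNReal.ofReal_ne_top hle
    _ = _ := ENNReal.toReal_ofReal hnn

/-- pairs of sample points -/
theorem pair_integral {N : ℕ} (U : Measure E) [IsProbabilityMeasure U] {κ : E × E → ℝ}
    (hκ : Measurable κ) {i k : Fin N} (hik : i ≠ k) :
    ∫ X, κ (X i, X k) ∂(smp N U) = ∫ p, κ p ∂(U.prod U) := by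
  have hind : IndepFun (fun X : Fin N → E => X i) (fun X : Fin N → E => X k) (smp N U) :=
    (iIndepFun_pi (μ := fun _ : Fin N => U) (X := fun _ : Fin N => (id : E → E))
      (fun _ => aemeasurable_id)).indepFun hik
  have hmap := (indepFun_iff_map_prod_eq_prod_map_map
    (measurable_pi_apply i).aemeasurable (measurable_pi_apply k).aemeasurable).mp hind
  have hi := (measurePreserving_eval (fun _ : Fin N => U) i).map_eq
  have hk := (measurePreserving_eval (fun _ : Fin N => U) k).map_eq
  have hi' : (smp N U).map (fun X : Fin N → E => X i) = U := hi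
  have hk' : (smp N U).map (fun X : Fin N → E => X k) = U := hk
  rw [hi', hk'] at hmap
  rw [← hmap, integral_map (by fun_prop) hκ.aestronglyMeasurable]

theorem pair_sum {N : ℕ} (U : Measure E) [IsProbabilityMeasure U] {κ : E × E → ℝ}
    (hκ : Measurable κ) (h0 : ∀ p, 0 ≤ κ p) {B : ℝ} (hB : ∀ p, κ p ≤ B) :
    ∫ X, ∑ i : Fin N, ∑ k : Fin N, κ (X i, X k) ∂(smp N U)
      ≤ (N:ℝ)^2 * ∫ p, κ p ∂(U.prod U) + N * B := by
  have hint : ∀ i k : Fin N, Integrable (fun X : Fin N → E => κ (X i, X k)) (smp N U) := by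
    intro i k
    refine Integrable.of_bound (hκ.comp (by fun_prop)).aestronglyMeasurable B
      (ae_of_all _ fun X => ?_)
    rw [Real.norm_eq_abs, abs_of_nonneg (h0 _)]
    exact hB _
  have hκn : 0 ≤ ∫ p, κ p ∂(U.prod U) := integral_nonneg h0
  have hB0 : 0 ≤ B ∨ N = 0 := by
    rcases Nat.eq_zero_or_pos N with h | h
    · exact Or.inr h
    · left
      have : Nonempty E := by
        by_contra hne
        rw [not_nonempty_iff] at hne
        have : U univ = 0 := by rw [univ_eq_empty_iff.mpr hne, measure_empty]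
        rw [measure_univ] at this
        exact one_ne_zero this
      obtain ⟨e⟩ := this
      exact (h0 (e, e)).trans (hB (e, e))
  rcases hB0 with hB0 | hN0
  swap
  · subst hN0; simp
  rw [integral_finsetSum _ fun i _ => integrable_finsetSum _ fun k _ => hint i k]
  have h1 : ∀ i : Fin N, ∫ X, ∑ k : Fin N, κ (X i, X k) ∂(smp N U)
      ≤ N * (∫ p, κ p ∂(U.prod U)) + B := by
    intro i
    rw [integral_finsetSum _ fun k _ => hint i k]
    calc ∑ k : Fin N, ∫ X, κ (X i, X k) ∂(smp N U)
        ≤ ∑ k : Fin N, ((∫ p, κ p ∂(U.prod U)) + if k = i then B else 0) := by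
          refine Finset.sum_le_sum fun k _ => ?_
          by_cases hk : k = i
          · subst hk
            rw [if_pos rfl]
            have : ∫ X : Fin N → E, κ (X k, X k) ∂(smp N U) ≤ ∫ _X : Fin N → E, B ∂(smp N U) :=
              integral_mono (hint k k) (integrable_const _) fun X => hB _
            simp at this
            linarith
          · rw [if_neg hk, pair_integral U hκ (Ne.symm hk)]
            linarith
      _ = _ := by
          rw [Finset.sum_add_distrib]; simp
  calc _ ≤ ∑ _i : Fin N, (N * (∫ p, κ p ∂(U.prod U)) + B) := Finset.sum_le_sum fun i _ => h1 i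
    _ = _ := by simp; ring

end

end Pool.Agent.H528R3.Gmc
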