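import Mathlib
import Pool.Agent.H528R3.GmcB
import Pool.Agent.H528R3.GmcF
import Pool.Agent.H528R3.GmcG

/-!
Estimates on the regularised total mass of the field.
-/

set_option autoImplicit false
set_option linter.unusedSectionVars false

namespace Pool.Agent.H528R3.Gmc

open MeasureTheory ProbabilityTheory Set Filter Topology WithLp
open scoped RealInnerProductSpace

noncomputable section

variable {d : ℕ} {θ : Sp d → ℝ}

/-! ### uniform sampling from a set -/

/-- uniform law on `D` -/
abbrev unif (D : Set (Sp d)) : Measure (Sp d) := ProbabilityTheory.cond volume D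

theorem unif_prob {D : Set (Sp d)} (h0 : volume D ≠ 0) (hf : volume D ≠ ⊤) :
    IsProbabilityMeasure (unif D) := cond_isProbabilityMeasure_of_finite h0 hf

theorem unif_int (D : Set (Sp d)) (f : Sp d → ℝ) :
    ∫ x, f x ∂(unif D) = (volume.real D)⁻¹ * ∫ x in D, f x := by
  unfold unif ProbabilityTheory.cond
  rw [integral_smul_measure, ENNReal.toReal_inv]
  rfl

theorem unif_indicator {D S : Set (Sp d)} (hS : MeasurableSet S) (hSD : S ⊆ D) (f : Sp d → ℝ) :
    ∫ x, S.indicator f x ∂(unif D) = (volume.real D)⁻¹ * ∫ x in S, f x := by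
  rw [unif_int, setIntegral_indicator hS, inter_eq_self_of_subset_right hSD]

/-- pair kernel -/
def pk (θ : Sp d → ℝ) (μ ε : ℝ) (S : Set (Sp d)) (p : Sp d × Sp d) : ℝ :=
  S.indicator (fun _ => (1:ℝ)) p.1 * S.indicator (fun _ => (1:ℝ)) p.2 *
    Real.exp (μ * cm θ g0 ε (p.1 - p.2))

theorem ind_nonneg (S : Set (Sp d)) (x : Sp d) : 0 ≤ S.indicator (fun _ => (1:ℝ)) x :=
  indicator_nonneg (fun _ _ => zero_le_one) x

theorem ind_le (S : Set (Sp d)) (x : Sp d) : S.indicator (fun _ => (1:ℝ)) x ≤ 1 :=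
  indicator_le_self' (fun _ _ => zero_le_one) x

theorem pk_nonneg (θ : Sp d → ℝ) (μ ε : ℝ) (S : Set (Sp d)) (p : Sp d × Sp d) :
    0 ≤ pk θ μ ε S p :=
  mul_nonneg (mul_nonneg (ind_nonneg _ _) (ind_nonneg _ _)) (Real.exp_pos _).le

theorem pk_measurable (hθ : Bump θ) (μ ε : ℝ) {S : Set (Sp d)} (hS : MeasurableSet S) :
    Measurable (pk θ μ ε S) := by
  unfold pk
  have h1 : Measurable (S.indicator fun _ => (1:ℝ)) := measurable_const.indicator hS
  have h2 := cm_measurable hθ (g0_measurable (d := d)) ε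
  fun_prop

theorem pk_bound {μ ε B0 : ℝ} (hμ : 0 ≤ μ) (hB : ∀ x : Sp d, cm θ g0 ε x ≤ B0)
    (S : Set (Sp d)) (p : Sp d × Sp d) : pk θ μ ε S p ≤ Real.exp (μ * B0) := by
  unfold pk
  calc _ ≤ 1 * 1 * Real.exp (μ * B0) := by
        apply mul_le_mul _ (Real.exp_le_exp.mpr (mul_le_mul_of_nonneg_left (hB _) hμ))
          (Real.exp_pos _).le (by norm_num)
        exact mul_le_mul (ind_le _ _) (ind_le _ _) (ind_nonneg _ _) (by norm_num)
    _ = _ := by ring

theorem pk_integral (hd : 1 ≤ d) (hθ : Bump θ) {μ ε : ℝ} (hε : 0 < ε) (hμ0 : 0 ≤ μ)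
    (hμ1 : μ ≤ 1/2) {D S : Set (Sp d)} (h0 : volume D ≠ 0) (hf : volume D ≠ ⊤)
    (hS : MeasurableSet S) (hSD : S ⊆ D) :
    (volume.real D)^2 * ∫ p, pk θ μ ε S p ∂((unif D).prod (unif D))
      ≤ (volume.real S)^2 + 2 * μ * (volume.real S * (volume.real S + kap d)) := by
  have := unif_prob h0 hf
  obtain ⟨B0, hB0⟩ := cm_g0_bound hd hθ hε
  have hi : Integrable (pk θ μ ε S) ((unif D).prod (unif D)) := by
    refine Integrable.of_bound (pk_measurable hθ μ ε hS).aestronglyMeasurable
      (Real.exp (μ * B0)) (ae_of_all _ fun p => ?_)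
    rw [Real.norm_eq_abs, abs_of_nonneg (pk_nonneg _ _ _ _ _)]
    exact pk_bound hμ0 hB0 S p
  have hV : 0 < volume.real D := ENNReal.toReal_pos h0 hf
  rw [integral_prod _ hi]
  have e1 : ∀ x : Sp d, ∫ y, pk θ μ ε S (x, y) ∂(unif D)
      = S.indicator (fun x => (volume.real D)⁻¹ *
        ∫ y in S, Real.exp (μ * cm θ g0 ε (x - y))) x := by
    intro x
    by_cases hx : x ∈ S
    · rw [indicator_of_mem hx, ← unif_indicator hS hSD]
      congr 1
      ext y
      unfold pk
      by_cases hy : y ∈ S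
      · rw [indicator_of_mem hx, indicator_of_mem hy, indicator_of_mem hy]; ring
      · rw [indicator_of_mem hx, indicator_of_notMem hy, indicator_of_notMem hy]; ring
    · rw [indicator_of_notMem hx]
      unfold pk
      simp only [indicator_of_notMem hx]
      simp
  simp_rw [e1]
  rw [unif_indicator hS hSD, integral_const_mul]
  have h := double_bound hd hθ hε hμ0 hμ1 (S := S) (ne_top_of_le_ne_top hf (measure_mono hSD))
  calc (volume.real D)^2 * ((volume.real D)⁻¹ * ((volume.real D)⁻¹ *
        ∫ x in S, ∫ y in S, Real.exp (μ * cm θ g0 ε (x - y))))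
      = ∫ x in S, ∫ y in S, Real.exp (μ * cm θ g0 ε (x - y)) := by
        field_simp
    _ ≤ _ := h

/-- the points of the sample in `S` -/
def inS {N : ℕ} (S : Set (Sp d)) (X : Fin N → Sp d) : Finset (Fin N) := by
  classical exact Finset.univ.filter fun i => X i ∈ S

theorem dev_eq {N : ℕ} (μ ε V v : ℝ) (S : Set (Sp d)) (X : Fin N → Sp d) :
    dev (fun _ => V / N) (Matrix.of fun i k => μ * cm θ g0 ε (X i - X k)) v (inS S X)
      = (V/N)^2 * (∑ i, ∑ k, pk θ μ ε S (X i, X k))
        - 2 * v * ((V/N) * ∑ i, S.indicator (fun _ => (1:ℝ)) (X i)) + v^2 := by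
  classical
  unfold dev inS
  congr 1
  congr 1
  · rw [Finset.sum_filter, Finset.mul_sum]
    refine Finset.sum_congr rfl fun i _ => ?_
    by_cases hi : X i ∈ S
    · rw [if_pos hi, Finset.sum_filter, Finset.mul_sum]
      refine Finset.sum_congr rfl fun k _ => ?_
      by_cases hk : X k ∈ S
      · rw [if_pos hk]
        unfold pk
        simp only [indicator_of_mem hi, indicator_of_mem hk, Matrix.of_apply]
        ring
      · rw [if_neg hk]
        unfold pk
        simp only [indicator_of_notMem hk]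
        ring
    · rw [if_neg hi]
      unfold pk
      simp only [indicator_of_notMem hi]
      simp
  · congr 1
    rw [Finset.sum_filter, Finset.mul_sum]
    refine Finset.sum_congr rfl fun i _ => ?_
    by_cases hi : X i ∈ S
    · rw [if_pos hi, indicator_of_mem hi, mul_one]
    · rw [if_neg hi, indicator_of_notMem hi, mul_zero]

theorem dev_integral (hd : 1 ≤ d) (hθ : Bump θ) {μ ε B0 : ℝ} (hε : 0 < ε) (hμ0 : 0 ≤ μ)
    (hμ1 : μ ≤ 1/2) (hB : ∀ x : Sp d, cm θ g0 ε x ≤ B0)
    {D S : Set (Sp d)} (h0 : volume D ≠ 0) (hf : volume D ≠ ⊤)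
    (hS : MeasurableSet S) (hSD : S ⊆ D) {N : ℕ} (hN : 0 < N) :
    Integrable (fun X : Fin N → Sp d => dev (fun _ => volume.real D / N)
      (Matrix.of fun i k => μ * cm θ g0 ε (X i - X k)) (volume.real S) (inS S X)) (smp N (unif D)) ∧
    ∫ X, dev (fun _ => volume.real D / N)
      (Matrix.of fun i k => μ * cm θ g0 ε (X i - X k)) (volume.real S) (inS S X)
        ∂(smp N (unif D))
      ≤ 2 * μ * (volume.real S * (volume.real S + kap d))
        + (volume.real D)^2 * Real.exp (μ * B0) / N := by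
  have := unif_prob h0 hf
  have hN' : (0:ℝ) < N := by exact_mod_cast hN
  have hV : 0 < volume.real D := ENNReal.toReal_pos h0 hf
  set V := volume.real D with hVdef
  set v := volume.real S with hvdef
  have hm := pk_measurable hθ μ ε hS
  have hpki : ∀ i k : Fin N, Integrable (fun X : Fin N → Sp d => pk θ μ ε S (X i, X k))
      (smp N (unif D)) := by
    intro i k
    refine Integrable.of_bound (hm.comp (by fun_prop)).aestronglyMeasurable
      (Real.exp (μ * B0)) (ae_of_all _ fun p => ?_)
    rw [Real.norm_eq_abs, abs_of_nonneg (pk_nonneg _ _ _ _ _)]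
    exact pk_bound hμ0 hB S _
  have hmi : Measurable (S.indicator fun _ : Sp d => (1:ℝ)) := measurable_const.indicator hS
  have hindi : ∀ i : Fin N, Integrable (fun X : Fin N → Sp d =>
      S.indicator (fun _ => (1:ℝ)) (X i)) (smp N (unif D)) := by
    intro i
    refine Integrable.of_bound (hmi.comp (measurable_pi_apply i)).aestronglyMeasurable
      1 (ae_of_all _ fun p => ?_)
    rw [Real.norm_eq_abs, abs_of_nonneg (ind_nonneg _ _)]
    exact ind_le _ _
  have hindv : ∀ i : Fin N, ∫ X : Fin N → Sp d, S.indicator (fun _ => (1:ℝ)) (X i)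
      ∂(smp N (unif D)) = v / V := by
    intro i
    have hmp := measurePreserving_eval (fun _ : Fin N => unif D) i
    have h := integral_map (μ := smp N (unif D)) hmp.measurable.aemeasurable
      (f := S.indicator fun _ => (1:ℝ)) hmi.aestronglyMeasurable
    rw [hmp.map_eq] at h
    have h2 : ∫ X : Fin N → Sp d, S.indicator (fun _ => (1:ℝ)) (X i) ∂(smp N (unif D))
        = ∫ x, S.indicator (fun _ => (1:ℝ)) x ∂(unif D) := h.symm
    rw [h2, unif_indicator hS hSD]
    simp only [integral_const, smul_eq_mul, mul_one, measureReal_restrict_apply MeasurableSet.univ,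
      univ_inter]
    rw [← hVdef, ← hvdef]; field_simp
  have i1 : Integrable (fun X : Fin N → Sp d => ∑ i, ∑ k, pk θ μ ε S (X i, X k))
      (smp N (unif D)) :=
    integrable_finsetSum _ fun i _ => integrable_finsetSum _ fun k _ => hpki i k
  have i2 : Integrable (fun X : Fin N → Sp d => ∑ i, S.indicator (fun _ => (1:ℝ)) (X i))
      (smp N (unif D)) := integrable_finsetSum _ fun i _ => hindi i
  simp_rw [dev_eq]
  have i3 := (i1.const_mul ((V/N)^2))
  have i4 := ((i2.const_mul (V/N)).const_mul (2*v))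
  have i5 : Integrable (fun X : Fin N → Sp d =>
      (V/N)^2 * (∑ i, ∑ k, pk θ μ ε S (X i, X k))
        - 2 * v * ((V/N) * ∑ i, S.indicator (fun _ => (1:ℝ)) (X i))) (smp N (unif D)) := i3.sub i4
  refine ⟨i5.add (integrable_const _), ?_⟩
  rw [integral_add i5 (integrable_const _), integral_sub i3 i4, integral_const_mul,
    integral_const_mul, integral_const_mul, integral_finsetSum _ fun i _ => hindi i]
  simp_rw [hindv]
  have hp := pair_sum (N := N) (unif D) hm (pk_nonneg _ _ _ _) (pk_bound hμ0 hB S)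
  have hp2 := mul_le_mul_of_nonneg_left hp (by positivity : 0 ≤ (V/N)^2)
  have hp3 := pk_integral hd hθ hε hμ0 hμ1 h0 hf hS hSD
  rw [← hVdef, ← hvdef] at hp3
  have e1 : (V/N)^2 * ((N:ℝ)^2 * (∫ p, pk θ μ ε S p ∂((unif D).prod (unif D)))
      + N * Real.exp (μ * B0))
      = V^2 * (∫ p, pk θ μ ε S p ∂((unif D).prod (unif D))) + V^2 * Real.exp (μ * B0) / N := by
    field_simp
  rw [e1] at hp2
  have e2 : 2 * v * (V/N * ∑ _i : Fin N, v / V) = 2 * v^2 := by
    simp; field_simp
  rw [e2]
  simp only [integral_const, smul_eq_mul, probReal_univ, one_mul]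
  linarith

end

end Pool.Agent.H528R3.Gmc
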