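import Mathlib
import Pool.Agent.H528R3.GmcH

/-!
Field-level estimates.
-/

set_option autoImplicit false
set_option linter.unusedSectionVars false

namespace Pool.Agent.H528R3.Gmc

open MeasureTheory ProbabilityTheory Set Filter Topology WithLp
open scoped RealInnerProductSpace

noncomputable section

variable {d : ℕ} {θ : Sp d → ℝ} {μ ε A b : ℝ} {i0 : Fin d} {Ω : Type} [MeasurableSpace Ω]
  {P : Measure Ω} [IsProbabilityMeasure P] {ω : Sp d → Ω → ℝ}

/-- variance of the small-scale part -/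
abbrev c00 (θ : Sp d → ℝ) (μ ε : ℝ) : ℝ := μ * cm θ g0 ε 0

theorem field_cov (hd : 1 ≤ d) (hθ : Bump θ) (hε : 0 < ε)
    (hω : IsField (gA A i0) θ μ ε P ω)
    (hb2 : b^2 = μ * (A * hat θ (ε • EuclideanSpace.single i0 (1:ℝ)))) (x y : Sp d) :
    cov[ω x, ω y; P] = μ * cm θ g0 ε (x - y) + b^2 * Real.cos (x i0 - y i0) := by
  rw [hω.cov, moll_eq θ _ hε, cm_gA hd hθ hε, hb2]
  have : (x - y) i0 = x i0 - y i0 := rfl
  rw [this]; ring

theorem field_var (hd : 1 ≤ d) (hθ : Bump θ) (hε : 0 < ε)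
    (hω : IsField (gA A i0) θ μ ε P ω)
    (hb2 : b^2 = μ * (A * hat θ (ε • EuclideanSpace.single i0 (1:ℝ)))) (x : Sp d) :
    Var[ω x; P] = c00 θ μ ε + b^2 := by
  rw [← covariance_self (hω.gauss.aemeasurable x), field_cov hd hθ hε hω hb2, sub_self, sub_self,
    Real.cos_zero, mul_one]

theorem field_mean (hd : 1 ≤ d) (hθ : Bump θ) (hε : 0 < ε)
    (hω : IsField (gA A i0) θ μ ε P ω)
    (hb2 : b^2 = μ * (A * hat θ (ε • EuclideanSpace.single i0 (1:ℝ)))) (x : Sp d) :
    ∫ w, ω x w ∂P = -(c00 θ μ ε + b^2)/2 := by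
  rw [hω.mean, field_var hd hθ hε hω hb2]

/-- covariance matrix of the small-scale part at the sample points -/
abbrev cmat {N : ℕ} (θ : Sp d → ℝ) (μ ε : ℝ) (X : Fin N → Sp d) : Matrix (Fin N) (Fin N) ℝ :=
  Matrix.of fun i k => μ * cm θ g0 ε (X i - X k)

/-- mean vector -/
abbrev mvec (N : ℕ) (θ : Sp d → ℝ) (μ ε b : ℝ) : EuclideanSpace ℝ (Fin N) :=
  toLp 2 fun _ => -(c00 θ μ ε + b^2)/2

theorem field_law (hd : 1 ≤ d) (hθ : Bump θ) (hε : 0 < ε) (hμ0 : 0 ≤ μ)
    (hω : IsField (gA A i0) θ μ ε P ω)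
    (hb2 : b^2 = μ * (A * hat θ (ε • EuclideanSpace.single i0 (1:ℝ)))) {N : ℕ}
    (X : Fin N → Sp d) :
    P.map (fun w => (fun i => ω (X i) w))
      = (bigLaw (mvec N θ μ ε b) (cmat θ μ ε X)).map (dec b fun i => X i i0) := by
  have hG : HasGaussianLaw (fun w => (fun i => ω (X i) w)) P := by
    have h1 := (hω.gauss.comp_right X).hasGaussianLaw Finset.univ
    have h2 := h1.map_fun (ContinuousLinearMap.pi fun i : Fin N =>
      (ContinuousLinearMap.proj (R := ℝ) (φ := fun _ : (Finset.univ : Finset (Fin N)) => ℝ)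
        ⟨i, Finset.mem_univ i⟩))
    exact h2
  refine law_eq (fun i w => ω (X i) w) hG (cmat θ μ ε X) (psd hd hθ hε hμ0 X) (mvec N θ μ ε b)
    (fun i => X i i0) b (fun i => ?_) (fun i k => ?_)
  · exact field_mean hd hθ hε hω hb2 _
  · exact field_cov hd hθ hε hω hb2 _ _

/-- the mass density, normalised for sampling from `D` -/
def fm (D : Set (Sp d)) (ω : Sp d → Ω → ℝ) (x : Sp d) (w : Ω) : ℝ :=
  volume.real D * Real.exp (ω x w)

theorem fm_measurable (hω : IsField (gA A i0) θ μ ε P ω) (D : Set (Sp d)) :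
    Measurable fun p : Sp d × Ω => fm D ω p.1 p.2 := by
  unfold fm
  have := hω.meas
  fun_prop

theorem emp_fm {N : ℕ} (D : Set (Sp d)) (w : Ω) (X : Fin N → Sp d) :
    emp (fm D ω) w X = ∑ i, volume.real D / N * Real.exp (ω (X i) w) := by
  unfold emp fm
  rw [Finset.mul_sum]
  exact Finset.sum_congr rfl fun i _ => by ring

theorem transfer (hd : 1 ≤ d) (hθ : Bump θ) (hε : 0 < ε) (hμ0 : 0 ≤ μ)
    (hω : IsField (gA A i0) θ μ ε P ω)
    (hb2 : b^2 = μ * (A * hat θ (ε • EuclideanSpace.single i0 (1:ℝ)))) {N : ℕ}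
    (D : Set (Sp d)) (X : Fin N → Sp d) {T : Set ℝ} (hT : MeasurableSet T) :
    P.real {w | emp (fm D ω) w X ∈ T}
      = (bigLaw (mvec N θ μ ε b) (cmat θ μ ε X)).real
        {r | tot b (fun i => X i i0) (fun _ => volume.real D / N) r ∈ T} := by
  have hlaw := field_law hd hθ hε hμ0 hω hb2 X
  set Φ : (Fin N → ℝ) → ℝ := fun y => ∑ i, volume.real D / N * Real.exp (y i) with hΦ
  have hΦm : Measurable Φ := by rw [hΦ]; fun_prop
  have hXm : Measurable (fun w => (fun i => ω (X i) w)) := by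
    refine measurable_pi_lambda _ fun i => ?_
    exact hω.meas.comp (measurable_prodMk_left)
  have h1 : P.real {w | emp (fm D ω) w X ∈ T}
      = (P.map (fun w => (fun i => ω (X i) w))).real (Φ ⁻¹' T) := by
    rw [map_measureReal_apply hXm (hΦm hT)]
    congr 1
    ext w
    simp only [mem_ofPred_eq, mem_preimage, hΦ, emp_fm]
  rw [h1, hlaw, map_measureReal_apply (dec_measurable b _) (hΦm hT)]
  rfl

theorem up_fixed (hd : 1 ≤ d) (hθ : Bump θ) (hε : 0 < ε) (hμ0 : 0 ≤ μ)
    (hω : IsField (gA A i0) θ μ ε P ω) (hb : 0 ≤ b)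
    (hb2 : b^2 = μ * (A * hat θ (ε • EuclideanSpace.single i0 (1:ℝ)))) {N : ℕ} (hN : 0 < N)
    (D : Set (Sp d)) (X : Fin N → Sp d) (t η : ℝ) :
    P.real {w | Real.exp (-b^2/2 + b * (t + η)) < emp (fm D ω) w X}
      ≤ (γ.prod γ).real {z | t < 2 * mx z} + volume.real D * Real.exp (-(b * η)) := by
  have h1 := transfer hd hθ hε hμ0 hω hb2 D X (T := Ioi (Real.exp (-b^2/2 + b * (t + η))))
    measurableSet_Ioi
  have hN' : (0:ℝ) < N := by exact_mod_cast hN
  have h2 := est_up (ι := Fin N) (C := cmat θ μ ε X) (m := mvec N θ μ ε b) (b := b)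
    (c0 := c00 θ μ ε) (psd hd hθ hε hμ0 X) (fun i => by simp [cmat, c00])
    (fun i => rfl) hb (fun i => X i i0) (w := fun _ => volume.real D / N)
    (fun _ => by positivity) t η
  have e : ∑ _i : Fin N, volume.real D / N = volume.real D := by simp; field_simp
  rw [e] at h2
  exact h1.le.trans h2

/-- the four test balls -/
def tb (i0 : Fin d) (j : Fin 4) : Set (Sp d) :=
  Metric.closedBall (ctr j • EuclideanSpace.single i0 (1:ℝ)) (1/4)

theorem low_fixed (hd : 1 ≤ d) (hθ : Bump θ) (hε : 0 < ε) (hμ0 : 0 ≤ μ)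
    (hω : IsField (gA A i0) θ μ ε P ω) (hb : 0 ≤ b)
    (hb2 : b^2 = μ * (A * hat θ (ε • EuclideanSpace.single i0 (1:ℝ)))) {N : ℕ} (hN : 0 < N)
    (D : Set (Sp d)) (X : Fin N → Sp d) {v : ℝ} (hv : 0 < v) (m1 : ℝ) :
    P.real {w | emp (fm D ω) w X < Real.exp (-b^2/2 + b * (m1/2)) * (v/2)}
      ≤ (γ.prod γ).real {z | mx z < m1} +
        ∑ j, 4 / v^2 * dev (fun _ => volume.real D / N) (cmat θ μ ε X) v (inS (tb i0 j) X) := by
  have h1 := transfer hd hθ hε hμ0 hω hb2 D X
    (T := Iio (Real.exp (-b^2/2 + b * (m1/2)) * (v/2))) measurableSet_Iio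
  have hN' : (0:ℝ) < N := by exact_mod_cast hN
  have h2 := est_low (ι := Fin N) (C := cmat θ μ ε X) (m := mvec N θ μ ε b) (b := b)
    (c0 := c00 θ μ ε) (psd hd hθ hε hμ0 X) (fun i => by simp [cmat, c00])
    (fun i => rfl) hb (fun i => X i i0) (w := fun _ => volume.real D / N)
    (fun _ => by positivity) (fun j => inS (tb i0 j) X) (fun j i hi => ?_) hv m1
  · exact h1.le.trans h2
  · have hmem : X i ∈ tb i0 j := by
      classical
      unfold inS at hi
      exact (Finset.mem_filter.mp hi).2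
    unfold tb at hmem
    rw [Metric.mem_closedBall, dist_eq_norm] at hmem
    have h3 := PiLp.norm_apply_le (X i - ctr j • EuclideanSpace.single i0 (1:ℝ)) i0
    have h4 : (X i - ctr j • EuclideanSpace.single i0 (1:ℝ)) i0 = X i i0 - ctr j := by
      simp
    rw [h4, Real.norm_eq_abs] at h3
    exact h3.trans hmem

/-! ### second moment and the passage from samples to the integral -/

theorem exp_sq_moment (hd : 1 ≤ d) (hθ : Bump θ) (hε : 0 < ε)
    (hω : IsField (gA A i0) θ μ ε P ω)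
    (hb2 : b^2 = μ * (A * hat θ (ε • EuclideanSpace.single i0 (1:ℝ)))) (x : Sp d) :
    Integrable (fun w => (Real.exp (ω x w))^2) P ∧
    ∫ w, (Real.exp (ω x w))^2 ∂P = Real.exp (c00 θ μ ε + b^2) := by
  have hG := hω.gauss.hasGaussianLaw_eval x
  have hmap := hG.map_eq_gaussianReal
  rw [field_mean hd hθ hε hω hb2 x, field_var hd hθ hε hω hb2 x] at hmap
  have hv : 0 ≤ c00 θ μ ε + b^2 := by
    rw [← field_var hd hθ hε hω hb2 x]; exact variance_nonneg _ _
  have hmgf := mgf_gaussianReal hmap 2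
  rw [mgf, Real.coe_toNNReal _ hv] at hmgf
  have e : ∀ w, Real.exp (2 * ω x w) = (Real.exp (ω x w))^2 := by
    intro w
    rw [← Real.exp_nat_mul]
    norm_num
  simp_rw [e] at hmgf
  have e2 : -(c00 θ μ ε + b^2)/2 * 2 + (c00 θ μ ε + b^2) * 2^2/2 = c00 θ μ ε + b^2 := by ring
  rw [e2] at hmgf
  refine ⟨?_, hmgf⟩
  by_contra h
  rw [integral_undef h] at hmgf
  exact (Real.exp_pos _).ne hmgf

theorem fm_sq (hd : 1 ≤ d) (hθ : Bump θ) (hε : 0 < ε)
    (hω : IsField (gA A i0) θ μ ε P ω)
    (hb2 : b^2 = μ * (A * hat θ (ε • EuclideanSpace.single i0 (1:ℝ))))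
    {D : Set (Sp d)} (h0 : volume D ≠ 0) (hf : volume D ≠ ⊤) :
    Integrable (fun p : Ω × Sp d => (fm D ω p.2 p.1)^2) (P.prod (unif D)) := by
  have := unif_prob h0 hf
  have hm := fm_measurable hω D
  have hm2 : Measurable fun p : Ω × Sp d => (fm D ω p.2 p.1)^2 :=
    (hm.comp measurable_swap).pow_const 2
  rw [integrable_prod_iff' hm2.aestronglyMeasurable]
  have hmom := fun x => exp_sq_moment hd hθ hε hω hb2 x
  constructor
  · refine ae_of_all _ fun x => ?_
    unfold fm
    simp_rw [mul_pow]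
    exact (hmom x).1.const_mul _
  · have e : ∀ x, ∫ w, ‖(fm D ω x w)^2‖ ∂P
        = (volume.real D)^2 * Real.exp (c00 θ μ ε + b^2) := by
      intro x
      unfold fm
      have : ∀ w, ‖(volume.real D * Real.exp (ω x w))^2‖
          = (volume.real D)^2 * (Real.exp (ω x w))^2 := by
        intro w
        rw [Real.norm_eq_abs, abs_of_nonneg (by positivity)]; ring
      simp_rw [this]
      rw [integral_const_mul, (hmom x).2]
    simp only
    simp_rw [e]
    exact integrable_const _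

/-- the total mass -/
def mass (D : Set (Sp d)) (ω : Sp d → Ω → ℝ) (w : Ω) : ℝ := ∫ x in D, (1:ℝ) * Real.exp (ω x w)

theorem mass_eq {D : Set (Sp d)} (h0 : volume D ≠ 0) (hf : volume D ≠ ⊤) (w : Ω) :
    ∫ x, fm D ω x w ∂(unif D) = mass D ω w := by
  have hV : 0 < volume.real D := ENNReal.toReal_pos h0 hf
  rw [unif_int]
  unfold fm mass
  rw [integral_const_mul]
  simp_rw [one_mul]
  field_simp

theorem mass_measurable (hω : IsField (gA A i0) θ μ ε P ω) (D : Set (Sp d)) :
    Measurable (mass D ω) := by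
  unfold mass
  have h1 : Measurable fun p : Ω × Sp d => (1:ℝ) * Real.exp (ω p.2 p.1) := by
    have := hω.meas
    exact measurable_const.mul (this.comp measurable_swap).exp
  have h : StronglyMeasurable (Function.uncurry fun (w : Ω) (x : Sp d) =>
      (1:ℝ) * Real.exp (ω x w)) := h1.stronglyMeasurable
  exact (h.integral_prod_right (ν := volume.restrict D)).measurable

theorem tend_zero (K : ℝ) {δ : ℝ} (hδ : 0 < δ) :
    Tendsto (fun n : ℕ => (1/(((n+1 : ℕ):ℝ) * δ^2)) * K) atTop (𝓝 0) := by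
  have h1 : Tendsto (fun n : ℕ => 1 / ((n:ℝ) + 1)) atTop (𝓝 0) := tendsto_one_div_add_atTop_nhds_zero_nat
  have h2 := h1.mul_const ((1/δ^2) * K)
  rw [zero_mul] at h2
  refine h2.congr fun n => ?_
  push_cast
  field_simp

theorem up_field (hd : 1 ≤ d) (hθ : Bump θ) (hε : 0 < ε) (hμ0 : 0 ≤ μ)
    (hω : IsField (gA A i0) θ μ ε P ω) (hb : 0 ≤ b)
    (hb2 : b^2 = μ * (A * hat θ (ε • EuclideanSpace.single i0 (1:ℝ))))
    {D : Set (Sp d)} (h0 : volume D ≠ 0) (hf : volume D ≠ ⊤) (t η : ℝ) {c : ℝ}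
    (hc : Real.exp (-b^2/2 + b * (t + η)) < c) :
    P.real {w | c < mass D ω w}
      ≤ (γ.prod γ).real {z | t < 2 * mx z} + volume.real D * Real.exp (-(b * η)) := by
  have := unif_prob h0 hf
  set T := Real.exp (-b^2/2 + b * (t + η)) with hT
  set δ := c - T with hδ
  have hδ0 : 0 < δ := by linarith
  have hfm := fm_measurable hω D
  have hint := fm_sq hd hθ hε hω hb2 h0 hf
  set K := ∫ p, (fm D ω p.2 p.1)^2 ∂(P.prod (unif D)) with hK
  set R := (γ.prod γ).real {z | t < 2 * mx z} + volume.real D * Real.exp (-(b * η)) with hR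
  have hstep : ∀ n : ℕ, P.real {w | c < mass D ω w} ≤ R + (1/(((n+1 : ℕ):ℝ) * δ^2)) * K := by
    intro n
    have hN : 0 < n + 1 := Nat.succ_pos n
    have hs := sampling hN P (unif D) hfm hint hδ0
    simp_rw [mass_eq h0 hf] at hs
    have e1 : P.real {w | c < mass D ω w}
        = (P.prod (smp (n+1) (unif D))).real ({w | c < mass D ω w} ×ˢ univ) := by
      rw [measureReal_prod_prod]; simp
    have hmem : MeasurableSet {p : Ω × (Fin (n+1) → Sp d) | T < emp (fm D ω) p.1 p.2} :=
      measurableSet_lt measurable_const (emp_measurable hfm)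
    have e2 : (P.prod (smp (n+1) (unif D))).real
        {p : Ω × (Fin (n+1) → Sp d) | T < emp (fm D ω) p.1 p.2} ≤ R := by
      rw [prod_real_eq P _ hmem]
      calc ∫ X, P.real {w | (w, X) ∈ {p : Ω × (Fin (n+1) → Sp d) | T < emp (fm D ω) p.1 p.2}}
            ∂(smp (n+1) (unif D)) ≤ ∫ _X, R ∂(smp (n+1) (unif D)) := by
            refine integral_mono_of_nonneg (ae_of_all _ fun X => measureReal_nonneg)
              (integrable_const _) (ae_of_all _ fun X => ?_)
            exact up_fixed hd hθ hε hμ0 hω hb hb2 hN D X t η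
        _ = R := by simp
    rw [e1]
    calc _ ≤ (P.prod (smp (n+1) (unif D))).real
          ({p : Ω × (Fin (n+1) → Sp d) | T < emp (fm D ω) p.1 p.2} ∪
            {p | δ ≤ |emp (fm D ω) p.1 p.2 - mass D ω p.1|}) := by
          refine measureReal_mono ?_
          rintro ⟨w, X⟩ hp
          have hp1 : c < mass D ω w := hp.1
          by_contra hcon
          simp only [mem_union, mem_ofPred_eq, not_or, not_lt, not_le] at hcon
          obtain ⟨h1, h2⟩ := hcon
          have := (abs_lt.mp h2).1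
          linarith
      _ ≤ _ := measureReal_union_le _ _
      _ ≤ _ := add_le_add e2 hs
  have hl := (tend_zero K hδ0).const_add R
  rw [add_zero] at hl
  exact ge_of_tendsto' hl hstep

theorem tb_volume (i0 : Fin d) (j : Fin 4) :
    volume.real (tb i0 j) = volume.real (Metric.closedBall (0 : Sp d) (1/4)) := by
  unfold tb
  rw [measureReal_def, measureReal_def, Measure.addHaar_closedBall_center]

theorem tb_subset (i0 : Fin d) (j : Fin 4) : tb i0 j ⊆ Metric.closedBall (0 : Sp d) 4 := by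
  unfold tb
  apply Metric.closedBall_subset_closedBall'
  rw [dist_zero_right, norm_smul, PiLp.norm_single]
  have hpi := Real.pi_le_four
  have hpi2 : Real.pi < 3.15 := Real.pi_lt_d2
  have hpi0 := Real.pi_pos
  have : ‖ctr j‖ ≤ Real.pi := by
    fin_cases j
    · simp [ctr, hpi0.le]
    · simp only [ctr, Real.norm_eq_abs]
      show |Real.pi / 2| ≤ Real.pi
      rw [abs_of_pos (by positivity)]; linarith
    · simp only [ctr, Real.norm_eq_abs]
      show |Real.pi| ≤ Real.pi
      rw [abs_of_pos hpi0]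
    · simp only [ctr, Real.norm_eq_abs]
      show |-(Real.pi / 2)| ≤ Real.pi
      rw [abs_neg, abs_of_pos (by positivity)]; linarith
  rw [norm_one, mul_one]
  linarith

/-- the error constant -/
def cst (d : ℕ) : ℝ :=
  4 * (4 / (volume.real (Metric.closedBall (0 : Sp d) (1/4)))^2 *
    (2 * (volume.real (Metric.closedBall (0 : Sp d) (1/4)) *
      (volume.real (Metric.closedBall (0 : Sp d) (1/4)) + kap d))))

theorem vol_pos (r : ℝ) (hr : 0 < r) : 0 < volume.real (Metric.closedBall (0 : Sp d) r) :=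
  ENNReal.toReal_pos (Metric.measure_closedBall_pos volume 0 hr).ne'
    measure_closedBall_lt_top.ne

theorem cst_nonneg : 0 ≤ cst d := by
  have h := vol_pos (d := d) (1/4) (by norm_num)
  have := kap_nonneg (d := d)
  unfold cst
  positivity

theorem low_field (hd : 1 ≤ d) (hθ : Bump θ) (hε : 0 < ε) (hμ0 : 0 ≤ μ) (hμ1 : μ ≤ 1/2)
    (hω : IsField (gA A i0) θ μ ε P ω) (hb : 0 ≤ b)
    (hb2 : b^2 = μ * (A * hat θ (ε • EuclideanSpace.single i0 (1:ℝ)))) (m1 : ℝ) {c : ℝ}
    (hc : c < Real.exp (-b^2/2 + b * (m1/2)) *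
      (volume.real (Metric.closedBall (0 : Sp d) (1/4)) / 2)) :
    P.real {w | mass (Metric.closedBall (0 : Sp d) 4) ω w < c}
      ≤ (γ.prod γ).real {z | mx z < m1} + μ * cst d := by
  set D := Metric.closedBall (0 : Sp d) 4 with hD
  have h0 : volume D ≠ 0 := (Metric.measure_closedBall_pos volume 0 (by norm_num)).ne'
  have hf : volume D ≠ ⊤ := measure_closedBall_lt_top.ne
  have := unif_prob h0 hf
  set v := volume.real (Metric.closedBall (0 : Sp d) (1/4)) with hv
  have hv0 : 0 < v := vol_pos (1/4) (by norm_num)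
  set T := Real.exp (-b^2/2 + b * (m1/2)) * (v/2) with hT
  set δ := T - c with hδ
  have hδ0 : 0 < δ := by linarith
  have hfm := fm_measurable hω D
  have hint := fm_sq hd hθ hε hω hb2 h0 hf
  obtain ⟨B0, hB0⟩ := cm_g0_bound hd hθ hε
  set K := ∫ p, (fm D ω p.2 p.1)^2 ∂(P.prod (unif D)) with hK
  set R := (γ.prod γ).real {z | mx z < m1} + μ * cst d with hR
  set K2 := 4 * (4 / v^2 * ((volume.real D)^2 * Real.exp (μ * B0))) with hK2
  have hstep : ∀ n : ℕ, P.real {w | mass D ω w < c}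
      ≤ R + ((1/(((n+1 : ℕ):ℝ) * 1^2)) * K2 + (1/(((n+1 : ℕ):ℝ) * δ^2)) * K) := by
    intro n
    have hN : 0 < n + 1 := Nat.succ_pos n
    have hN' : (0:ℝ) < ((n+1 : ℕ):ℝ) := by exact_mod_cast hN
    have hs := sampling hN P (unif D) hfm hint hδ0
    simp_rw [mass_eq h0 hf] at hs
    have e1 : P.real {w | mass D ω w < c}
        = (P.prod (smp (n+1) (unif D))).real ({w | mass D ω w < c} ×ˢ univ) := by
      rw [measureReal_prod_prod]; simp
    have hmem : MeasurableSet {p : Ω × (Fin (n+1) → Sp d) | emp (fm D ω) p.1 p.2 < T} :=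
      measurableSet_lt (emp_measurable hfm) measurable_const
    have hdev := fun j : Fin 4 => dev_integral (N := n+1) hd hθ hε hμ0 hμ1 hB0 h0 hf
      (S := tb i0 j) (Metric.isClosed_closedBall.measurableSet) (tb_subset i0 j) hN
    simp_rw [tb_volume, ← hv] at hdev
    have e2 : (P.prod (smp (n+1) (unif D))).real
        {p : Ω × (Fin (n+1) → Sp d) | emp (fm D ω) p.1 p.2 < T}
          ≤ R + (1/(((n+1 : ℕ):ℝ) * 1^2)) * K2 := by
      rw [prod_real_eq P _ hmem]
      have hi : Integrable (fun X : Fin (n+1) → Sp d => (γ.prod γ).real {z | mx z < m1} +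
          ∑ j, 4 / v^2 * dev (fun _ => volume.real D / ((n+1 : ℕ):ℝ)) (cmat θ μ ε X) v
            (inS (tb i0 j) X)) (smp (n+1) (unif D)) :=
        (integrable_const _).add (integrable_finsetSum _ fun j _ => ((hdev j).1).const_mul _)
      calc ∫ X, P.real {w | (w, X) ∈ {p : Ω × (Fin (n+1) → Sp d) | emp (fm D ω) p.1 p.2 < T}}
            ∂(smp (n+1) (unif D))
          ≤ ∫ X, ((γ.prod γ).real {z | mx z < m1} +
            ∑ j, 4 / v^2 * dev (fun _ => volume.real D / ((n+1 : ℕ):ℝ)) (cmat θ μ ε X) v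
            (inS (tb i0 j) X)) ∂(smp (n+1) (unif D)) := by
            refine integral_mono_of_nonneg (ae_of_all _ fun X => measureReal_nonneg)
              hi (ae_of_all _ fun X => ?_)
            exact low_fixed hd hθ hε hμ0 hω hb hb2 hN D X hv0 m1
        _ = (γ.prod γ).real {z | mx z < m1} +
            ∑ j : Fin 4, 4 / v^2 * ∫ X, dev (fun _ => volume.real D / ((n+1 : ℕ):ℝ))
              (cmat θ μ ε X) v (inS (tb i0 j) X) ∂(smp (n+1) (unif D)) := by
            rw [integral_add (integrable_const _)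
              (integrable_finsetSum _ fun j _ => ((hdev j).1).const_mul _),
              integral_finsetSum _ fun j _ => ((hdev j).1).const_mul _]
            simp_rw [integral_const_mul]
            simp
        _ ≤ (γ.prod γ).real {z | mx z < m1} +
            ∑ _j : Fin 4, 4 / v^2 * (2 * μ * (v * (v + kap d))
              + (volume.real D)^2 * Real.exp (μ * B0) / ((n+1 : ℕ):ℝ)) := by
            gcongr with j _
            exact (hdev j).2
        _ = _ := by
            rw [hR, hK2, cst, ← hv]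
            simp only [Finset.sum_const, Finset.card_univ, Fintype.card_fin, nsmul_eq_mul]
            push_cast
            field_simp
            ring
    rw [e1]
    calc _ ≤ (P.prod (smp (n+1) (unif D))).real
          ({p : Ω × (Fin (n+1) → Sp d) | emp (fm D ω) p.1 p.2 < T} ∪
            {p | δ ≤ |emp (fm D ω) p.1 p.2 - mass D ω p.1|}) := by
          refine measureReal_mono ?_
          rintro ⟨w, X⟩ hp
          have hp1 : mass D ω w < c := hp.1
          by_contra hcon
          simp only [mem_union, mem_ofPred_eq, not_or, not_lt, not_le] at hcon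
          obtain ⟨h1, h2⟩ := hcon
          have := (abs_lt.mp h2).2
          linarith
      _ ≤ _ := measureReal_union_le _ _
      _ ≤ _ := add_le_add e2 hs
      _ = _ := by ring
  have hl := ((tend_zero K2 one_pos).add (tend_zero K hδ0)).const_add R
  rw [add_zero, add_zero] at hl
  exact ge_of_tendsto' hl hstep

end

end Pool.Agent.H528R3.Gmc
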