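import Mathlib
import Pool.Agent.H528R3.GmcI

/-!
Limit law and choice of parameters.
-/

set_option autoImplicit false
set_option linter.unusedSectionVars false

namespace Pool.Agent.H528R3.Gmc

open MeasureTheory ProbabilityTheory Set Filter Topology WithLp
open scoped RealInnerProductSpace

noncomputable section

/-! ### two-dimensional Gaussian facts -/

theorem gauss_tail {u : ℝ} (hu : 0 ≤ u) : γ.real {x | u ≤ x} ≤ Real.exp (-(u^2/2)) := by
  have hint : Integrable (fun x : ℝ => Real.exp (u * id x)) γ := by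
    have h : mgf id γ u = Real.exp (0 * u + 1 * u^2/2) := by
      rw [mgf_id_gaussianReal]; simp
    by_contra hcon
    rw [mgf, integral_undef hcon] at h
    exact (Real.exp_pos _).ne h
  have h := measure_ge_le_exp_mul_mgf (μ := γ) (X := id) (t := u) u hu hint
  rw [mgf_id_gaussianReal, ← Real.exp_add] at h
  refine (le_of_eq ?_).trans (h.trans (le_of_eq ?_))
  · rfl
  · congr 1
    push_cast
    ring

theorem gauss_tail' {u : ℝ} (hu : 0 ≤ u) : γ.real {x | x ≤ -u} ≤ Real.exp (-(u^2/2)) := by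
  have hint : Integrable (fun x : ℝ => Real.exp (-u * id x)) γ := by
    have h : mgf id γ (-u) = Real.exp (0 * (-u) + 1 * (-u)^2/2) := by
      rw [mgf_id_gaussianReal]; simp
    by_contra hcon
    rw [mgf, integral_undef hcon] at h
    exact (Real.exp_pos _).ne h
  have h := measure_le_le_exp_mul_mgf (μ := γ) (X := id) (t := -u) (-u) (by linarith) hint
  rw [mgf_id_gaussianReal, ← Real.exp_add] at h
  refine (le_of_eq ?_).trans (h.trans (le_of_eq ?_))
  · rfl
  · congr 1
    push_cast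
    ring

theorem γ2_fst (S : Set ℝ) : (γ.prod γ).real {z | z.1 ∈ S} = γ.real S := by
  have e : {z : ℝ × ℝ | z.1 ∈ S} = S ×ˢ univ := by ext z; simp
  rw [e, measureReal_prod_prod]; simp

theorem γ2_snd (S : Set ℝ) : (γ.prod γ).real {z | z.2 ∈ S} = γ.real S := by
  have e : {z : ℝ × ℝ | z.2 ∈ S} = univ ×ˢ S := by ext z; simp
  rw [e, measureReal_prod_prod]; simp

theorem mx_tail {t : ℝ} (ht : 0 ≤ t) :
    (γ.prod γ).real {z | t < 2 * mx z} ≤ 4 * Real.exp (-(t^2/8)) := by
  have hsub : {z : ℝ × ℝ | t < 2 * mx z} ⊆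
      (({z | z.1 ∈ {x : ℝ | t/2 ≤ x}} ∪ {z | z.1 ∈ {x : ℝ | x ≤ -(t/2)}}) ∪
      ({z | z.2 ∈ {x : ℝ | t/2 ≤ x}} ∪ {z | z.2 ∈ {x : ℝ | x ≤ -(t/2)}})) := by
    intro z hz
    simp only [mem_ofPred_eq] at hz
    have hz2 : t/2 < max |z.1| |z.2| := by
      have : t < 2 * max |z.1| |z.2| := hz
      linarith
    rcases lt_max_iff.mp hz2 with h | h
    · left
      rcases le_total 0 z.1 with h0 | h0
      · left; rw [abs_of_nonneg h0] at h; exact h.le
      · right; rw [abs_of_nonpos h0] at h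
        show z.1 ≤ -(t/2)
        linarith
    · right
      rcases le_total 0 z.2 with h0 | h0
      · left; rw [abs_of_nonneg h0] at h; exact h.le
      · right; rw [abs_of_nonpos h0] at h
        show z.2 ≤ -(t/2)
        linarith
  have h1 := gauss_tail (u := t/2) (by linarith)
  have h2 := gauss_tail' (u := t/2) (by linarith)
  have e : (t/2)^2/2 = t^2/8 := by ring
  rw [e] at h1 h2
  calc _ ≤ _ := measureReal_mono hsub
    _ ≤ _ := measureReal_union_le _ _
    _ ≤ _ := add_le_add (measureReal_union_le _ _) (measureReal_union_le _ _)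
    _ ≤ _ := by
      rw [γ2_fst, γ2_fst, γ2_snd, γ2_snd]
      linarith

theorem γ_Icc_pos {a b : ℝ} (hab : a < b) : 0 < γ.real (Icc a b) := by
  apply ENNReal.toReal_pos _ (measure_ne_top _ _)
  intro h
  have := gaussianReal_absolutelyContinuous' 0 (v := 1) one_ne_zero h
  rw [Real.volume_Icc] at this
  simp at this
  linarith

theorem P1_pos : 0 < (γ.prod γ).real {z | 2 * mx z ≤ 1/2} := by
  have hsub : Icc (-(1/4):ℝ) (1/4) ×ˢ Icc (-(1/4):ℝ) (1/4) ⊆ {z : ℝ × ℝ | 2 * mx z ≤ 1/2} := by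
    rintro ⟨x, y⟩ ⟨hx, hy⟩
    have h1 : |x| ≤ 1/4 := abs_le.mpr hx
    have h2 : |y| ≤ 1/4 := abs_le.mpr hy
    have h3 : mx (x, y) ≤ 1/4 := max_le h1 h2
    show 2 * mx (x, y) ≤ 1/2
    linarith
  have h := measureReal_mono hsub (μ := γ.prod γ)
  rw [measureReal_prod_prod] at h
  have := γ_Icc_pos (a := -(1/4)) (b := 1/4) (by norm_num)
  exact lt_of_lt_of_le (mul_pos this this) h

theorem P2_pos : 0 < (γ.prod γ).real {z | 6 ≤ mx z} := by
  have hsub : Icc (6:ℝ) 7 ×ˢ Icc (6:ℝ) 7 ⊆ {z : ℝ × ℝ | 6 ≤ mx z} := by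
    rintro ⟨x, y⟩ ⟨hx, hy⟩
    show 6 ≤ mx (x, y)
    exact le_max_of_le_left (hx.1.trans (le_abs_self x))
  have h := measureReal_mono hsub (μ := γ.prod γ)
  rw [measureReal_prod_prod] at h
  have := γ_Icc_pos (a := 6) (b := 7) (by norm_num)
  exact lt_of_lt_of_le (mul_pos this this) h

/-! ### passing to the limit -/

theorem limit_open {Λ : ℕ → ProbabilityMeasure ℝ} {ρ : ProbabilityMeasure ℝ}
    (h : Tendsto Λ atTop (𝓝 ρ)) {G : Set ℝ} (hG : IsOpen G) {r : ℕ → ℝ} {r0 : ℝ}
    (hr : Tendsto r atTop (𝓝 r0)) (hle : ∀ᶠ k in atTop, (Λ k : Measure ℝ).real G ≤ r k) :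
    (ρ : Measure ℝ).real G ≤ r0 := by
  have h1 := ProbabilityMeasure.le_liminf_measure_open_of_tendsto h hG
  have h2 : atTop.liminf (fun k => (Λ k : Measure ℝ) G) ≤ ENNReal.ofReal r0 := by
    have h3 : Tendsto (fun k => ENNReal.ofReal (r k)) atTop (𝓝 (ENNReal.ofReal r0)) :=
      ENNReal.tendsto_ofReal hr
    rw [← h3.liminf_eq]
    refine liminf_le_liminf ?_
    filter_upwards [hle] with k hk
    have e : (Λ k : Measure ℝ) G = ENNReal.ofReal ((Λ k : Measure ℝ).real G) := by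
      rw [ofReal_measureReal]
    rw [e]
    exact ENNReal.ofReal_le_ofReal hk
  have hr0 : 0 ≤ r0 := by
    refine ge_of_tendsto hr ?_
    filter_upwards [hle] with k hk
    exact measureReal_nonneg.trans hk
  have h4 := h1.trans h2
  calc (ρ : Measure ℝ).real G ≤ (ENNReal.ofReal r0).toReal :=
        ENNReal.toReal_mono ENNReal.ofReal_ne_top h4
    _ = r0 := ENNReal.toReal_ofReal hr0

section limit

variable {d : ℕ} {θ : Sp d → ℝ} {μ A : ℝ} {i0 : Fin d}

/-- the reference ball -/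
abbrev DD (d : ℕ) : Set (Sp d) := Metric.closedBall (0 : Sp d) 4

theorem rho_up (hd : 1 ≤ d) (hθ : Bump θ) (hμ0 : 0 < μ) (hA : 0 ≤ A)
    {ρ : ProbabilityMeasure ℝ}
    (hρ : IsLimitLaw (gA A i0) θ μ (DD d) (fun _ => 1) ρ) {B : ℝ} (hB : 0 ≤ B)
    (hB2 : B^2 = μ * A) (t η : ℝ) {c : ℝ} (hc : Real.exp (-B^2/2 + B * (t + η)) < c) :
    (ρ : Measure ℝ).real (Ioi c)
      ≤ (γ.prod γ).real {z | t < 2 * mx z} + volume.real (DD d) * Real.exp (-(B * η)) := by
  obtain ⟨ε, Λ, hε, hε0, hmass, hconv⟩ := hρ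
  have h0 : volume (DD d) ≠ 0 := (Metric.measure_closedBall_pos volume 0 (by norm_num)).ne'
  have hf : volume (DD d) ≠ ⊤ := measure_closedBall_lt_top.ne
  set h : ℕ → ℝ := fun k => hat θ (ε k • EuclideanSpace.single i0 (1:ℝ)) with hh
  have hlim : Tendsto h atTop (𝓝 1) := hat_tendsto hθ _ hε0
  set b : ℕ → ℝ := fun k => B * Real.sqrt (h k) with hb
  have hbn : ∀ k, 0 ≤ b k := fun k => mul_nonneg hB (Real.sqrt_nonneg _)
  have hb2 : ∀ k, (b k)^2 = μ * (A * h k) := by
    intro k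
    rw [hb]
    simp only
    rw [mul_pow, Real.sq_sqrt (hat_nonneg hθ _), hB2]; ring
  have hblim : Tendsto b atTop (𝓝 B) := by
    have h1 : Tendsto (fun k => B * Real.sqrt (h k)) atTop (𝓝 (B * Real.sqrt 1)) :=
      ((Real.continuous_sqrt.tendsto 1).comp hlim).const_mul B
    simpa using h1
  have hev : ∀ᶠ k in atTop, Real.exp (-(b k)^2/2 + b k * (t + η)) < c := by
    have hcont : Continuous fun y : ℝ => Real.exp (-y^2/2 + y * (t + η)) := by fun_prop
    exact ((hcont.tendsto B).comp hblim).eventually (eventually_lt_nhds hc)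
  have hrlim : Tendsto (fun k => (γ.prod γ).real {z | t < 2 * mx z}
      + volume.real (DD d) * Real.exp (-(b k * η))) atTop
      (𝓝 ((γ.prod γ).real {z | t < 2 * mx z} + volume.real (DD d) * Real.exp (-(B * η)))) := by
    have hcont : Continuous fun y : ℝ => (γ.prod γ).real {z | t < 2 * mx z}
      + volume.real (DD d) * Real.exp (-(y * η)) := by fun_prop
    exact (hcont.tendsto B).comp hblim
  refine limit_open hconv isOpen_Ioi hrlim ?_
  filter_upwards [hev] with k hk
  obtain ⟨Ω, mΩ, P, hP, ω, hω, hΛ⟩ := hmass k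
  rw [hΛ]
  have hm := mass_measurable hω (DD d)
  have hm' : Measurable (fun w => ∫ x in DD d, (fun _ => (1:ℝ)) x * Real.exp (ω x w)) := hm
  rw [map_measureReal_apply hm' measurableSet_Ioi]
  exact up_field hd hθ (hε k) hμ0.le hω (hbn k) (hb2 k) h0 hf t η hk

theorem rho_low (hd : 1 ≤ d) (hθ : Bump θ) (hμ0 : 0 < μ) (hμ1 : μ ≤ 1/2) (hA : 0 ≤ A)
    {ρ : ProbabilityMeasure ℝ}
    (hρ : IsLimitLaw (gA A i0) θ μ (DD d) (fun _ => 1) ρ) {B : ℝ} (hB : 0 ≤ B)
    (hB2 : B^2 = μ * A) (m1 : ℝ) {c : ℝ} (hc : c < Real.exp (-B^2/2 + B * (m1/2)) *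
      (volume.real (Metric.closedBall (0 : Sp d) (1/4)) / 2)) :
    (ρ : Measure ℝ).real (Iio c) ≤ (γ.prod γ).real {z | mx z < m1} + μ * cst d := by
  obtain ⟨ε, Λ, hε, hε0, hmass, hconv⟩ := hρ
  set h : ℕ → ℝ := fun k => hat θ (ε k • EuclideanSpace.single i0 (1:ℝ)) with hh
  have hlim : Tendsto h atTop (𝓝 1) := hat_tendsto hθ _ hε0
  set b : ℕ → ℝ := fun k => B * Real.sqrt (h k) with hb
  have hbn : ∀ k, 0 ≤ b k := fun k => mul_nonneg hB (Real.sqrt_nonneg _)
  have hb2 : ∀ k, (b k)^2 = μ * (A * h k) := by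
    intro k
    rw [hb]
    simp only
    rw [mul_pow, Real.sq_sqrt (hat_nonneg hθ _), hB2]; ring
  have hblim : Tendsto b atTop (𝓝 B) := by
    have h1 : Tendsto (fun k => B * Real.sqrt (h k)) atTop (𝓝 (B * Real.sqrt 1)) :=
      ((Real.continuous_sqrt.tendsto 1).comp hlim).const_mul B
    simpa using h1
  have hev : ∀ᶠ k in atTop, c < Real.exp (-(b k)^2/2 + b k * (m1/2)) *
      (volume.real (Metric.closedBall (0 : Sp d) (1/4)) / 2) := by
    have hcont : Continuous fun y : ℝ => Real.exp (-y^2/2 + y * (m1/2)) *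
      (volume.real (Metric.closedBall (0 : Sp d) (1/4)) / 2) := by fun_prop
    exact ((hcont.tendsto B).comp hblim).eventually (eventually_gt_nhds hc)
  refine limit_open hconv isOpen_Iio (tendsto_const_nhds) ?_
  filter_upwards [hev] with k hk
  obtain ⟨Ω, mΩ, P, hP, ω, hω, hΛ⟩ := hmass k
  rw [hΛ]
  have hm := mass_measurable hω (DD d)
  have hm' : Measurable (fun w => ∫ x in DD d, (fun _ => (1:ℝ)) x * Real.exp (ω x w)) := hm
  rw [map_measureReal_apply hm' measurableSet_Iio]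
  exact low_field hd hθ (hε k) hμ0.le hμ1 hω (hbn k) (hb2 k) m1 hk

end limit

/-! ### affine change of variables for sums of independent variables -/

theorem sumLaw_affine {n : ℕ} (hn : 0 < n) (ν : Measure ℝ) [IsProbabilityMeasure ν] (a c : ℝ) :
    sumLaw n (ν.map fun y => y * a + c / n) = (sumLaw n ν).map fun y => y * a + c := by
  have hn' : (0:ℝ) < n := by exact_mod_cast hn
  have hm : Measurable fun y : ℝ => y * a + c / n := by fun_prop
  have hm2 : Measurable fun y : ℝ => y * a + c := by fun_prop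
  have : IsProbabilityMeasure (ν.map fun y => y * a + c / n) :=
    Measure.isProbabilityMeasure_map hm.aemeasurable
  have h := Measure.pi_map_pi (μ := fun _ : Fin n => ν) (f := fun _ : Fin n => fun y : ℝ => y * a + c / n)
    (fun _ => hm.aemeasurable)
  unfold sumLaw
  rw [← h, Measure.map_map (sum_measurable n) (by fun_prop), Measure.map_map hm2 (sum_measurable n)]
  congr 1
  ext x
  simp only [Function.comp]
  rw [Finset.sum_add_distrib, Finset.sum_mul]
  simp
  field_simp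

end

end Pool.Agent.H528R3.Gmc
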