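import Mathlib
import Pool.Agent.H528R3.GmcJ

/-!
The main theorem.
-/

set_option autoImplicit false
set_option linter.unusedSectionVars false

namespace Pool.Agent.H528R3.Gmc

open MeasureTheory ProbabilityTheory Set Filter Topology WithLp
open scoped RealInnerProductSpace

noncomputable section

theorem exists_n {p s : ℝ} (hp : 0 < p) (hs : 0 < s) :
    ∃ n : ℕ, 2 ≤ n ∧ 4 * Real.exp (-((n * s - s)^2/8)) ≤ 1/2 * (p / (2 * n))^n := by
  refine ⟨⌈32768/(p * s^4)⌉₊ + 2, by omega, ?_⟩
  set n : ℕ := ⌈32768/(p * s^4)⌉₊ + 2 with hn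
  have hn2 : (2:ℝ) ≤ n := by rw [hn]; push_cast; linarith [Nat.cast_nonneg (α := ℝ) ⌈32768/(p * s^4)⌉₊]
  have hnb : 32768/(p * s^4) ≤ n := by
    have := Nat.le_ceil (32768/(p * s^4))
    rw [hn]; push_cast; linarith
  have hn0 : (0:ℝ) < n := by linarith
  set y : ℝ := n * s^2 / 32 with hy
  have hy0 : 0 ≤ y := by positivity
  have h1 : 16 * n / p ≤ Real.exp y := by
    have hq := Real.quadratic_le_exp_of_nonneg hy0
    have h2 : 16 * n / p ≤ y^2/2 := by
      rw [div_le_iff₀ (by positivity)] at hnb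
      rw [div_le_iff₀ hp, hy]
      have : (n * s^2/32)^2/2 * p = n * (n * (p * s^4)) / 2048 := by ring
      rw [this]
      have h3 := mul_le_mul_of_nonneg_left hnb hn0.le
      linarith
    linarith
  have h2 : Real.exp (-y) ≤ p / (16 * n) := by
    rw [Real.exp_neg, inv_le_comm₀ (Real.exp_pos _) (by positivity)]
    calc (p / (16 * n))⁻¹ = 16 * n / p := by rw [inv_div]
      _ ≤ _ := h1
  have h3 : Real.exp (-((n * s - s)^2/8)) ≤ (Real.exp (-y))^n := by
    rw [← Real.exp_nat_mul]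
    apply Real.exp_le_exp.mpr
    have h4 : n * s / 2 ≤ n * s - s := by nlinarith
    have h5 : (n * s/2)^2 ≤ (n * s - s)^2 := pow_le_pow_left₀ (by positivity) h4 2
    have h6 : (n:ℝ) * -y = -((n * s/2)^2/8) := by rw [hy]; ring
    rw [h6]
    linarith
  have h4 : (Real.exp (-y))^n ≤ (p / (16 * n))^n := pow_le_pow_left₀ (Real.exp_pos _).le h2 n
  have h5 : (p / (16 * n))^n = (1/8)^n * (p / (2 * n))^n := by
    rw [← mul_pow]; congr 1; field_simp; norm_num
  have h6 : ((1:ℝ)/8)^n ≤ 1/8 := by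
    have hne : n ≠ 0 := by rw [hn]; omega
    exact pow_le_of_le_one (by norm_num) (by norm_num) hne
  have h7 : 0 ≤ (p / (2 * n))^n := by positivity
  calc 4 * Real.exp (-((n * s - s)^2/8)) ≤ 4 * ((1/8)^n * (p / (2 * n))^n) := by
        rw [← h5]; linarith
    _ ≤ 4 * (1/8 * (p / (2 * n))^n) := by
        have := mul_le_mul_of_nonneg_right h6 h7
        linarith
    _ = _ := by ring

theorem exists_B {V κ₁ κ₂ s : ℝ} (hs : 0 < s) (h1 : 0 < κ₁) (h2 : 0 < κ₂) :
    ∃ B : ℝ, 0 < B ∧ V * Real.exp (-(B * (s/2))) ≤ κ₁ ∧ Real.exp (-(B * s)) < κ₂ := by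
  have t1 : Tendsto (fun B : ℝ => V * Real.exp (-(B * (s/2)))) atTop (𝓝 (V * 0)) := by
    apply Tendsto.const_mul
    exact Real.tendsto_exp_neg_atTop_nhds_zero.comp (tendsto_id.atTop_mul_const (by positivity))
  have t2 : Tendsto (fun B : ℝ => Real.exp (-(B * s))) atTop (𝓝 0) :=
    Real.tendsto_exp_neg_atTop_nhds_zero.comp (tendsto_id.atTop_mul_const hs)
  rw [mul_zero] at t1
  have e1 := t1.eventually (eventually_le_nhds h1)
  have e2 := t2.eventually (eventually_lt_nhds h2)
  obtain ⟨B, hB⟩ := ((eventually_gt_atTop (0:ℝ)).and (e1.and e2)).exists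
  exact ⟨B, hB.1, hB.2.1, hB.2.2⟩

theorem main (d : ℕ) (hd : 1 ≤ d) :
    ∃ μ₀ : ℝ, 0 < μ₀ ∧ ∀ μ : ℝ, 0 < μ → μ < μ₀ → μ < 2 * d ∧
      ∃ g : Sp d → ℝ, Admissible g ∧
        ∀ θ : Sp d → ℝ, Bump θ → ∀ ρ : ProbabilityMeasure ℝ,
          IsLimitLaw g θ μ (Metric.closedBall 0 4) (fun _ => 1) ρ →
          ¬ InfDiv ((ρ : Measure ℝ).map Real.log) := by
  set P1 := (γ.prod γ).real {z | 2 * mx z ≤ 1/2} with hP1
  set P2 := (γ.prod γ).real {z | 6 ≤ mx z} with hP2
  have hP1p : 0 < P1 := P1_pos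
  have hP2p : 0 < P2 := P2_pos
  set p : ℝ := min P1 P2 / 4 with hp
  have hp0 : 0 < p := by
    have : 0 < min P1 P2 := lt_min hP1p hP2p
    positivity
  have hpP1 : 4 * p ≤ P1 := by
    have := min_le_left P1 P2
    rw [hp]; linarith
  have hpP2 : 4 * p ≤ P2 := by
    have := min_le_right P1 P2
    rw [hp]; linarith
  have hP1le : P1 ≤ 1 := measureReal_le_one
  have hp1 : p ≤ 1/4 := by linarith
  set s : ℝ := p/48 with hs
  have hs0 : 0 < s := by positivity
  have hs1 : s ≤ 1/4 := by rw [hs]; linarith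
  obtain ⟨n, hn2, hn⟩ := exists_n hp0 hs0
  have hn0 : (0:ℝ) < n := by
    have : 0 < n := by omega
    exact_mod_cast this
  have hnN : 0 < n := by omega
  set α : ℝ := p / (2 * n) with hα
  have hα0 : 0 < α := by positivity
  have hα1 : α ≤ p := by
    rw [hα]
    apply div_le_self hp0.le
    have : (2:ℝ) ≤ n := by exact_mod_cast hn2
    linarith
  have hαn0 : 0 < α^n := by positivity
  have hαnp : α^n ≤ p := by
    calc α^n ≤ α^1 := pow_le_pow_of_le_one hα0.le (by linarith) (by omega)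
      _ = α := pow_one _
      _ ≤ p := hα1
  set V := volume.real (DD d) with hV
  set v := volume.real (Metric.closedBall (0 : Sp d) (1/4)) with hv
  have hV0 : 0 < V := vol_pos 4 (by norm_num)
  have hv0 : 0 < v := vol_pos (1/4) (by norm_num)
  obtain ⟨B, hB0, hB1, hB2⟩ := exists_B (V := V) (κ₁ := α^n/4) (κ₂ := v/2) hs0
    (by positivity) (by positivity)
  have hcst := cst_nonneg (d := d)
  refine ⟨min (1/2) (α^n / (4 * (cst d + 1))), lt_min (by norm_num) (by positivity),
    fun μ hμ0 hμlt => ⟨?_, gA (B^2/μ) ⟨0, hd⟩, gA_admissible hd (by positivity) _,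
      fun θ hθ ρ hρ hdiv => ?_⟩⟩
  · have h1 : μ < 1/2 := hμlt.trans_le (min_le_left _ _)
    have : (1:ℝ) ≤ d := by exact_mod_cast hd
    linarith
  have hμ1 : μ ≤ 1/2 := (hμlt.trans_le (min_le_left _ _)).le
  have hμc : μ * cst d ≤ α^n/4 := by
    have h1 : μ ≤ α^n / (4 * (cst d + 1)) := (hμlt.trans_le (min_le_right _ _)).le
    calc μ * cst d ≤ α^n / (4 * (cst d + 1)) * (cst d + 1) := by
          apply mul_le_mul h1 (by linarith) hcst (by positivity)
      _ = _ := by field_simp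
  have hA : 0 ≤ B^2/μ := by positivity
  have hBA : B^2 = μ * (B^2/μ) := by field_simp
  have up := fun (t η : ℝ) {c : ℝ} (hc : Real.exp (-B^2/2 + B * (t + η)) < c) =>
    rho_up (i0 := ⟨0, hd⟩) hd hθ hμ0 hA hρ hB0.le hBA t η hc
  have low := fun (m1 : ℝ) {c : ℝ} (hc : c < Real.exp (-B^2/2 + B * (m1/2)) *
      (volume.real (Metric.closedBall (0 : Sp d) (1/4)) / 2)) =>
    rho_low (i0 := ⟨0, hd⟩) hd hθ hμ0 hμ1 hA hρ hB0.le hBA m1 hc
  rw [← hV] at up
  rw [← hv] at low
  -- the law of log mass is a sum law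
  obtain ⟨ν₀, hν₀, hρν⟩ := hdiv n (by omega)
  set ν : Measure ℝ := ν₀.map fun y => y * B⁻¹ + (B/2) / n with hν
  have hνm : Measurable fun y : ℝ => y * B⁻¹ + (B/2) / n := by fun_prop
  have hνp : IsProbabilityMeasure ν := Measure.isProbabilityMeasure_map hνm.aemeasurable
  have hsum : sumLaw n ν = (ρ : Measure ℝ).map (fun x => Real.log x * B⁻¹ + B/2) := by
    rw [hν, sumLaw_affine hnN ν₀ B⁻¹ (B/2), ← hρν, Measure.map_map (by fun_prop) Real.measurable_log]
    rfl
  have hUm : Measurable (fun x : ℝ => Real.log x * B⁻¹ + B/2) := by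
    have := Real.measurable_log
    fun_prop
  have hval : ∀ S : Set ℝ, MeasurableSet S → (sumLaw n ν).real S
      = (ρ : Measure ℝ).real {x | Real.log x * B⁻¹ + B/2 ∈ S} := by
    intro S hS
    rw [hsum, map_measureReal_apply hUm hS]
    rfl
  -- lower tail
  have hlowtail : (ρ : Measure ℝ).real (Iio (Real.exp (-B^2/2 - B * s))) ≤ α^n/4 := by
    have hc : Real.exp (-B^2/2 - B * s) < Real.exp (-B^2/2 + B * (0/2)) * (v/2) := by
      have e : Real.exp (-B^2/2 - B * s) = Real.exp (-B^2/2) * Real.exp (-(B * s)) := by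
        rw [← Real.exp_add]; congr 1
      rw [e, zero_div, mul_zero, add_zero]
      exact mul_lt_mul_of_pos_left hB2 (Real.exp_pos _)
    have h := low 0 hc
    have e0 : {z : ℝ × ℝ | mx z < 0} = ∅ := by
      ext z
      simp only [mem_ofPred_eq, mem_empty_iff_false, iff_false, not_lt]
      exact mx_nonneg z
    rw [e0] at h
    simp only [measureReal_empty, zero_add] at h
    exact h.trans hμc
  have key : ∀ {x y : ℝ}, Real.log x * B⁻¹ + B/2 < y → x < Real.exp (B * y - B^2/2) := by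
    intro x y h
    have h1 : Real.log x < B * y - B^2/2 := by
      have h2 : Real.log x * B⁻¹ < y - B/2 := by linarith
      have h3 := mul_lt_mul_of_pos_left h2 hB0
      have e : B * (Real.log x * B⁻¹) = Real.log x := by field_simp
      have e3 : B * (y - B/2) = B * y - B^2/2 := by ring
      rw [e, e3] at h3
      exact h3
    rcases le_or_gt x 0 with hx | hx
    · exact lt_of_le_of_lt hx (Real.exp_pos _)
    · calc x = Real.exp (Real.log x) := (Real.exp_log hx).symm
        _ < _ := Real.exp_lt_exp.mpr h1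
  have key2 : ∀ {x y : ℝ}, y < Real.log x * B⁻¹ + B/2 →
      Real.exp (B * y - B^2/2) < x ∨ x < Real.exp (-B^2/2 - B * s) := by
    intro x y h
    rcases le_or_gt x 0 with hx | hx
    · right; exact lt_of_le_of_lt hx (Real.exp_pos _)
    · left
      have h1 : B * y - B^2/2 < Real.log x := by
        have h2 : y - B/2 < Real.log x * B⁻¹ := by linarith
        have h3 := mul_lt_mul_of_pos_left h2 hB0
        have e : B * (Real.log x * B⁻¹) = Real.log x := by field_simp
        have e3 : B * (y - B/2) = B * y - B^2/2 := by ring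
        rw [e, e3] at h3
        exact h3
      calc Real.exp (B * y - B^2/2) < Real.exp (Real.log x) := Real.exp_lt_exp.mpr h1
        _ = x := Real.exp_log hx
  -- apply the obstruction
  refine not_divisible (p := p) (s := s) (η := s) (α := α) (n := n) hnN hp0 hs0 hs0 hα0.le
    ?_ ?_ ν ?_ ?_ ?_ ?_
  · rw [hα]
    apply le_of_eq
    field_simp
  · rw [hs]; linarith
  · -- lower tail
    rw [hval _ measurableSet_Iio]
    have hsub : {x : ℝ | Real.log x * B⁻¹ + B/2 ∈ Iio (-s)} ⊆ Iio (Real.exp (-B^2/2 - B * s)) := by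
      intro x hx
      have h := key (x := x) (y := -s) hx
      have e : B * -s - B^2/2 = -B^2/2 - B * s := by ring
      rw [e] at h
      exact h
    have := (measureReal_mono hsub (μ := (ρ : Measure ℝ))).trans hlowtail
    linarith
  · -- upper tail
    rw [hval _ measurableSet_Ioi]
    have hsub : {x : ℝ | Real.log x * B⁻¹ + B/2 ∈ Ioi (n * s)} ⊆
        Ioi (Real.exp (B * (n * s) - B^2/2)) ∪ Iio (Real.exp (-B^2/2 - B * s)) := by
      intro x hx
      exact key2 (x := x) (y := n * s) hx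
    have hc : Real.exp (-B^2/2 + B * ((n * s - s) + s/2)) < Real.exp (B * (n * s) - B^2/2) := by
      apply Real.exp_lt_exp.mpr
      have : 0 < B * s := by positivity
      have e : B * ((n * s - s) + s/2) = B * (n * s) - B * s / 2 := by ring
      rw [e]
      linarith
    have h1 := up (n * s - s) (s/2) hc
    have hns : 0 ≤ n * s - s := by
      have h2n : (2:ℝ) ≤ n := by exact_mod_cast hn2
      have := mul_le_mul_of_nonneg_right (by linarith : (1:ℝ) ≤ n) hs0.le
      linarith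
    have h2 := mx_tail hns
    have h3 := (measureReal_mono hsub (μ := (ρ : Measure ℝ))).trans (measureReal_union_le _ _)
    linarith
  · -- probability of small values
    rw [hval _ measurableSet_Iic]
    have hms : MeasurableSet {x : ℝ | Real.log x * B⁻¹ + B/2 ∈ Iic (1:ℝ)} := hUm measurableSet_Iic
    have hcompl : (ρ : Measure ℝ).real {x : ℝ | Real.log x * B⁻¹ + B/2 ∈ Iic (1:ℝ)}
        = 1 - (ρ : Measure ℝ).real {x : ℝ | Real.log x * B⁻¹ + B/2 ∈ Iic (1:ℝ)}ᶜ := by
      rw [probReal_compl_eq_one_sub hms]; ring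
    have hsub : {x : ℝ | Real.log x * B⁻¹ + B/2 ∈ Iic (1:ℝ)}ᶜ ⊆
        Ioi (Real.exp (B * 1 - B^2/2)) ∪ Iio (Real.exp (-B^2/2 - B * s)) := by
      intro x hx
      have hx' : 1 < Real.log x * B⁻¹ + B/2 := by
        have : ¬ (Real.log x * B⁻¹ + B/2 ≤ 1) := hx
        linarith [not_le.mp this]
      exact key2 (x := x) (y := 1) hx'
    have hc : Real.exp (-B^2/2 + B * (1/2 + 1/4)) < Real.exp (B * 1 - B^2/2) := by
      apply Real.exp_lt_exp.mpr
      have e : B * (1/2 + 1/4) = 3/4 * B := by ring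
      rw [e, mul_one]
      linarith
    have h1 := up (1/2) (1/4) hc
    have h2 : (γ.prod γ).real {z : ℝ × ℝ | 1/2 < 2 * mx z} = 1 - P1 := by
      have hm1 : MeasurableSet {z : ℝ × ℝ | 2 * mx z ≤ 1/2} :=
        measurableSet_le (mx_measurable.const_mul _) measurable_const
      have e : {z : ℝ × ℝ | 1/2 < 2 * mx z} = {z : ℝ × ℝ | 2 * mx z ≤ 1/2}ᶜ := by
        ext z; simp
      rw [e, probReal_compl_eq_one_sub hm1]
    have h3 := (measureReal_mono hsub (μ := (ρ : Measure ℝ))).trans (measureReal_union_le _ _)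
    have h4 : V * Real.exp (-(B * (1/4))) ≤ V * Real.exp (-(B * (s/2))) := by
      apply mul_le_mul_of_nonneg_left _ hV0.le
      apply Real.exp_le_exp.mpr
      have : B * (s/2) ≤ B * (1/4) := mul_le_mul_of_nonneg_left (by linarith) hB0.le
      linarith
    rw [hcompl]
    linarith
  · -- probability of large values
    rw [hval _ measurableSet_Ici]
    have hms : MeasurableSet {x : ℝ | Real.log x * B⁻¹ + B/2 ∈ Ici (2:ℝ)} := hUm measurableSet_Ici
    have hcompl : (ρ : Measure ℝ).real {x : ℝ | Real.log x * B⁻¹ + B/2 ∈ Ici (2:ℝ)}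
        = 1 - (ρ : Measure ℝ).real {x : ℝ | Real.log x * B⁻¹ + B/2 ∈ Ici (2:ℝ)}ᶜ := by
      rw [probReal_compl_eq_one_sub hms]; ring
    have hsub : {x : ℝ | Real.log x * B⁻¹ + B/2 ∈ Ici (2:ℝ)}ᶜ ⊆
        Iio (Real.exp (B * 2 - B^2/2)) := by
      intro x hx
      have hx' : Real.log x * B⁻¹ + B/2 < 2 := by
        have : ¬ (2 ≤ Real.log x * B⁻¹ + B/2) := hx
        linarith [not_le.mp this]
      exact key (x := x) (y := 2) hx'
    have hc : Real.exp (B * 2 - B^2/2) < Real.exp (-B^2/2 + B * (6/2)) * (v/2) := by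
      have e : Real.exp (B * 2 - B^2/2) = Real.exp (-B^2/2 + B * (6/2)) * Real.exp (-B) := by
        rw [← Real.exp_add]; congr 1; ring
      rw [e]
      apply mul_lt_mul_of_pos_left _ (Real.exp_pos _)
      refine lt_of_le_of_lt ?_ hB2
      apply Real.exp_le_exp.mpr
      have := mul_le_mul_of_nonneg_left (by linarith : s ≤ 1) hB0.le
      linarith
    have h1 := low 6 hc
    have h2 : (γ.prod γ).real {z : ℝ × ℝ | mx z < 6} = 1 - P2 := by
      have hm1 : MeasurableSet {z : ℝ × ℝ | 6 ≤ mx z} :=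
        measurableSet_le measurable_const mx_measurable
      have e : {z : ℝ × ℝ | mx z < 6} = {z : ℝ × ℝ | 6 ≤ mx z}ᶜ := by
        ext z; simp
      rw [e, probReal_compl_eq_one_sub hm1]
    have h3 := measureReal_mono hsub (μ := (ρ : Measure ℝ))
    rw [hcompl]
    linarith

end

end Pool.Agent.H528R3.Gmc
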