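import Pool.Agent.H891R3.NR.Stmts

/-!
# Three non-collinear contact points (task TaskExists of project H891NR)
-/

set_option autoImplicit false

namespace Pool.Agent.H528R3.NR

open Pool.Agent.H891R3.NR
open Pool.Agent.Results.MP_fb3fae_co.AllTriangles (E3)
open RealInnerProductSpace

theorem taskExists : TaskExists := by
  intro V o ho
  -- the polar body
  set Q : Set E3 := {y | ∀ v ∈ V, ⟪y, v - o⟫ ≤ 1} with hQ
  obtain ⟨δ, hδ, hball⟩ := Metric.isOpen_iff.1 isOpen_interior o ho
  have hball' : Metric.ball o δ ⊆ convexHull ℝ (V : Set E3) := hball.trans interior_subset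
  have hbound : ∀ y ∈ Q, ‖y‖ ≤ 2 / δ := by
    intro y hy
    by_cases hy0 : y = 0
    · rw [hy0, norm_zero]; positivity
    have hyn : 0 < ‖y‖ := norm_pos_iff.2 hy0
    set x : E3 := o + (δ / 2 / ‖y‖) • y with hx
    have hxb : x ∈ Metric.ball o δ := by
      rw [Metric.mem_ball, dist_eq_norm, hx, add_sub_cancel_left, norm_smul, Real.norm_eq_abs,
        abs_of_pos (by positivity)]
      rw [div_mul_cancel₀ _ hyn.ne']
      linarith
    have hconv : convexHull ℝ (V : Set E3) ⊆ {z | ⟪y, z - o⟫ ≤ 1} := by
      apply convexHull_min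
      · intro v hv
        exact hy v hv
      · intro a ha b hb s t hs ht hst
        simp only [Set.mem_ofPred_eq] at ha hb ⊢
        have e : s • a + t • b - o = s • (a - o) + t • (b - o) := by
          rw [smul_sub, smul_sub]
          have : o = s • o + t • o := by rw [← add_smul, hst, one_smul]
          nth_rewrite 1 [this]
          abel
        rw [e, inner_add_right, inner_smul_right, inner_smul_right]
        nlinarith
    have h1 := hconv (hball' hxb)
    simp only [Set.mem_ofPred_eq] at h1
    rw [hx, add_sub_cancel_left, inner_smul_right, real_inner_self_eq_norm_sq] at h1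
    have h2 : δ / 2 / ‖y‖ * ‖y‖ ^ 2 = δ / 2 * ‖y‖ := by field_simp
    rw [h2] at h1
    rw [le_div_iff₀ hδ]
    linarith
  have hclosed : IsClosed Q := by
    have : Q = ⋂ v ∈ V, {y | ⟪y, v - o⟫ ≤ 1} := by
      ext y; simp [hQ]
    rw [this]
    apply isClosed_biInter
    intro v _
    exact isClosed_le (by fun_prop) continuous_const
  have hcompact : IsCompact Q := by
    apply Metric.isCompact_of_isClosed_isBounded hclosed
    rw [isBounded_iff_forall_norm_le]
    exact ⟨2 / δ, hbound⟩
  have hne : Q.Nonempty := ⟨0, by intro v _; simp⟩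
  obtain ⟨y, hy⟩ := hcompact.extremePoints_nonempty hne
  have hyQ : y ∈ Q := hy.1
  -- the tight constraints
  set S : Set E3 := {u | ∃ v ∈ V, u = v - o ∧ ⟪y, v - o⟫ = 1} with hS
  have hspan : Submodule.span ℝ S = ⊤ := by
    by_contra hcon
    have hlt : Submodule.span ℝ S < ⊤ := lt_top_iff_ne_top.2 hcon
    have horth : (Submodule.span ℝ S)ᗮ ≠ ⊥ := by
      intro hb
      exact hcon ((Submodule.orthogonal_eq_bot_iff).1 hb)
    obtain ⟨d, hd, hd0⟩ := (Submodule.ne_bot_iff _).1 horth
    have hdS : ∀ u ∈ S, ⟪d, u⟫ = 0 := by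
      intro u hu
      rw [real_inner_comm]
      exact (Submodule.mem_orthogonal _ _).1 hd u (Submodule.subset_span hu)
    -- choose epsilon
    have heps : ∃ ε : ℝ, 0 < ε ∧ ∀ v ∈ V, ⟪y, v - o⟫ ≠ 1 → ε * |⟪d, v - o⟫| ≤ 1 - ⟪y, v - o⟫ := by
      classical
      have key : ∀ W : Finset E3, W ⊆ V → ∃ ε : ℝ, 0 < ε ∧ ∀ v ∈ W, ⟪y, v - o⟫ ≠ 1 →
          ε * |⟪d, v - o⟫| ≤ 1 - ⟪y, v - o⟫ := by
        intro W
        induction W using Finset.induction_on with
        | empty => intro _; exact ⟨1, one_pos, by simp⟩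
        | insert a W ha ih =>
          intro hW
          obtain ⟨ε, hε, h⟩ := ih (fun z hz => hW (Finset.mem_insert_of_mem hz))
          by_cases h1 : ⟪y, a - o⟫ = 1
          · refine ⟨ε, hε, ?_⟩
            intro v hv hv1
            rcases Finset.mem_insert.1 hv with rfl | hv
            · exact absurd h1 hv1
            · exact h v hv hv1
          · have hlt' : ⟪y, a - o⟫ < 1 :=
              lt_of_le_of_ne (hyQ a (hW (Finset.mem_insert_self _ _))) h1
            refine ⟨min ε ((1 - ⟪y, a - o⟫) / (1 + |⟪d, a - o⟫|)), ?_, ?_⟩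
            · apply lt_min hε
              apply div_pos (by linarith)
              positivity
            · intro v hv hv1
              rcases Finset.mem_insert.1 hv with rfl | hv
              · have hA : 0 ≤ |⟪d, v - o⟫| := abs_nonneg _
                calc min ε ((1 - ⟪y, v - o⟫) / (1 + |⟪d, v - o⟫|)) * |⟪d, v - o⟫|
                    ≤ ((1 - ⟪y, v - o⟫) / (1 + |⟪d, v - o⟫|)) * |⟪d, v - o⟫| :=
                      mul_le_mul_of_nonneg_right (min_le_right _ _) hA
                  _ ≤ ((1 - ⟪y, v - o⟫) / (1 + |⟪d, v - o⟫|)) * (1 + |⟪d, v - o⟫|) := by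
                      apply mul_le_mul_of_nonneg_left (by linarith)
                      apply div_nonneg (by linarith) (by positivity)
                  _ = 1 - ⟪y, v - o⟫ := by
                      rw [div_mul_cancel₀]
                      positivity
              · calc min ε ((1 - ⟪y, a - o⟫) / (1 + |⟪d, a - o⟫|)) * |⟪d, v - o⟫|
                    ≤ ε * |⟪d, v - o⟫| :=
                      mul_le_mul_of_nonneg_right (min_le_left _ _) (abs_nonneg _)
                  _ ≤ _ := h v hv hv1
      exact key V (Finset.Subset.refl V)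
    obtain ⟨ε, hε, hε2⟩ := heps
    have hmem : ∀ σ : ℝ, |σ| = 1 → y + (σ * ε) • d ∈ Q := by
      intro σ hσ v hv
      rw [inner_add_left, inner_smul_left]
      simp only [conj_trivial]
      by_cases h1 : ⟪y, v - o⟫ = 1
      · rw [hdS (v - o) ⟨v, hv, rfl, h1⟩, h1]; simp
      · have h2 := hε2 v hv h1
        have h3 : σ * ε * ⟪d, v - o⟫ ≤ ε * |⟪d, v - o⟫| := by
          calc σ * ε * ⟪d, v - o⟫ ≤ |σ * ε * ⟪d, v - o⟫| := le_abs_self _
            _ = ε * |⟪d, v - o⟫| := by
              rw [abs_mul, abs_mul, hσ, abs_of_pos hε, one_mul]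
        linarith
    have hp := hmem 1 (by norm_num)
    have hm := hmem (-1) (by norm_num)
    have hseg : y ∈ openSegment ℝ (y + (1 * ε) • d) (y + (-1 * ε) • d) := by
      refine ⟨1 / 2, 1 / 2, by norm_num, by norm_num, by norm_num, ?_⟩
      rw [smul_add, smul_add, smul_smul, smul_smul]
      have : (1 / 2 * (-1 * ε)) • d = - ((1 / 2 * (1 * ε)) • d) := by
        rw [← neg_smul]; congr 1; ring
      rw [this]
      have h2 : (1 / 2 : ℝ) • y + (1 / 2 : ℝ) • y = y := by
        rw [← add_smul]; norm_num
      calc _ = (1 / 2 : ℝ) • y + (1 / 2 : ℝ) • y := by abel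
        _ = y := h2
    have hext := hy.2 hp hm hseg
    have hzero : (1 * ε) • d = 0 := by
      have : y + (1 * ε) • d = y := hext
      simpa using this
    rcases smul_eq_zero.1 hzero with h | h
    · rw [one_mul] at h; exact hε.ne' h
    · exact hd0 h
  -- three independent vectors
  obtain ⟨b, hbS, hbspan, hbli⟩ := exists_linearIndependent ℝ S
  rw [hspan] at hbspan
  have hbfin : b.Finite := hbli.setFinite
  have := hbfin.fintype
  let B : Module.Basis b ℝ E3 := Module.Basis.mk hbli (by simp [hbspan])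
  have hcard : Fintype.card b = 3 := by
    have h1 := Module.finrank_eq_card_basis B
    rw [finrank_euclideanSpace_fin] at h1
    exact h1.symm
  let e : Fin 3 ≃ b := (Fintype.equivFinOfCardEq hcard).symm
  have hli3 : LinearIndependent ℝ (fun i : Fin 3 => ((e i : b) : E3)) :=
    hbli.comp e e.injective
  have hmem : ∀ i : Fin 3, ∃ v ∈ V, ((e i : b) : E3) = v - o ∧ ⟪y, v - o⟫ = 1 :=
    fun i => hbS (e i).2
  choose f hfV hfe hf1 using hmem
  refine ⟨innerₛₗ ℝ y, 1 + ⟪y, o⟫, ?_, f 0, hfV 0, f 1, hfV 1, f 2, hfV 2, ?_, ?_, ?_, ?_⟩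
  · intro v hv
    have := hyQ v hv
    rw [inner_sub_right] at this
    simp only [innerₛₗ_apply_apply]
    linarith
  · have := hf1 0; rw [inner_sub_right] at this; simp only [innerₛₗ_apply_apply]; linarith
  · have := hf1 1; rw [inner_sub_right] at this; simp only [innerₛₗ_apply_apply]; linarith
  · have := hf1 2; rw [inner_sub_right] at this; simp only [innerₛₗ_apply_apply]; linarith
  · have hfun : (![f 0, f 1, f 2] : Fin 3 → E3) = f := by
      funext i; fin_cases i <;> rfl
    rw [hfun, affineIndependent_iff]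
    intro s w hw hsum
    have h1 : ∑ i ∈ s, w i • ((e i : b) : E3) = 0 := by
      have : ∀ i ∈ s, w i • ((e i : b) : E3) = w i • f i - w i • o := by
        intro i _; rw [hfe i, smul_sub]
      rw [Finset.sum_congr rfl this, Finset.sum_sub_distrib, hsum, ← Finset.sum_smul, hw]
      simp
    exact linearIndependent_iff'.1 hli3 s w h1
end Pool.Agent.H528R3.NR
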