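import Mathlib
set_option autoImplicit false

/-! Zero divergence of an explicit flow around a box. -/

namespace Pool.Agent.H528R3.RotorFlow

def nN (a b X Y : ℤ) : ℕ :=
  if 0 ≤ X ∧ X < a ∧ -1 ≤ Y ∧ Y < b then 2
  else if b ≤ Y ∧ Y - b ≤ X ∧ X ≤ a - 2 then 1
  else if Y ≤ -2 ∧ -2 - Y ≤ X ∧ X ≤ a - 1 then 1 else 0
def nE (a b X Y : ℤ) : ℕ :=
  if -1 ≤ X ∧ X < a ∧ 0 ≤ Y ∧ Y < b then 1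
  else if -1 - a ≤ Y ∧ Y ≤ -2 ∧ Y ≤ X ∧ X < -2 - Y then 1 else 0
def nS (a b X Y : ℤ) : ℕ :=
  if 0 ≤ X ∧ X < a ∧ 0 ≤ Y ∧ Y ≤ b then 1
  else if -1 - a ≤ X ∧ X ≤ -2 ∧ X < Y ∧ Y ≤ b - 2 - X then 1 else 0
def nW (a b X Y : ℤ) : ℕ :=
  if 0 ≤ X ∧ X ≤ a ∧ 0 ≤ Y ∧ Y < b then 1
  else if Y = b ∧ -1 ≤ X ∧ X ≤ a - 1 then 1
  else if b + 1 ≤ Y ∧ Y ≤ b + a - 1 ∧ -2 - (Y - b) < X ∧ X < Y - b then 1 else 0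

lemma flowA (a b : ℤ) (ha : 1 ≤ a) (hb : 1 ≤ b) (X Y : ℤ) (h : Y ≤ -2) :
    nN a b X (Y - 1) + nE a b (X - 1) Y + nS a b X (Y + 1) + nW a b (X + 1) Y =
    nN a b X Y + nE a b X Y + nS a b X Y + nW a b X Y := by
  unfold nN nE nS nW
  rw [if_neg (show ¬ (0 ≤ X ∧ X < a ∧ -1 ≤ Y - 1 ∧ Y - 1 < b) by omega),
    if_neg (show ¬ (b ≤ Y - 1 ∧ Y - 1 - b ≤ X ∧ X ≤ a - 2) by omega),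
    if_neg (show ¬ (-1 ≤ X - 1 ∧ X - 1 < a ∧ 0 ≤ Y ∧ Y < b) by omega),
    if_neg (show ¬ (0 ≤ X ∧ X < a ∧ 0 ≤ Y + 1 ∧ Y + 1 ≤ b) by omega),
    if_neg (show ¬ (0 ≤ X + 1 ∧ X + 1 ≤ a ∧ 0 ≤ Y ∧ Y < b) by omega),
    if_neg (show ¬ (Y = b ∧ -1 ≤ X + 1 ∧ X + 1 ≤ a - 1) by omega),
    if_neg (show ¬ (b + 1 ≤ Y ∧ Y ≤ b + a - 1 ∧ -2 - (Y - b) < X + 1 ∧ X + 1 < Y - b) by omega),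
    if_neg (show ¬ (0 ≤ X ∧ X < a ∧ -1 ≤ Y ∧ Y < b) by omega),
    if_neg (show ¬ (b ≤ Y ∧ Y - b ≤ X ∧ X ≤ a - 2) by omega),
    if_neg (show ¬ (-1 ≤ X ∧ X < a ∧ 0 ≤ Y ∧ Y < b) by omega),
    if_neg (show ¬ (0 ≤ X ∧ X < a ∧ 0 ≤ Y ∧ Y ≤ b) by omega),
    if_neg (show ¬ (0 ≤ X ∧ X ≤ a ∧ 0 ≤ Y ∧ Y < b) by omega),
    if_neg (show ¬ (Y = b ∧ -1 ≤ X ∧ X ≤ a - 1) by omega),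
    if_neg (show ¬ (b + 1 ≤ Y ∧ Y ≤ b + a - 1 ∧ -2 - (Y - b) < X ∧ X < Y - b) by omega)]
  split_ifs <;> omega

lemma flowB (a b : ℤ) (ha : 1 ≤ a) (hb : 1 ≤ b) (X Y : ℤ) (h : Y = -1) :
    nN a b X (Y - 1) + nE a b (X - 1) Y + nS a b X (Y + 1) + nW a b (X + 1) Y =
    nN a b X Y + nE a b X Y + nS a b X Y + nW a b X Y := by
  unfold nN nE nS nW
  rw [if_neg (show ¬ (0 ≤ X ∧ X < a ∧ -1 ≤ Y - 1 ∧ Y - 1 < b) by omega),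
    if_neg (show ¬ (b ≤ Y - 1 ∧ Y - 1 - b ≤ X ∧ X ≤ a - 2) by omega),
    if_neg (show ¬ (-1 ≤ X - 1 ∧ X - 1 < a ∧ 0 ≤ Y ∧ Y < b) by omega),
    if_neg (show ¬ (-1 - a ≤ Y ∧ Y ≤ -2 ∧ Y ≤ X - 1 ∧ X - 1 < -2 - Y) by omega),
    if_neg (show ¬ (0 ≤ X + 1 ∧ X + 1 ≤ a ∧ 0 ≤ Y ∧ Y < b) by omega),
    if_neg (show ¬ (Y = b ∧ -1 ≤ X + 1 ∧ X + 1 ≤ a - 1) by omega),
    if_neg (show ¬ (b + 1 ≤ Y ∧ Y ≤ b + a - 1 ∧ -2 - (Y - b) < X + 1 ∧ X + 1 < Y - b) by omega),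
    if_neg (show ¬ (b ≤ Y ∧ Y - b ≤ X ∧ X ≤ a - 2) by omega),
    if_neg (show ¬ (Y ≤ -2 ∧ -2 - Y ≤ X ∧ X ≤ a - 1) by omega),
    if_neg (show ¬ (-1 ≤ X ∧ X < a ∧ 0 ≤ Y ∧ Y < b) by omega),
    if_neg (show ¬ (-1 - a ≤ Y ∧ Y ≤ -2 ∧ Y ≤ X ∧ X < -2 - Y) by omega),
    if_neg (show ¬ (0 ≤ X ∧ X < a ∧ 0 ≤ Y ∧ Y ≤ b) by omega),
    if_neg (show ¬ (0 ≤ X ∧ X ≤ a ∧ 0 ≤ Y ∧ Y < b) by omega),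
    if_neg (show ¬ (Y = b ∧ -1 ≤ X ∧ X ≤ a - 1) by omega),
    if_neg (show ¬ (b + 1 ≤ Y ∧ Y ≤ b + a - 1 ∧ -2 - (Y - b) < X ∧ X < Y - b) by omega)]
  split_ifs <;> omega

lemma flowC (a b : ℤ) (ha : 1 ≤ a) (hb : 1 ≤ b) (X Y : ℤ) (h : 0 ≤ Y) (h' : Y < b) :
    nN a b X (Y - 1) + nE a b (X - 1) Y + nS a b X (Y + 1) + nW a b (X + 1) Y =
    nN a b X Y + nE a b X Y + nS a b X Y + nW a b X Y := by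
  unfold nN nE nS nW
  rw [if_neg (show ¬ (b ≤ Y - 1 ∧ Y - 1 - b ≤ X ∧ X ≤ a - 2) by omega),
    if_neg (show ¬ (Y - 1 ≤ -2 ∧ -2 - (Y - 1) ≤ X ∧ X ≤ a - 1) by omega),
    if_neg (show ¬ (-1 - a ≤ Y ∧ Y ≤ -2 ∧ Y ≤ X - 1 ∧ X - 1 < -2 - Y) by omega),
    if_neg (show ¬ (Y = b ∧ -1 ≤ X + 1 ∧ X + 1 ≤ a - 1) by omega),
    if_neg (show ¬ (b + 1 ≤ Y ∧ Y ≤ b + a - 1 ∧ -2 - (Y - b) < X + 1 ∧ X + 1 < Y - b) by omega),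
    if_neg (show ¬ (b ≤ Y ∧ Y - b ≤ X ∧ X ≤ a - 2) by omega),
    if_neg (show ¬ (Y ≤ -2 ∧ -2 - Y ≤ X ∧ X ≤ a - 1) by omega),
    if_neg (show ¬ (-1 - a ≤ Y ∧ Y ≤ -2 ∧ Y ≤ X ∧ X < -2 - Y) by omega),
    if_neg (show ¬ (Y = b ∧ -1 ≤ X ∧ X ≤ a - 1) by omega),
    if_neg (show ¬ (b + 1 ≤ Y ∧ Y ≤ b + a - 1 ∧ -2 - (Y - b) < X ∧ X < Y - b) by omega)]
  split_ifs <;> omega

lemma flowD (a b : ℤ) (ha : 1 ≤ a) (hb : 1 ≤ b) (X Y : ℤ) (h : Y = b) :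
    nN a b X (Y - 1) + nE a b (X - 1) Y + nS a b X (Y + 1) + nW a b (X + 1) Y =
    nN a b X Y + nE a b X Y + nS a b X Y + nW a b X Y := by
  unfold nN nE nS nW
  rw [if_neg (show ¬ (b ≤ Y - 1 ∧ Y - 1 - b ≤ X ∧ X ≤ a - 2) by omega),
    if_neg (show ¬ (Y - 1 ≤ -2 ∧ -2 - (Y - 1) ≤ X ∧ X ≤ a - 1) by omega),
    if_neg (show ¬ (-1 ≤ X - 1 ∧ X - 1 < a ∧ 0 ≤ Y ∧ Y < b) by omega),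
    if_neg (show ¬ (-1 - a ≤ Y ∧ Y ≤ -2 ∧ Y ≤ X - 1 ∧ X - 1 < -2 - Y) by omega),
    if_neg (show ¬ (0 ≤ X ∧ X < a ∧ 0 ≤ Y + 1 ∧ Y + 1 ≤ b) by omega),
    if_neg (show ¬ (0 ≤ X + 1 ∧ X + 1 ≤ a ∧ 0 ≤ Y ∧ Y < b) by omega),
    if_neg (show ¬ (b + 1 ≤ Y ∧ Y ≤ b + a - 1 ∧ -2 - (Y - b) < X + 1 ∧ X + 1 < Y - b) by omega),
    if_neg (show ¬ (0 ≤ X ∧ X < a ∧ -1 ≤ Y ∧ Y < b) by omega),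
    if_neg (show ¬ (Y ≤ -2 ∧ -2 - Y ≤ X ∧ X ≤ a - 1) by omega),
    if_neg (show ¬ (-1 ≤ X ∧ X < a ∧ 0 ≤ Y ∧ Y < b) by omega),
    if_neg (show ¬ (-1 - a ≤ Y ∧ Y ≤ -2 ∧ Y ≤ X ∧ X < -2 - Y) by omega),
    if_neg (show ¬ (0 ≤ X ∧ X ≤ a ∧ 0 ≤ Y ∧ Y < b) by omega),
    if_neg (show ¬ (b + 1 ≤ Y ∧ Y ≤ b + a - 1 ∧ -2 - (Y - b) < X ∧ X < Y - b) by omega)]
  split_ifs <;> omega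

lemma flowE (a b : ℤ) (ha : 1 ≤ a) (hb : 1 ≤ b) (X Y : ℤ) (h : b + 1 ≤ Y) :
    nN a b X (Y - 1) + nE a b (X - 1) Y + nS a b X (Y + 1) + nW a b (X + 1) Y =
    nN a b X Y + nE a b X Y + nS a b X Y + nW a b X Y := by
  unfold nN nE nS nW
  rw [if_neg (show ¬ (0 ≤ X ∧ X < a ∧ -1 ≤ Y - 1 ∧ Y - 1 < b) by omega),
    if_neg (show ¬ (Y - 1 ≤ -2 ∧ -2 - (Y - 1) ≤ X ∧ X ≤ a - 1) by omega),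
    if_neg (show ¬ (-1 ≤ X - 1 ∧ X - 1 < a ∧ 0 ≤ Y ∧ Y < b) by omega),
    if_neg (show ¬ (-1 - a ≤ Y ∧ Y ≤ -2 ∧ Y ≤ X - 1 ∧ X - 1 < -2 - Y) by omega),
    if_neg (show ¬ (0 ≤ X ∧ X < a ∧ 0 ≤ Y + 1 ∧ Y + 1 ≤ b) by omega),
    if_neg (show ¬ (0 ≤ X + 1 ∧ X + 1 ≤ a ∧ 0 ≤ Y ∧ Y < b) by omega),
    if_neg (show ¬ (Y = b ∧ -1 ≤ X + 1 ∧ X + 1 ≤ a - 1) by omega),
    if_neg (show ¬ (0 ≤ X ∧ X < a ∧ -1 ≤ Y ∧ Y < b) by omega),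
    if_neg (show ¬ (Y ≤ -2 ∧ -2 - Y ≤ X ∧ X ≤ a - 1) by omega),
    if_neg (show ¬ (-1 ≤ X ∧ X < a ∧ 0 ≤ Y ∧ Y < b) by omega),
    if_neg (show ¬ (-1 - a ≤ Y ∧ Y ≤ -2 ∧ Y ≤ X ∧ X < -2 - Y) by omega),
    if_neg (show ¬ (0 ≤ X ∧ X < a ∧ 0 ≤ Y ∧ Y ≤ b) by omega),
    if_neg (show ¬ (0 ≤ X ∧ X ≤ a ∧ 0 ≤ Y ∧ Y < b) by omega),
    if_neg (show ¬ (Y = b ∧ -1 ≤ X ∧ X ≤ a - 1) by omega)]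
  split_ifs <;> omega

lemma flow (a b : ℤ) (ha : 1 ≤ a) (hb : 1 ≤ b) (X Y : ℤ) :
    nN a b X (Y - 1) + nE a b (X - 1) Y + nS a b X (Y + 1) + nW a b (X + 1) Y =
    nN a b X Y + nE a b X Y + nS a b X Y + nW a b X Y := by
  rcases le_or_gt Y (-2) with h | h
  · exact flowA a b ha hb X Y h
  rcases lt_or_ge Y 0 with h2 | h2
  · exact flowB a b ha hb X Y (by omega)
  rcases lt_or_ge Y b with h3 | h3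
  · exact flowC a b ha hb X Y h2 h3
  rcases eq_or_lt_of_le h3 with h4 | h4
  · exact flowD a b ha hb X Y h4.symm
  · exact flowE a b ha hb X Y (by omega)

end Pool.Agent.H528R3.RotorFlow
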