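import Mathlib

set_option autoImplicit false

/-! Least action principle for the rotor walk on `ℤ × ℤ` with exits `N, N, E, S, W`. -/

open scoped Fin.NatCast Fin.CommRing

namespace Pool.Agent.H528R3.RotorLA

/-- the five exits -/
def dir : Fin 5 → ℤ × ℤ := ![(0, 1), (0, 1), (1, 0), (0, -1), (-1, 0)]

abbrev State := (ℤ × ℤ) × (ℤ × ℤ → Fin 5)

/-- one step of the walk -/
def step (s : State) : State :=
  (s.1 + dir (s.2 s.1 + 1), Function.update s.2 s.1 (s.2 s.1 + 1))

/-- number of times exit `i` is used among the first `c` exits of a vertex with stored index `r` -/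
def cnt (r : Fin 5) (c : ℕ) (i : Fin 5) : ℕ :=
  ((Finset.range c).filter (fun j : ℕ => r + 1 + (j : Fin 5) = i)).card

lemma cnt_succ (r : Fin 5) (c : ℕ) (i : Fin 5) :
    cnt r (c + 1) i = cnt r c i + if r + 1 + (c : Fin 5) = i then 1 else 0 := by
  unfold cnt
  rw [Finset.range_add_one, Finset.filter_insert]
  split_ifs with h
  · rw [Finset.card_insert_of_notMem (by simp)]
  · simp

lemma cnt_mono (r : Fin 5) {c d : ℕ} (h : c ≤ d) (i : Fin 5) : cnt r c i ≤ cnt r d i := by
  unfold cnt
  exact Finset.card_le_card (Finset.filter_subset_filter _ (Finset.range_mono h))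

/-- flow into `v` when every vertex `w` has been left `c w` times -/
def inflow (ρ : ℤ × ℤ → Fin 5) (c : ℤ × ℤ → ℕ) (v : ℤ × ℤ) : ℕ :=
  ∑ i : Fin 5, cnt (ρ (v - dir i)) (c (v - dir i)) i

lemma inflow_mono (ρ : ℤ × ℤ → Fin 5) {c d : ℤ × ℤ → ℕ} (h : ∀ v, c v ≤ d v) (v : ℤ × ℤ) :
    inflow ρ c v ≤ inflow ρ d v :=
  Finset.sum_le_sum fun i _ => cnt_mono _ (h _) i

/-- odometer: number of visits before time `t` -/
def odo (s : State) (t : ℕ) (v : ℤ × ℤ) : ℕ :=
  ((Finset.range t).filter (fun n => (step^[n] s).1 = v)).card

lemma odo_succ (s : State) (t : ℕ) (v : ℤ × ℤ) :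
    odo s (t + 1) v = odo s t v + if (step^[t] s).1 = v then 1 else 0 := by
  unfold odo
  rw [Finset.range_add_one, Finset.filter_insert]
  split_ifs with h
  · rw [Finset.card_insert_of_notMem (by simp)]
  · simp

lemma config_eq (s : State) (t : ℕ) (v : ℤ × ℤ) :
    (step^[t] s).2 v = s.2 v + (odo s t v : Fin 5) := by
  induction t with
  | zero => simp [odo]
  | succ t ih =>
    rw [Function.iterate_succ_apply', odo_succ]
    show Function.update (step^[t] s).2 (step^[t] s).1 ((step^[t] s).2 (step^[t] s).1 + 1) v = _
    by_cases h : (step^[t] s).1 = v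
    · subst h
      rw [Function.update_self, ih]
      simp [add_assoc]
    · rw [Function.update_of_ne (Ne.symm h), ih]
      simp [h]

lemma balance (s : State) (t : ℕ) (v : ℤ × ℤ) :
    inflow s.2 (odo s t) v + (if v = s.1 then 1 else 0) =
      odo s t v + (if (step^[t] s).1 = v then 1 else 0) := by
  induction t with
  | zero =>
    simp [odo, inflow, cnt, eq_comm]
  | succ t ih =>
    set w := (step^[t] s).1 with hw
    have hi : inflow s.2 (odo s (t + 1)) v = inflow s.2 (odo s t) v +
        if v = w + dir (s.2 w + 1 + (odo s t w : Fin 5)) then 1 else 0 := by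
      unfold inflow
      have : ∀ i : Fin 5, cnt (s.2 (v - dir i)) (odo s (t + 1) (v - dir i)) i =
          cnt (s.2 (v - dir i)) (odo s t (v - dir i)) i +
          if (w = v - dir i ∧ s.2 w + 1 + (odo s t w : Fin 5) = i) then 1 else 0 := by
        intro i
        rw [odo_succ, ← hw]
        by_cases h : w = v - dir i
        · rw [if_pos h, cnt_succ, ← h]
          simp
        · simp [h]
      rw [Finset.sum_congr rfl (fun i _ => this i), Finset.sum_add_distrib]
      congr 1
      rw [Finset.sum_ite]
      simp only [Finset.sum_const_zero, add_zero, Finset.sum_const, smul_eq_mul, mul_one]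
      by_cases h : v = w + dir (s.2 w + 1 + (odo s t w : Fin 5))
      · rw [if_pos h]
        rw [Finset.card_eq_one]
        refine ⟨s.2 w + 1 + (odo s t w : Fin 5), ?_⟩
        ext i
        simp only [Finset.mem_filter, Finset.mem_univ, true_and, Finset.mem_singleton]
        constructor
        · rintro ⟨_, h2⟩
          exact h2.symm
        · rintro rfl
          exact ⟨by rw [h]; simp, rfl⟩
      · rw [if_neg h]
        rw [Finset.card_eq_zero]
        rw [Finset.filter_eq_empty_iff]
        rintro i _ ⟨h1, h2⟩
        apply h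
        rw [h2, h1]
        simp
    have hn : (step^[t + 1] s).1 = w + dir (s.2 w + 1 + (odo s t w : Fin 5)) := by
      rw [Function.iterate_succ_apply']
      show (step^[t] s).1 + dir ((step^[t] s).2 (step^[t] s).1 + 1) = _
      rw [config_eq, ← hw]
      congr 2
      ring
    rw [hi, hn, odo_succ, ← hw]
    have e1 : (if v = w + dir (s.2 w + 1 + (odo s t w : Fin 5)) then 1 else 0) =
      (if w + dir (s.2 w + 1 + (odo s t w : Fin 5)) = v then 1 else (0 : ℕ)) := by
      simp only [eq_comm]
    rw [e1]
    omega

lemma sum_odo (s : State) (t : ℕ) (S : Finset (ℤ × ℤ)) (h : ∀ v, v ∉ S → odo s t v = 0) :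
    ∑ v ∈ S, odo s t v = t := by
  have hm : ∀ n ∈ Finset.range t, (step^[n] s).1 ∈ S := by
    intro n hn
    by_contra hc
    have := h _ hc
    unfold odo at this
    rw [Finset.card_eq_zero, Finset.filter_eq_empty_iff] at this
    exact this hn rfl
  have := Finset.card_eq_sum_card_fiberwise (f := fun n => (step^[n] s).1)
    (s := Finset.range t) (t := S) (by intro n hn; exact hm n (by simpa using hn))
  rw [Finset.card_range] at this
  exact this.symm

/-- Least action: if `u` is a finitely supported function with `inflow u ≤ u` and `u (s.1) ≥ 1`, then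
the walk comes back to its starting point before leaving the support of `u`. -/
theorem exists_return (s : State) (u : ℤ × ℤ → ℕ) (S : Finset (ℤ × ℤ))
    (hS : ∀ v, v ∉ S → u v = 0) (hu : ∀ v, inflow s.2 u v ≤ u v) (h0 : 1 ≤ u s.1) :
    ∃ t, 1 ≤ t ∧ (step^[t] s).1 = s.1 ∧ ∀ v, u v = 0 → (step^[t] s).2 v = s.2 v := by
  have key : ∀ t, (∃ n, 1 ≤ n ∧ (step^[n] s).1 = s.1 ∧ ∀ v, odo s n v ≤ u v) ∨
      ∀ v, odo s t v ≤ u v := by
    intro t
    induction t with
    | zero => right; intro v; simp [odo]
    | succ t ih =>
      rcases ih with ih | ih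
      · left; exact ih
      · by_cases hterm : (step^[t] s).1 = s.1 ∧ odo s t s.1 = u s.1
        · left
          refine ⟨t, ?_, hterm.1, ih⟩
          rcases Nat.eq_zero_or_pos t with h | h
          · exfalso
            have h2 := hterm.2
            rw [h] at h2
            simp [odo] at h2
            omega
          · exact h
        · right
          intro v
          rw [odo_succ]
          split_ifs with hv
          · have hb := balance s t v
            have hle := (inflow_mono s.2 ih v).trans (hu v)
            rw [if_pos hv] at hb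
            by_cases hvs : v = s.1
            · rw [if_pos hvs] at hb
              have h3 := ih v
              have h4 : odo s t v ≠ u v := by
                intro h5
                apply hterm
                rw [← hvs]
                exact ⟨hv, h5⟩
              omega
            · rw [if_neg hvs] at hb
              omega
          · simpa using ih v
  set T := ∑ v ∈ S, u v + 1 with hT
  rcases key T with h | h
  · obtain ⟨n, hn, h1, h2⟩ := h
    refine ⟨n, hn, h1, ?_⟩
    intro v hv
    rw [config_eq]
    have : odo s n v = 0 := by have := h2 v; omega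
    simp [this]
  · exfalso
    have h1 := sum_odo s T S (fun v hv => by have := h v; have := hS v hv; omega)
    have h2 : ∑ v ∈ S, odo s T v ≤ ∑ v ∈ S, u v := Finset.sum_le_sum fun v _ => h v
    omega

end Pool.Agent.H528R3.RotorLA
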