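import Mathlib
import Pool.Agent.H528R3.RotorLA
import Pool.Agent.H528R3.RotorFlow

set_option autoImplicit false

open scoped Fin.NatCast Fin.CommRing

/-! The explicit odometer around a box. -/

namespace Pool.Agent.H528R3.RotorField

open Pool.Agent.H528R3.RotorLA Pool.Agent.H528R3.RotorFlow

/-- codes: `0` unused, `1` box, `2` N, `3` E, `4` S, `5` W, `6` NN, `7` SW, `8` SWN.
Coordinates are relative to the lower left corner of the box, `a`, `b` its side lengths. -/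
def code (a b X Y : ℤ) : Fin 9 :=
  if 0 ≤ X ∧ X < a ∧ 0 ≤ Y ∧ Y < b then 1
  else if 0 ≤ X ∧ X < a ∧ Y = -1 then 6
  else if 0 ≤ X ∧ X < a - 1 ∧ Y = b then 8
  else if X = a - 1 ∧ Y = b then 7
  else if X = -1 ∧ 0 ≤ Y ∧ Y < b then 3
  else if X = a ∧ 0 ≤ Y ∧ Y < b then 5
  else if X = -1 ∧ Y = b then 5
  else if X ≤ -2 ∧ -1 - a ≤ X ∧ X < Y ∧ Y ≤ b - 2 - X then 4
  else if Y ≤ -2 ∧ -1 - a ≤ Y ∧ Y ≤ X ∧ X < -2 - Y then 3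
  else if Y ≤ -2 ∧ -2 - Y ≤ X ∧ X ≤ a - 1 then 2
  else if b + 1 ≤ Y ∧ Y ≤ b + a - 1 ∧ -2 - (Y - b) < X ∧ X < Y - b then 5
  else if b + 1 ≤ Y ∧ Y - b ≤ X ∧ X ≤ a - 2 then 2
  else 0

/-- number of visits of a vertex with a given code -/
def U : Fin 9 → ℕ := ![0, 5, 1, 1, 1, 1, 2, 2, 3]

/-- stored index (the index before the first exit used) of a vertex with given code -/
def R : Fin 9 → Fin 5 := ![4, 4, 4, 1, 2, 3, 4, 2, 2]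

/-- numbers of exits of the five types -/
def O : Fin 9 → Fin 5 → ℕ :=
  ![![0, 0, 0, 0, 0], ![1, 1, 1, 1, 1], ![1, 0, 0, 0, 0], ![0, 0, 1, 0, 0], ![0, 0, 0, 1, 0],
    ![0, 0, 0, 0, 1], ![1, 1, 0, 0, 0], ![0, 0, 0, 1, 1], ![1, 0, 0, 1, 1]]

lemma cnt_code (c : Fin 9) (i : Fin 5) : cnt (R c) (U c) i = O c i := by
  revert c i; decide

lemma cnt_box (r : Fin 5) (i : Fin 5) : cnt r (U 1) i = O 1 i := by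
  revert r i; decide

/-- the disjunctive description of the code -/
lemma code_spec (a b X Y : ℤ) :
    (code a b X Y = 1 ∧ 0 ≤ X ∧ X < a ∧ 0 ≤ Y ∧ Y < b) ∨
    (code a b X Y = 6 ∧ 0 ≤ X ∧ X < a ∧ Y = -1) ∨
    (code a b X Y = 8 ∧ 0 ≤ X ∧ X < a - 1 ∧ Y = b) ∨
    (code a b X Y = 7 ∧ X = a - 1 ∧ Y = b) ∨
    (code a b X Y = 3 ∧ X = -1 ∧ 0 ≤ Y ∧ Y < b) ∨
    (code a b X Y = 5 ∧ X = a ∧ 0 ≤ Y ∧ Y < b) ∨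
    (code a b X Y = 5 ∧ X = -1 ∧ Y = b) ∨
    (code a b X Y = 4 ∧ X ≤ -2 ∧ -1 - a ≤ X ∧ X < Y ∧ Y ≤ b - 2 - X) ∨
    (code a b X Y = 3 ∧ Y ≤ -2 ∧ -1 - a ≤ Y ∧ Y ≤ X ∧ X < -2 - Y) ∨
    (code a b X Y = 2 ∧ Y ≤ -2 ∧ -2 - Y ≤ X ∧ X ≤ a - 1) ∨
    (code a b X Y = 5 ∧ b + 1 ≤ Y ∧ Y ≤ b + a - 1 ∧ -2 - (Y - b) < X ∧ X < Y - b) ∨
    (code a b X Y = 2 ∧ b + 1 ≤ Y ∧ Y - b ≤ X ∧ X ≤ a - 2) ∨
    (code a b X Y = 0 ∧ ¬ (0 ≤ X ∧ X < a ∧ 0 ≤ Y ∧ Y < b) ∧ ¬ (0 ≤ X ∧ X < a ∧ Y = -1) ∧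
      ¬ (0 ≤ X ∧ X < a - 1 ∧ Y = b) ∧ ¬ (X = a - 1 ∧ Y = b) ∧ ¬ (X = -1 ∧ 0 ≤ Y ∧ Y < b) ∧
      ¬ (X = a ∧ 0 ≤ Y ∧ Y < b) ∧ ¬ (X = -1 ∧ Y = b) ∧
      ¬ (X ≤ -2 ∧ -1 - a ≤ X ∧ X < Y ∧ Y ≤ b - 2 - X) ∧
      ¬ (Y ≤ -2 ∧ -1 - a ≤ Y ∧ Y ≤ X ∧ X < -2 - Y) ∧
      ¬ (Y ≤ -2 ∧ -2 - Y ≤ X ∧ X ≤ a - 1) ∧
      ¬ (b + 1 ≤ Y ∧ Y ≤ b + a - 1 ∧ -2 - (Y - b) < X ∧ X < Y - b) ∧
      ¬ (b + 1 ≤ Y ∧ Y - b ≤ X ∧ X ≤ a - 2)) := by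
  by_cases g1 : 0 ≤ X ∧ X < a ∧ 0 ≤ Y ∧ Y < b
  · exact Or.inl ⟨by unfold code; rw [if_pos g1], g1⟩
  by_cases g2 : 0 ≤ X ∧ X < a ∧ Y = -1
  · exact Or.inr (Or.inl ⟨by unfold code; rw [if_neg g1, if_pos g2], g2⟩)
  by_cases g3 : 0 ≤ X ∧ X < a - 1 ∧ Y = b
  · exact Or.inr (Or.inr (Or.inl ⟨by unfold code; rw [if_neg g1, if_neg g2, if_pos g3], g3⟩))
  by_cases g4 : X = a - 1 ∧ Y = b
  · exact Or.inr (Or.inr (Or.inr (Or.inl ⟨by unfold code; rw [if_neg g1, if_neg g2, if_neg g3, if_pos g4], g4⟩)))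
  by_cases g5 : X = -1 ∧ 0 ≤ Y ∧ Y < b
  · exact Or.inr (Or.inr (Or.inr (Or.inr (Or.inl ⟨by unfold code; rw [if_neg g1, if_neg g2, if_neg g3, if_neg g4, if_pos g5], g5⟩))))
  by_cases g6 : X = a ∧ 0 ≤ Y ∧ Y < b
  · exact Or.inr (Or.inr (Or.inr (Or.inr (Or.inr (Or.inl ⟨by unfold code; rw [if_neg g1, if_neg g2, if_neg g3, if_neg g4, if_neg g5, if_pos g6], g6⟩)))))
  by_cases g7 : X = -1 ∧ Y = b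
  · exact Or.inr (Or.inr (Or.inr (Or.inr (Or.inr (Or.inr (Or.inl ⟨by unfold code; rw [if_neg g1, if_neg g2, if_neg g3, if_neg g4, if_neg g5, if_neg g6, if_pos g7], g7⟩))))))
  by_cases g8 : X ≤ -2 ∧ -1 - a ≤ X ∧ X < Y ∧ Y ≤ b - 2 - X
  · exact Or.inr (Or.inr (Or.inr (Or.inr (Or.inr (Or.inr (Or.inr (Or.inl ⟨by unfold code; rw [if_neg g1, if_neg g2, if_neg g3, if_neg g4, if_neg g5, if_neg g6, if_neg g7, if_pos g8], g8⟩)))))))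
  by_cases g9 : Y ≤ -2 ∧ -1 - a ≤ Y ∧ Y ≤ X ∧ X < -2 - Y
  · exact Or.inr (Or.inr (Or.inr (Or.inr (Or.inr (Or.inr (Or.inr (Or.inr (Or.inl ⟨by unfold code; rw [if_neg g1, if_neg g2, if_neg g3, if_neg g4, if_neg g5, if_neg g6, if_neg g7, if_neg g8, if_pos g9], g9⟩))))))))
  by_cases g10 : Y ≤ -2 ∧ -2 - Y ≤ X ∧ X ≤ a - 1
  · exact Or.inr (Or.inr (Or.inr (Or.inr (Or.inr (Or.inr (Or.inr (Or.inr (Or.inr (Or.inl ⟨by unfold code; rw [if_neg g1, if_neg g2, if_neg g3, if_neg g4, if_neg g5, if_neg g6, if_neg g7, if_neg g8, if_neg g9, if_pos g10], g10⟩)))))))))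
  by_cases g11 : b + 1 ≤ Y ∧ Y ≤ b + a - 1 ∧ -2 - (Y - b) < X ∧ X < Y - b
  · exact Or.inr (Or.inr (Or.inr (Or.inr (Or.inr (Or.inr (Or.inr (Or.inr (Or.inr (Or.inr (Or.inl ⟨by unfold code; rw [if_neg g1, if_neg g2, if_neg g3, if_neg g4, if_neg g5, if_neg g6, if_neg g7, if_neg g8, if_neg g9, if_neg g10, if_pos g11], g11⟩))))))))))
  by_cases g12 : b + 1 ≤ Y ∧ Y - b ≤ X ∧ X ≤ a - 2
  · exact Or.inr (Or.inr (Or.inr (Or.inr (Or.inr (Or.inr (Or.inr (Or.inr (Or.inr (Or.inr (Or.inr (Or.inl ⟨by unfold code; rw [if_neg g1, if_neg g2, if_neg g3, if_neg g4, if_neg g5, if_neg g6, if_neg g7, if_neg g8, if_neg g9, if_neg g10, if_neg g11, if_pos g12], g12⟩)))))))))))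
  exact Or.inr (Or.inr (Or.inr (Or.inr (Or.inr (Or.inr (Or.inr (Or.inr (Or.inr (Or.inr (Or.inr (Or.inr ⟨by unfold code; rw [if_neg g1, if_neg g2, if_neg g3, if_neg g4, if_neg g5, if_neg g6, if_neg g7, if_neg g8, if_neg g9, if_neg g10, if_neg g11, if_neg g12], g1, g2, g3, g4, g5, g6, g7, g8, g9, g10, g11, g12⟩)))))))))))

lemma O_N (a b X Y : ℤ) (ha : 1 ≤ a) (hb : 1 ≤ b) :
    O (code a b X Y) 0 + O (code a b X Y) 1 = nN a b X Y := by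
  unfold nN
  rcases code_spec a b X Y with ⟨e, h⟩ | ⟨e, h⟩ | ⟨e, h⟩ | ⟨e, h⟩ | ⟨e, h⟩ | ⟨e, h⟩ | ⟨e, h⟩ |
    ⟨e, h⟩ | ⟨e, h⟩ | ⟨e, h⟩ | ⟨e, h⟩ | ⟨e, h⟩ | ⟨e, h⟩ <;> rw [e] <;> clear e <;>
    split_ifs <;> first | rfl | (exfalso; omega)

lemma O_E (a b X Y : ℤ) (ha : 1 ≤ a) (hb : 1 ≤ b) :
    O (code a b X Y) 2 = nE a b X Y := by
  unfold nE
  rcases code_spec a b X Y with ⟨e, h⟩ | ⟨e, h⟩ | ⟨e, h⟩ | ⟨e, h⟩ | ⟨e, h⟩ | ⟨e, h⟩ | ⟨e, h⟩ |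
    ⟨e, h⟩ | ⟨e, h⟩ | ⟨e, h⟩ | ⟨e, h⟩ | ⟨e, h⟩ | ⟨e, h⟩ <;> rw [e] <;> clear e <;>
    split_ifs <;> first | rfl | (exfalso; omega)

lemma O_S (a b X Y : ℤ) (ha : 1 ≤ a) (hb : 1 ≤ b) :
    O (code a b X Y) 3 = nS a b X Y := by
  unfold nS
  rcases code_spec a b X Y with ⟨e, h⟩ | ⟨e, h⟩ | ⟨e, h⟩ | ⟨e, h⟩ | ⟨e, h⟩ | ⟨e, h⟩ | ⟨e, h⟩ |
    ⟨e, h⟩ | ⟨e, h⟩ | ⟨e, h⟩ | ⟨e, h⟩ | ⟨e, h⟩ | ⟨e, h⟩ <;> rw [e] <;> clear e <;>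
    split_ifs <;> first | rfl | (exfalso; omega)

lemma O_W (a b X Y : ℤ) (ha : 1 ≤ a) (hb : 1 ≤ b) :
    O (code a b X Y) 4 = nW a b X Y := by
  unfold nW
  rcases code_spec a b X Y with ⟨e, h⟩ | ⟨e, h⟩ | ⟨e, h⟩ | ⟨e, h⟩ | ⟨e, h⟩ | ⟨e, h⟩ | ⟨e, h⟩ |
    ⟨e, h⟩ | ⟨e, h⟩ | ⟨e, h⟩ | ⟨e, h⟩ | ⟨e, h⟩ | ⟨e, h⟩ <;> rw [e] <;> clear e <;>
    split_ifs <;> first | rfl | (exfalso; omega)

lemma U_O (c : Fin 9) : U c = O c 0 + O c 1 + O c 2 + O c 3 + O c 4 := by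
  revert c; decide

end Pool.Agent.H528R3.RotorField
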