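import Mathlib

/-!
Analytic part for the random walk on stairs: a strictly superharmonic function for the
one-dimensional chain with forward bias `b`.
-/

set_option autoImplicit false

namespace Pool.Agent.H528R3.Stairs

open Filter Topology

noncomputable section

/-- acceptance probability of the forward proposal at index `m` -/
def A (m : ℕ) : ℝ :=
  if Even m then 1/2 else
    ((m/2+1 : ℕ):ℝ)^2 / (((m/2+1:ℕ):ℝ)^2 + ((m/2+2:ℕ):ℝ)^2)

/-- acceptance probability of the backward proposal at index `m` -/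
def B (m : ℕ) : ℝ :=
  if m = 0 then 0 else if Even m then
    ((m/2+1:ℕ):ℝ)^2 / (((m/2+1:ℕ):ℝ)^2 + ((m/2:ℕ):ℝ)^2) else 1/2

/-- the one-step operator of the walk in terms of the index `m` -/
def T (b : ℝ) (g : ℕ → ℝ) (m : ℕ) : ℝ :=
  (1/2+b)*A m*g (m+1) + (1/2-b)*B m*g (m-1) + (1-(1/2+b)*A m-(1/2-b)*B m)*g m

def s (k : ℕ) : ℝ := if Even k then 2*((k/2+1:ℕ):ℝ)^2 else ((k/2+1:ℕ):ℝ)^2 + ((k/2+2:ℕ):ℝ)^2

def d (θ : ℝ) (k : ℕ) : ℝ := s k * θ^k

def v (θ : ℝ) (m : ℕ) : ℝ := ∑' k, d θ (k+m)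

theorem A_nonneg (m : ℕ) : 0 ≤ A m := by
  unfold A; split_ifs <;> positivity

theorem A_le (m : ℕ) : A m ≤ 1 := by
  unfold A; split_ifs
  · norm_num
  · apply div_le_one_of_le₀ <;> nlinarith [sq_nonneg (((m/2+2:ℕ):ℝ)), sq_nonneg (((m/2+1:ℕ):ℝ))]

theorem B_nonneg (m : ℕ) : 0 ≤ B m := by
  unfold B; split_ifs <;> positivity

theorem B_le (m : ℕ) : B m ≤ 1 := by
  unfold B; split_ifs
  · norm_num
  · apply div_le_one_of_le₀ <;> nlinarith [sq_nonneg (((m/2:ℕ):ℝ)), sq_nonneg (((m/2+1:ℕ):ℝ))]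
  · norm_num

theorem s_pos (k : ℕ) : 0 < s k := by
  unfold s; split_ifs <;> positivity

theorem s_le (k : ℕ) : s k ≤ 2 * ((k:ℝ)+2)^2 := by
  have h1 : ((k/2:ℕ):ℝ) ≤ (k:ℝ) := by exact_mod_cast Nat.div_le_self k 2
  have h0 : (0:ℝ) ≤ ((k/2:ℕ):ℝ) := Nat.cast_nonneg _
  unfold s; split_ifs <;> push_cast <;> nlinarith

theorem d_pos {θ : ℝ} (hθ : 0 < θ) (k : ℕ) : 0 < d θ k := mul_pos (s_pos k) (pow_pos hθ k)

theorem d_summable {θ : ℝ} (hθ : 0 < θ) (hθ1 : θ < 1) : Summable (d θ) := by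
  have hn : ‖θ‖ < 1 := by rw [Real.norm_eq_abs, abs_of_pos hθ]; exact hθ1
  have h2 := summable_pow_mul_geometric_of_norm_lt_one 2 hn
  have h1 := summable_pow_mul_geometric_of_norm_lt_one 1 hn
  have h0 := summable_pow_mul_geometric_of_norm_lt_one 0 hn
  have h := ((h2.mul_left 2).add (h1.mul_left 8)).add (h0.mul_left 8)
  refine Summable.of_nonneg_of_le (fun k => (d_pos hθ k).le) (fun k => ?_) h
  have := mul_le_mul_of_nonneg_right (s_le k) (pow_pos hθ k).le
  unfold d
  calc s k * θ^k ≤ 2 * ((k:ℝ)+2)^2 * θ^k := this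
    _ = _ := by ring

theorem v_succ {θ : ℝ} (hθ : 0 < θ) (hθ1 : θ < 1) (m : ℕ) : v θ m = d θ m + v θ (m+1) := by
  unfold v
  have h : Summable fun k => d θ (k+m) := (summable_nat_add_iff m).2 (d_summable hθ hθ1)
  rw [h.tsum_eq_zero_add]
  simp only [zero_add]
  congr 1
  apply tsum_congr
  intro k
  congr 1
  ring

theorem v_nonneg {θ : ℝ} (hθ : 0 < θ) (m : ℕ) : 0 ≤ v θ m :=
  tsum_nonneg fun k => (d_pos hθ _).le

theorem v_tendsto {θ : ℝ} : Tendsto (v θ) atTop (𝓝 0) := tendsto_sum_nat_add (d θ)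

theorem v_antitone {θ : ℝ} (hθ : 0 < θ) (hθ1 : θ < 1) : Antitone (v θ) :=
  antitone_nat_of_succ_le fun m => by
    rw [v_succ hθ hθ1 m]; linarith [d_pos hθ m]

theorem T_eq (b : ℝ) (g : ℕ → ℝ) (m : ℕ) :
    T b g m = g m + (1/2+b)*A m*(g (m+1) - g m) + (1/2-b)*B m*(g (m-1) - g m) := by
  unfold T; ring

theorem T_mono {b : ℝ} (hb : 0 ≤ b) (hb2 : b ≤ 1/2) {g h : ℕ → ℝ} (hgh : ∀ m, g m ≤ h m) (m : ℕ) :
    T b g m ≤ T b h m := by
  unfold T
  have h1 : 0 ≤ (1/2+b)*A m := mul_nonneg (by linarith) (A_nonneg m)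
  have h2 : 0 ≤ (1/2-b)*B m := mul_nonneg (by linarith) (B_nonneg m)
  have h3 : (1/2+b)*A m + (1/2-b)*B m ≤ 1 := by
    nlinarith [A_le m, B_le m, A_nonneg m, B_nonneg m]
  have := mul_le_mul_of_nonneg_left (hgh (m+1)) h1
  have := mul_le_mul_of_nonneg_left (hgh (m-1)) h2
  have := mul_le_mul_of_nonneg_left (hgh m) (by linarith : 0 ≤ 1-(1/2+b)*A m-(1/2-b)*B m)
  linarith

theorem T_add (b : ℝ) (g h : ℕ → ℝ) : T b (g + h) = T b g + T b h := by
  ext m; simp only [T, Pi.add_apply]; ring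

theorem T_smul (b c : ℝ) (g : ℕ → ℝ) : T b (c • g) = c • T b g := by
  ext m; simp only [T, Pi.smul_apply, smul_eq_mul]; ring

theorem T_const (b c : ℝ) : T b (fun _ => c) = fun _ => c := by
  ext m; simp only [T]; ring

theorem T_v {b : ℝ} (hb : 0 < b) (hb2 : b ≤ 1/2) (m : ℕ) :
    T b (v (1-b)) m ≤ v (1-b) m - b * (1-b)^m := by
  have hθ : 0 < 1 - b := by linarith
  have hθ1 : 1 - b < 1 := by linarith
  rw [T_eq]
  have e1 : v (1-b) (m+1) - v (1-b) m = - d (1-b) m := by rw [v_succ hθ hθ1 m]; ring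
  rw [e1]
  rcases Nat.eq_zero_or_pos m with rfl | hm
  · have hB : B 0 = 0 := by simp [B]
    have hA : A 0 = 1/2 := by simp [A]
    have hd : d (1-b) 0 = 2 := by simp [d, s]
    rw [hB, hA, hd]
    simp only [pow_zero]
    linarith
  · obtain ⟨n, rfl⟩ : ∃ n, m = n + 1 := ⟨m-1, by omega⟩
    have e2 : v (1-b) (n+1-1) - v (1-b) (n+1) = d (1-b) n := by
      rw [Nat.add_sub_cancel, v_succ hθ hθ1 n]; ring
    rw [e2]
    have hpow : 0 < (1-b)^n := pow_pos hθ n
    -- main computation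
    have key : ∀ J : ℝ, 1 ≤ J → A (n+1) * s (n+1) = J → B (n+1) * s n = J →
        v (1-b) (n+1) + (1/2+b)*A (n+1)*(- d (1-b) (n+1)) + (1/2-b)*B (n+1)*d (1-b) n
        ≤ v (1-b) (n+1) - b * (1-b)^(n+1) := by
      intro J hJ hA hB
      have : (1/2+b)*A (n+1)*(- d (1-b) (n+1)) + (1/2-b)*B (n+1)*d (1-b) n
          = -(J * (1-b)^n * (b*(3/2-b))) := by
        unfold d
        calc _ = -((1/2+b)*(A (n+1) * s (n+1))*(1-b)^(n+1)) + (1/2-b)*(B (n+1)*s n)*(1-b)^n := by ring
          _ = _ := by rw [hA, hB]; ring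
      have h3 : b * (1-b)^(n+1) ≤ J * (1-b)^n * (b*(3/2-b)) := by
        have h4 : b * (1-b)^(n+1) = (1-b)^n * (b*(1-b)) := by ring
        have h5 : (1-b)^n * (b*(3/2-b)) ≤ J * (1-b)^n * (b*(3/2-b)) := by
          have : 0 ≤ (1-b)^n * (b*(3/2-b)) := by
            apply mul_nonneg hpow.le; apply mul_nonneg hb.le; linarith
          nlinarith
        have h6 : (1-b)^n * (b*(1-b)) ≤ (1-b)^n * (b*(3/2-b)) := by
          apply mul_le_mul_of_nonneg_left _ hpow.le
          apply mul_le_mul_of_nonneg_left _ hb.le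
          linarith
        linarith
      linarith
    rcases Nat.even_or_odd n with hn | hn
    · obtain ⟨i, rfl⟩ := hn
      have hodd : ¬ Even (i + i + 1) := by
        rw [Nat.not_even_iff_odd]; exact ⟨i, by ring⟩
      have hev : Even (i + i) := ⟨i, rfl⟩
      have hdiv : (i + i + 1)/2 = i := by omega
      have hdiv' : (i + i)/2 = i := by omega
      apply key (((i:ℝ)+1)^2)
      · nlinarith [(Nat.cast_nonneg i : (0:ℝ) ≤ i)]
      · unfold A s
        rw [if_neg hodd, if_neg hodd, hdiv]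
        push_cast
        have : ((i:ℝ)+1)^2 + ((i:ℝ)+2)^2 ≠ 0 := by positivity
        field_simp
      · unfold B s
        rw [if_neg (by omega), if_neg hodd, if_pos hev, hdiv']
        push_cast
        ring
    · obtain ⟨i, rfl⟩ := hn
      have hodd : ¬ Even (2*i+1) := by
        rw [Nat.not_even_iff_odd]; exact ⟨i, by ring⟩
      have hev : Even (2*i+1+1) := ⟨i+1, by ring⟩
      have hdiv : (2*i+1+1)/2 = i+1 := by omega
      have hdiv' : (2*i+1)/2 = i := by omega
      apply key (((i:ℝ)+2)^2)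
      · nlinarith [(Nat.cast_nonneg i : (0:ℝ) ≤ i)]
      · unfold A s
        rw [if_pos hev, if_pos hev, hdiv]
        push_cast
        ring
      · unfold B s
        rw [if_neg (by omega), if_pos hev, if_neg hodd, hdiv, hdiv']
        push_cast
        have : ((i:ℝ)+1+1)^2 + ((i:ℝ)+1)^2 ≠ 0 := by positivity
        field_simp
        ring

/-! ### iterates -/

theorem iter_mono {b : ℝ} (hb : 0 ≤ b) (hb2 : b ≤ 1/2) {g h : ℕ → ℝ} (hgh : ∀ m, g m ≤ h m)
    (n m : ℕ) : (T b)^[n] g m ≤ (T b)^[n] h m := by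
  induction n generalizing m with
  | zero => exact hgh m
  | succ n ih =>
    rw [Function.iterate_succ_apply', Function.iterate_succ_apply']
    exact T_mono hb hb2 ih m

theorem iter_affine (b c e : ℝ) (g : ℕ → ℝ) (n : ℕ) :
    (T b)^[n] (fun m => c * g m + e) = fun m => c * (T b)^[n] g m + e := by
  induction n with
  | zero => rfl
  | succ n ih =>
    rw [Function.iterate_succ_apply', ih, Function.iterate_succ_apply']
    ext m; simp only [T]; ring

/-- the Green function is finite: partial sums of the iterates of `θ^m` are bounded -/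
theorem iter_sum {b : ℝ} (hb : 0 < b) (hb2 : b ≤ 1/2) (n m : ℕ) :
    b * ∑ j ∈ Finset.range n, (T b)^[j] (fun m => (1-b)^m) m + (T b)^[n] (v (1-b)) m
      ≤ v (1-b) m := by
  induction n with
  | zero => simp
  | succ n ih =>
    rw [Finset.sum_range_succ, Function.iterate_succ_apply]
    have h1 : (T b)^[n] (T b (v (1-b))) m
        ≤ (T b)^[n] (fun m => v (1-b) m - b * (1-b)^m) m :=
      iter_mono hb.le hb2 (T_v hb hb2) n m
    have h2 : ∀ n, (T b)^[n] (fun m => v (1-b) m - b * (1-b)^m)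
        = fun m => (T b)^[n] (v (1-b)) m - b * (T b)^[n] (fun m => (1-b)^m) m := by
      intro n
      induction n with
      | zero => rfl
      | succ n ih =>
        rw [Function.iterate_succ_apply', ih, Function.iterate_succ_apply',
          Function.iterate_succ_apply']
        ext m; simp only [T]; ring
    rw [h2] at h1
    simp only at h1
    linarith

theorem iter_const (b c : ℝ) (n : ℕ) : (T b)^[n] (fun _ => c) = fun _ => c := by
  induction n with
  | zero => rfl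
  | succ n ih => rw [Function.iterate_succ_apply', ih, T_const]

theorem iter_nonneg {b : ℝ} (hb : 0 ≤ b) (hb2 : b ≤ 1/2) {g : ℕ → ℝ} (hg : ∀ m, 0 ≤ g m)
    (n m : ℕ) : 0 ≤ (T b)^[n] g m := by
  have h := iter_mono hb hb2 (g := fun _ => 0) (h := g) hg n m
  rw [iter_const] at h
  exact h

theorem iter_pow_tendsto {b : ℝ} (hb : 0 < b) (hb2 : b ≤ 1/2) (m : ℕ) :
    Tendsto (fun n => (T b)^[n] (fun m => (1-b)^m) m) atTop (𝓝 0) := by
  have hθ : 0 < 1 - b := by linarith
  apply Summable.tendsto_atTop_zero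
  apply summable_of_sum_range_le (c := v (1-b) m / b)
  · intro n; exact iter_nonneg hb.le hb2 (fun m => (pow_pos hθ m).le) n m
  · intro n
    rw [le_div_iff₀ hb]
    have := iter_sum hb hb2 n m
    have := iter_nonneg hb.le hb2 (fun m => v_nonneg hθ m) n m
    linarith

/-- Iterates of any bounded-below-by-zero function tending to zero tend to zero. -/
theorem iter_tendsto {b : ℝ} (hb : 0 < b) (hb2 : b ≤ 1/2) {g : ℕ → ℝ} (hg : ∀ m, 0 ≤ g m)
    (hanti : Antitone g) (hlim : Tendsto g atTop (𝓝 0)) (m : ℕ) :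
    Tendsto (fun n => (T b)^[n] g m) atTop (𝓝 0) := by
  have hθ : 0 < 1 - b := by linarith
  rw [Metric.tendsto_atTop]
  intro ε hε
  obtain ⟨M, hM⟩ := (hlim.eventually (gt_mem_nhds (half_pos hε))).exists
  have hbound : ∀ k, g k ≤ (g 0 / (1-b)^M) * (1-b)^k + ε/2 := by
    intro k
    rcases le_total M k with h | h
    · have : g k ≤ g M := hanti h
      have : 0 ≤ (g 0 / (1-b)^M) * (1-b)^k := by
        apply mul_nonneg (div_nonneg (hg 0) (pow_pos hθ M).le) (pow_pos hθ k).le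
      linarith
    · have h1 : g k ≤ g 0 := hanti (Nat.zero_le k)
      have h2 : g 0 ≤ (g 0 / (1-b)^M) * (1-b)^k := by
        rw [div_mul_eq_mul_div, le_div_iff₀ (pow_pos hθ M)]
        exact mul_le_mul_of_nonneg_left (pow_le_pow_of_le_one hθ.le (by linarith) h) (hg 0)
      linarith
  have h2 := iter_pow_tendsto hb hb2 m
  have h3 : Tendsto (fun n => (g 0 / (1-b)^M) * (T b)^[n] (fun m => (1-b)^m) m) atTop
      (𝓝 ((g 0 / (1-b)^M) * 0)) := h2.const_mul _
  rw [mul_zero] at h3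
  obtain ⟨N, hN⟩ := (h3.eventually (gt_mem_nhds (half_pos hε))).exists_forall_of_atTop
  refine ⟨N, fun n hn => ?_⟩
  have h4 := iter_mono hb.le hb2 hbound n m
  rw [iter_affine] at h4
  have h5 := hN n hn
  have h6 := iter_nonneg hb.le hb2 hg n m
  rw [Real.dist_eq, sub_zero, abs_of_nonneg h6]
  simp only at h4
  linarith

end

end Pool.Agent.H528R3.Stairs
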