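import Mathlib
import Pool.Agent.H528R3.StairsA

/-!
Choice of the phases for the random walk on stairs: purely deterministic part.
-/

set_option autoImplicit false

namespace Pool.Agent.H528R3.Stairs

open Filter Topology

noncomputable section

/-- `Q β t G` is the expectation of `G` at time `t`, started at index `0`, when the bias of the
step from time `t` to `t+1` is `β t`. -/
def Q (β : ℕ → ℝ) : ℕ → (ℕ → ℝ) → ℝ
  | 0, G => G 0
  | t+1, G => Q β t (T (β t) G)

theorem T_mono_le {b : ℝ} (hb : 0 ≤ b) (hb2 : b ≤ 1/2) {g h : ℕ → ℝ} (m : ℕ)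
    (hgh : ∀ i ≤ m + 1, g i ≤ h i) : T b g m ≤ T b h m := by
  unfold T
  have h1 : 0 ≤ (1/2+b)*A m := mul_nonneg (by linarith) (A_nonneg m)
  have h2 : 0 ≤ (1/2-b)*B m := mul_nonneg (by linarith) (B_nonneg m)
  have h3 : (1/2+b)*A m + (1/2-b)*B m ≤ 1 := by
    nlinarith [A_le m, B_le m, A_nonneg m, B_nonneg m]
  have := mul_le_mul_of_nonneg_left (hgh (m+1) le_rfl) h1
  have := mul_le_mul_of_nonneg_left (hgh (m-1) (by omega)) h2
  have := mul_le_mul_of_nonneg_left (hgh m (by omega))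
    (by linarith : 0 ≤ 1-(1/2+b)*A m-(1/2-b)*B m)
  linarith

theorem Q_mono {β : ℕ → ℝ} (h0 : ∀ t, 0 ≤ β t) (h1 : ∀ t, β t ≤ 1/2) (t : ℕ) {G H : ℕ → ℝ}
    (hGH : ∀ m ≤ t, G m ≤ H m) : Q β t G ≤ Q β t H := by
  induction t generalizing G H with
  | zero => exact hGH 0 le_rfl
  | succ t ih =>
    unfold Q
    exact ih fun m hm => T_mono_le (h0 t) (h1 t) m fun i hi => hGH i (by omega)

theorem Q_const (β : ℕ → ℝ) (t : ℕ) (c : ℝ) : Q β t (fun _ => c) = c := by
  induction t with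
  | zero => rfl
  | succ t ih => unfold Q; rw [T_const, ih]

theorem Q_add (β : ℕ → ℝ) (t : ℕ) (G H : ℕ → ℝ) : Q β t (G + H) = Q β t G + Q β t H := by
  induction t generalizing G H with
  | zero => rfl
  | succ t ih => unfold Q; rw [T_add, ih]

theorem Q_smul (β : ℕ → ℝ) (t : ℕ) (c : ℝ) (G : ℕ → ℝ) : Q β t (c • G) = c * Q β t G := by
  induction t generalizing G with
  | zero => rfl
  | succ t ih => unfold Q; rw [T_smul, ih]

theorem Q_sum (β : ℕ → ℝ) (t : ℕ) (F : ℕ → ℕ → ℝ) (n : ℕ) :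
    Q β t (fun m => ∑ j ∈ Finset.range n, F j m) = ∑ j ∈ Finset.range n, Q β t (F j) := by
  induction n with
  | zero => simpa using Q_const β t 0
  | succ n ih =>
    rw [Finset.sum_range_succ, ← ih, ← Q_add]
    congr 1
    ext m
    simp [Finset.sum_range_succ]

theorem Q_iter {β : ℕ → ℝ} {b : ℝ} (t n : ℕ) (hconst : ∀ j < n, β (t + j) = b) (G : ℕ → ℝ) :
    Q β (t + n) G = Q β t ((T b)^[n] G) := by
  induction n generalizing G with
  | zero => rfl
  | succ n ih =>
    rw [← Nat.add_assoc]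
    show Q β (t + n) (T (β (t+n)) G) = _
    rw [hconst n (Nat.lt_succ_self n), ih (fun j hj => hconst j (by omega)),
      Function.iterate_succ_apply]

/-- the bias in phase `k` -/
def bk (k : ℕ) : ℝ := 1/(2*((k:ℝ)+1))

theorem bk_pos (k : ℕ) : 0 < bk k := by unfold bk; positivity

theorem bk_le (k : ℕ) : bk k ≤ 1/2 := by
  unfold bk
  apply one_div_le_one_div_of_le (by norm_num)
  have : (0:ℝ) ≤ k := Nat.cast_nonneg k
  linarith

def eps (k : ℕ) : ℝ := (1/2)^k * (bk k * (1 - bk k)^k)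

theorem th_pos (k : ℕ) : 0 < 1 - bk k := by linarith [bk_le k]

theorem th_lt (k : ℕ) : 1 - bk k < 1 := by linarith [bk_pos k]

theorem eps_pos (k : ℕ) : 0 < eps k := by
  unfold eps
  have := bk_pos k
  have := th_pos k
  positivity

theorem exists_L (k M : ℕ) : ∃ L : ℕ, 1 ≤ L ∧
    ∀ m ≤ M, (T (bk k))^[L] (v (1 - bk (k+1))) m ≤ eps (k+1) := by
  have h : ∀ m, ∀ᶠ n in atTop, (T (bk k))^[n] (v (1 - bk (k+1))) m < eps (k+1) := fun m =>
    (iter_tendsto (bk_pos k) (bk_le k) (v_nonneg (th_pos (k+1)))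
      (v_antitone (th_pos (k+1)) (th_lt (k+1))) v_tendsto m).eventually (gt_mem_nhds (eps_pos (k+1)))
  have h2 : ∀ᶠ n in atTop, ∀ m ∈ Finset.range (M+1),
      (T (bk k))^[n] (v (1 - bk (k+1))) m < eps (k+1) :=
    (Finset.eventually_all _).2 fun m _ => h m
  obtain ⟨n, hn, hn1⟩ := (h2.and (eventually_ge_atTop 1)).exists
  exact ⟨n, hn1, fun m hm => (hn m (Finset.mem_range.2 (by omega))).le⟩

def L (k M : ℕ) : ℕ := (exists_L k M).choose

theorem L_pos (k M : ℕ) : 1 ≤ L k M := (exists_L k M).choose_spec.1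

theorem L_spec (k M : ℕ) : ∀ m ≤ M, (T (bk k))^[L k M] (v (1 - bk (k+1))) m ≤ eps (k+1) :=
  (exists_L k M).choose_spec.2

/-- phase starting times -/
def tk : ℕ → ℕ
  | 0 => 0
  | k+1 => tk k + L k (tk k)

theorem tk_lt (k : ℕ) : tk k < tk (k+1) := by
  have := L_pos k (tk k)
  show tk k < tk k + L k (tk k)
  omega

theorem tk_strictMono : StrictMono tk := strictMono_nat_of_lt_succ tk_lt

theorem le_tk (k : ℕ) : k ≤ tk k := tk_strictMono.le_apply

/-- the phase of time `t` -/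
def phase (t : ℕ) : ℕ := Nat.findGreatest (fun k => tk k ≤ t) t

theorem tk_phase_le (t : ℕ) : tk (phase t) ≤ t :=
  Nat.findGreatest_spec (P := fun k => tk k ≤ t) (Nat.zero_le t) (Nat.zero_le t)

theorem phase_eq {k t : ℕ} (h1 : tk k ≤ t) (h2 : t < tk (k+1)) : phase t = k := by
  apply le_antisymm
  · by_contra h
    push_neg at h
    have : tk (k+1) ≤ tk (phase t) := tk_strictMono.monotone h
    have := tk_phase_le t
    omega
  · exact Nat.le_findGreatest (le_trans (le_tk k) h1) h1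

theorem phase_mono : Monotone phase := by
  intro s t hst
  exact Nat.le_findGreatest (le_trans (le_tk _) (le_trans (tk_phase_le s) hst))
    (le_trans (tk_phase_le s) hst)

theorem phase_tendsto : Tendsto phase atTop atTop := by
  apply tendsto_atTop_atTop_of_monotone phase_mono
  intro k
  exact ⟨tk k, (phase_eq le_rfl (tk_lt k)).ge⟩

/-- the bias at step `t → t+1` -/
def beta (t : ℕ) : ℝ := bk (phase t)

theorem beta_nonneg (t : ℕ) : 0 ≤ beta t := (bk_pos _).le
theorem beta_le (t : ℕ) : beta t ≤ 1/2 := bk_le _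

theorem beta_const (k j : ℕ) (hj : j < L k (tk k)) : beta (tk k + j) = bk k := by
  unfold beta
  rw [phase_eq (k := k) (by omega) (by show _ < tk k + L k (tk k); omega)]

theorem Q_start (k : ℕ) : Q beta (tk (k+1)) (v (1 - bk (k+1))) ≤ eps (k+1) := by
  show Q beta (tk k + L k (tk k)) _ ≤ _
  rw [Q_iter (b := bk k) _ _ (fun j hj => beta_const k j hj)]
  calc _ ≤ Q beta (tk k) (fun _ => eps (k+1)) :=
        Q_mono beta_nonneg beta_le _ (L_spec k (tk k))
    _ = _ := Q_const _ _ _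

theorem Q_phase_sum (k n : ℕ) (hn : n ≤ L k (tk k)) :
    bk k * ∑ j ∈ Finset.range n, Q beta (tk k + j) (fun m => (1 - bk k)^m)
      ≤ Q beta (tk k) (v (1 - bk k)) := by
  have h1 : ∀ j ∈ Finset.range n, Q beta (tk k + j) (fun m => (1 - bk k)^m)
      = Q beta (tk k) ((T (bk k))^[j] (fun m => (1 - bk k)^m)) := by
    intro j hj
    rw [Finset.mem_range] at hj
    exact Q_iter (b := bk k) _ _ (fun i hi => beta_const k i (by omega)) _
  rw [Finset.sum_congr rfl h1, ← Q_sum, ← Q_smul]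
  apply Q_mono beta_nonneg beta_le
  intro m _
  have := iter_sum (bk_pos k) (bk_le k) n m
  have := iter_nonneg (bk_pos k).le (bk_le k) (v_nonneg (th_pos k)) n m
  simp only [Pi.smul_apply, smul_eq_mul]
  linarith

/-- Abstract conclusion: if `p t ≤ θ_k^{-N} E[θ_k^{idx X_t}]` for every `t` in every phase `k`, then
`p` is summable. -/
theorem summable_of_le (N : ℕ) (p : ℕ → ℝ) (hp : ∀ t, 0 ≤ p t)
    (h : ∀ t, ∀ k, p t * (1 - bk k)^N ≤ Q beta t (fun m => (1 - bk k)^m)) : Summable p := by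
  -- one phase
  have hphase : ∀ k, 1 ≤ k → N ≤ k → ∀ n ≤ L k (tk k),
      ∑ j ∈ Finset.range n, p (tk k + j) ≤ (1/2)^k := by
    intro k hk1 hk n hn
    obtain ⟨k', rfl⟩ : ∃ k', k = k' + 1 := ⟨k-1, by omega⟩
    have h1 := Q_phase_sum (k'+1) n hn
    have h2 := Q_start k'
    have hb := bk_pos (k'+1)
    have hth := th_pos (k'+1)
    have h3 : (∑ j ∈ Finset.range n, p (tk (k'+1) + j)) * (1 - bk (k'+1))^N
        ≤ ∑ j ∈ Finset.range n, Q beta (tk (k'+1) + j) (fun m => (1 - bk (k'+1))^m) := by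
      rw [Finset.sum_mul]
      exact Finset.sum_le_sum fun j _ => h _ _
    have h4 : bk (k'+1) * ((∑ j ∈ Finset.range n, p (tk (k'+1) + j)) * (1 - bk (k'+1))^N)
        ≤ (1/2)^(k'+1) * (bk (k'+1) * (1 - bk (k'+1))^(k'+1)) := by
      calc _ ≤ bk (k'+1) * _ := mul_le_mul_of_nonneg_left h3 hb.le
        _ ≤ _ := h1
        _ ≤ _ := h2
    have h5 : (1 - bk (k'+1))^(k'+1) ≤ (1 - bk (k'+1))^N :=
      pow_le_pow_of_le_one hth.le (by linarith) hk
    have h6 : (0:ℝ) < (1/2)^(k'+1) := by positivity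
    have h7 : bk (k'+1) * ((∑ j ∈ Finset.range n, p (tk (k'+1) + j)) * (1 - bk (k'+1))^N)
        ≤ bk (k'+1) * ((1/2)^(k'+1) * (1 - bk (k'+1))^N) := by
      calc _ ≤ (1/2)^(k'+1) * (bk (k'+1) * (1 - bk (k'+1))^(k'+1)) := h4
        _ ≤ (1/2)^(k'+1) * (bk (k'+1) * (1 - bk (k'+1))^N) := by
            apply mul_le_mul_of_nonneg_left _ h6.le
            exact mul_le_mul_of_nonneg_left h5 hb.le
        _ = _ := by ring
    have h8 := le_of_mul_le_mul_left h7 hb
    exact le_of_mul_le_mul_right h8 (pow_pos hth N)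
  set K := max 1 N with hK
  have hS : ∀ i, ∑ t ∈ Finset.range (tk (K+i)), p t
      ≤ ∑ t ∈ Finset.range (tk K), p t + (2 - 2*(1/2)^i) := by
    intro i
    induction i with
    | zero => simp
    | succ i ih =>
      have h1 : tk (K + (i+1)) = tk (K+i) + L (K+i) (tk (K+i)) := rfl
      rw [h1, Finset.sum_range_add]
      have h2 := hphase (K+i) (by omega) (by omega) _ le_rfl
      have h3 : ((1:ℝ)/2)^(K+i) ≤ (1/2)^i := by
        apply pow_le_pow_of_le_one (by norm_num) (by norm_num); omega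
      have h4 : ((1:ℝ)/2)^(i+1) = (1/2)^i/2 := by ring
      rw [h4]
      linarith
  apply summable_of_sum_range_le (c := ∑ t ∈ Finset.range (tk K), p t + 2) hp
  intro t
  have h1 : t ≤ tk (K + t) := le_trans (by omega) (le_tk (K+t))
  calc ∑ i ∈ Finset.range t, p i ≤ ∑ i ∈ Finset.range (tk (K+t)), p i :=
        Finset.sum_le_sum_of_subset_of_nonneg (Finset.range_mono h1) (fun i _ _ => hp i)
    _ ≤ _ := hS t
    _ ≤ _ := by
      have : (0:ℝ) < (1/2)^t := by positivity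
      linarith

end

end Pool.Agent.H528R3.Stairs
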