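import Pool.Agent.H272R3.EC.Stmts

/-!
# Task W2 of project H272-EC
-/

set_option autoImplicit false

namespace Pool.Agent.H528R3.W2

open Pool.Agent.H272R3.EC

section

variable {Q G : Type} [Group Q] [Group G]

/-- the semidirect product `(Q → G) ⋊ Q` -/
abbrev Wr (Q G : Type) [Group Q] [Group G] : Type := (Q → G) ⋊[mulAutArrow (M := G)] Q

theorem act_apply (q : Q) (f : Q → G) (y : Q) :
    (mulAutArrow (M := G) q : MulAut (Q → G)) f y = f (q⁻¹ * y) := rfl

theorem mul_left' (a b : Wr Q G) (y : Q) : (a * b).left y = a.left y * b.left (a.right⁻¹ * y) := rfl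

theorem inv_left' (a : Wr Q G) (y : Q) : (a⁻¹).left y = (a.left (a.right * y))⁻¹ := by
  show ((mulAutArrow (M := G) a.right⁻¹ : MulAut (Q → G)) (a.left⁻¹)) y = _
  rw [act_apply, inv_inv]; rfl

/-- functions into a soluble group form a soluble group -/
theorem pi_solvable (ι K : Type) [Group K] [h : Group.IsSolvable K] : Group.IsSolvable (ι → K) := by
  obtain ⟨n, hn⟩ := id h
  refine ⟨⟨n, ?_⟩⟩
  rw [eq_bot_iff]
  intro f hf
  rw [Subgroup.mem_bot]
  funext i
  have h1 : Pi.evalMonoidHom (fun _ : ι => K) i f ∈ derivedSeries K n :=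
    map_derivedSeries_le_derivedSeries (Pi.evalMonoidHom (fun _ : ι => K) i) n
      (Subgroup.mem_map_of_mem _ hf)
  rw [hn, Subgroup.mem_bot] at h1
  exact h1

/-- the values of the function lie in a finitely generated subgroup -/
def HH (Q G : Type) [Group Q] [Group G] : Subgroup (Wr Q G) where
  carrier := {x | ∃ S : Set G, S.Finite ∧ ∀ y, x.left y ∈ Subgroup.closure S}
  one_mem' := ⟨∅, Set.finite_empty, fun y => Subgroup.one_mem _⟩
  mul_mem' := by
    rintro a b ⟨S, hS, h1⟩ ⟨T, hT, h2⟩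
    refine ⟨S ∪ T, hS.union hT, fun y => ?_⟩
    rw [mul_left']
    exact Subgroup.mul_mem _ (Subgroup.closure_mono Set.subset_union_left (h1 _))
      (Subgroup.closure_mono Set.subset_union_right (h2 _))
  inv_mem' := by
    rintro a ⟨S, hS, h1⟩
    refine ⟨S, hS, fun y => ?_⟩
    rw [inv_left']
    exact Subgroup.inv_mem _ (h1 _)

/-- the projection to `Q` -/
def rho (Q G : Type) [Group Q] [Group G] : ↥(HH Q G) →* Q :=
  (SemidirectProduct.rightHom : Wr Q G →* Q).comp (HH Q G).subtype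

theorem rho_apply (x : ↥(HH Q G)) : rho Q G x = (x : Wr Q G).right := rfl

theorem ls_HH (hG : LS G) (hQ : LS Q) : LS ↥(HH Q G) := by
  intro T hT
  classical
  -- a finite set containing all values
  have hS : ∃ S : Set G, S.Finite ∧ ∀ t ∈ T, ∀ y, (t : Wr Q G).left y ∈ Subgroup.closure S := by
    choose S hSf hS using fun t : ↥(HH Q G) => t.2
    refine ⟨⋃ t ∈ T, S t, hT.biUnion fun t _ => hSf t, fun t ht y => ?_⟩
    exact Subgroup.closure_mono (Set.subset_biUnion_of_mem ht) (hS t y)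
  obtain ⟨S, hSf, hS⟩ := hS
  have hK : Group.IsSolvable ↥(Subgroup.closure S) := hG S hSf
  have hR : Group.IsSolvable ↥(Subgroup.closure (rho Q G '' T)) := hQ _ (hT.image _)
  have key : ∀ x ∈ Subgroup.closure T, (∀ y, (x : Wr Q G).left y ∈ Subgroup.closure S) ∧
      rho Q G x ∈ Subgroup.closure (rho Q G '' T) := by
    intro x hx
    refine ⟨?_, ?_⟩
    · induction hx using Subgroup.closure_induction with
      | mem t ht => exact hS t ht
      | one => intro y; exact Subgroup.one_mem _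
      | mul a b _ _ ha hb =>
        intro y
        exact Subgroup.mul_mem _ (ha y) (hb _)
      | inv a _ ha =>
        intro y
        have : ((a⁻¹ : ↥(HH Q G)) : Wr Q G).left y = ((a : Wr Q G).left ((a : Wr Q G).right * y))⁻¹ :=
          inv_left' (a : Wr Q G) y
        rw [this]
        exact Subgroup.inv_mem _ (ha _)
    · rw [← MonoidHom.map_closure]
      exact Subgroup.mem_map_of_mem _ hx
  let g : ↥(Subgroup.closure T) →* ↥(Subgroup.closure (rho Q G '' T)) :=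
    ((rho Q G).comp (Subgroup.closure T).subtype).codRestrict _ fun x => (key x.1 x.2).2
  have hker : ∀ x : ↥(g.ker), ((x.1.1 : ↥(HH Q G)) : Wr Q G).right = 1 := by
    intro x
    have h1 : g x.1 = 1 := x.2
    exact congrArg Subtype.val h1
  let j : ↥(g.ker) →* (Q → ↥(Subgroup.closure S)) :=
    { toFun := fun x y => ⟨((x.1.1 : ↥(HH Q G)) : Wr Q G).left y, (key x.1.1 x.1.2).1 y⟩
      map_one' := by funext y; rfl
      map_mul' := by
        intro a b
        funext y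
        apply Subtype.ext
        show ((a.1.1 : ↥(HH Q G)) : Wr Q G).left y *
          ((b.1.1 : ↥(HH Q G)) : Wr Q G).left ((((a.1.1 : ↥(HH Q G)) : Wr Q G).right)⁻¹ * y) = _
        rw [hker a, inv_one, one_mul]
        rfl }
  have hj : Function.Injective j := by
    intro a b hab
    apply Subtype.ext
    apply Subtype.ext
    apply Subtype.ext
    apply SemidirectProduct.ext
    · funext y
      exact congrArg Subtype.val (congrFun hab y)
    · rw [hker a, hker b]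
  have : Group.IsSolvable (Q → ↥(Subgroup.closure S)) := pi_solvable _ _
  have : Group.IsSolvable ↥(g.ker) := Group.isSolvable_of_isSolvable_injective hj
  exact Group.isSolvable_of_ker_le_range g.ker.subtype g (by simp)

/-- the embedding -/
def io (π : G →* Q) : G →* ↥(HH Q G) where
  toFun g := ⟨⟨fun _ => g, π g⟩, ⟨{g}, Set.finite_singleton g, fun _ =>
    Subgroup.subset_closure rfl⟩⟩
  map_one' := by
    apply Subtype.ext
    apply SemidirectProduct.ext
    · rfl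
    · exact map_one π
  map_mul' a b := by
    apply Subtype.ext
    apply SemidirectProduct.ext
    · rfl
    · exact map_mul π a b

/-- `c` on `Y`, `1` elsewhere -/
noncomputable def ind (Y : Set Q) (c : G) : ↥(HH Q G) := by
  classical
  exact ⟨⟨fun y => if y ∈ Y then c else 1, 1⟩, ⟨{c}, Set.finite_singleton c, fun y => by
    show (if y ∈ Y then c else 1) ∈ Subgroup.closure {c}
    split_ifs
    · exact Subgroup.subset_closure rfl
    · exact Subgroup.one_mem _⟩⟩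

theorem ind_left_of_mem (Y : Set Q) (c : G) (y : Q) (h : y ∈ Y) :
    ((ind Y c : ↥(HH Q G)) : Wr Q G).left y = c := by
  classical
  show (if y ∈ Y then c else 1) = c
  rw [if_pos h]

theorem ind_left_of_notMem (Y : Set Q) (c : G) (y : Q) (h : y ∉ Y) :
    ((ind Y c : ↥(HH Q G)) : Wr Q G).left y = 1 := by
  classical
  show (if y ∈ Y then c else 1) = 1
  rw [if_neg h]

theorem ind_right (Y : Set Q) (c : G) : ((ind Y c : ↥(HH Q G)) : Wr Q G).right = 1 := rfl

theorem cc_ind (π : G →* Q) (g h a₀ b₀ : G) (hh : h = a₀ * b₀ * a₀⁻¹ * b₀⁻¹) (Y : Set Q)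
    (hY : ∀ y ∈ Y, (π g)⁻¹ * y ∉ Y) :
    cc (ind Y a₀) (ind Y b₀) (io π g) = ind Y h := by
  apply Subtype.ext
  apply SemidirectProduct.ext
  · -- the commutator `[b, g]`
    have e1 : ∀ y, ((ind Y b₀ * io π g * (ind Y b₀)⁻¹ * (io π g)⁻¹ : ↥(HH Q G)) : Wr Q G).left y =
        ((ind Y b₀ : ↥(HH Q G)) : Wr Q G).left y * g *
          (((ind Y b₀ : ↥(HH Q G)) : Wr Q G).left ((π g)⁻¹ * y))⁻¹ * g⁻¹ := by
      intro y
      show (((ind Y b₀ : ↥(HH Q G)) : Wr Q G) * (io π g : Wr Q G) *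
        ((ind Y b₀ : ↥(HH Q G)) : Wr Q G)⁻¹ * (io π g : Wr Q G)⁻¹).left y = _
      rw [mul_left', mul_left', mul_left', inv_left', inv_left']
      show ((ind Y b₀ : ↥(HH Q G)) : Wr Q G).left y * g *
        (((ind Y b₀ : ↥(HH Q G)) : Wr Q G).left (1 * (((1 : Q) * π g)⁻¹ * y)))⁻¹ * g⁻¹ = _
      rw [one_mul, one_mul]
    have e2 : ((ind Y b₀ * io π g * (ind Y b₀)⁻¹ * (io π g)⁻¹ : ↥(HH Q G)) : Wr Q G).right = 1 := by
      show (1 : Q) * π g * (1 : Q)⁻¹ * (π g)⁻¹ = 1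
      simp
    have e3 : ∀ c : Wr Q G, c.right = 1 → ∀ y,
        (((ind Y a₀ : ↥(HH Q G)) : Wr Q G) * c * ((ind Y a₀ : ↥(HH Q G)) : Wr Q G)⁻¹ * c⁻¹).left y =
        ((ind Y a₀ : ↥(HH Q G)) : Wr Q G).left y * c.left y *
          (((ind Y a₀ : ↥(HH Q G)) : Wr Q G).left y)⁻¹ * (c.left y)⁻¹ := by
      intro c hc y
      rw [mul_left', mul_left', mul_left', inv_left', inv_left']
      simp only [SemidirectProduct.mul_right, SemidirectProduct.inv_right, hc, ind_right, inv_one,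
        one_mul, mul_one]
    funext y
    have e4 := e3 _ e2 y
    have e5 : ((cc (ind Y a₀) (ind Y b₀) (io π g) : ↥(HH Q G)) : Wr Q G).left y =
        ((ind Y a₀ : ↥(HH Q G)) : Wr Q G).left y *
        ((ind Y b₀ * io π g * (ind Y b₀)⁻¹ * (io π g)⁻¹ : ↥(HH Q G)) : Wr Q G).left y *
          (((ind Y a₀ : ↥(HH Q G)) : Wr Q G).left y)⁻¹ *
          (((ind Y b₀ * io π g * (ind Y b₀)⁻¹ * (io π g)⁻¹ : ↥(HH Q G)) : Wr Q G).left y)⁻¹ := e4
    rw [e5, e1]
    by_cases hy : y ∈ Y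
    · rw [ind_left_of_mem Y a₀ y hy, ind_left_of_mem Y b₀ y hy, ind_left_of_mem Y h y hy,
        ind_left_of_notMem Y b₀ _ (hY y hy), hh]
      simp
    · rw [ind_left_of_notMem Y a₀ y hy, ind_left_of_notMem Y h y hy]
      simp
  · show (1 : Q) * ((1 : Q) * π g * (1 : Q)⁻¹ * (π g)⁻¹) * (1 : Q)⁻¹ *
      ((1 : Q) * π g * (1 : Q)⁻¹ * (π g)⁻¹)⁻¹ = 1
    simp

/-- three colours suffice for a translation without fixed points -/
theorem three_colours (q : Q) (hq : q ≠ 1) : ∃ Y₁ Y₂ Y₃ : Set Q,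
    (∀ y ∈ Y₁, q⁻¹ * y ∉ Y₁) ∧ (∀ y ∈ Y₂, q⁻¹ * y ∉ Y₂) ∧ (∀ y ∈ Y₃, q⁻¹ * y ∉ Y₃) ∧
    (∀ y, y ∈ Y₁ → y ∉ Y₂ ∧ y ∉ Y₃) ∧ (∀ y, y ∈ Y₂ → y ∉ Y₁ ∧ y ∉ Y₃) ∧
    (∀ y, y ∉ Y₁ → y ∉ Y₂ → y ∈ Y₃) := by
  obtain ⟨Y, hY⟩ := zorn_subset {Y : Set Q | ∀ y ∈ Y, q⁻¹ * y ∉ Y} (by
    intro c hc hchain
    refine ⟨⋃₀ c, ?_, fun s hs => Set.subset_sUnion_of_mem hs⟩
    rintro y ⟨A, hA, hyA⟩ ⟨B, hB, hyB⟩
    rcases hchain.total hA hB with h | h
    · exact hc hB y (h hyA) hyB
    · exact hc hA y hyA (h hyB))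
  have hY1 : ∀ y ∈ Y, q⁻¹ * y ∉ Y := hY.1
  have hcov : ∀ z, z ∉ Y → q⁻¹ * z ∉ Y → q * z ∈ Y := by
    intro z hz1 hz2
    by_contra hz3
    have hmem : insert z Y ∈ {Y : Set Q | ∀ y ∈ Y, q⁻¹ * y ∉ Y} := by
      intro y hy hy2
      rcases Set.mem_insert_iff.1 hy with rfl | hy
      · rcases Set.mem_insert_iff.1 hy2 with h | h
        · apply hq
          have : q⁻¹ = 1 := by simpa using h
          exact inv_eq_one.1 this
        · exact hz2 h
      · rcases Set.mem_insert_iff.1 hy2 with h | h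
        · apply hz3
          rw [← h, mul_inv_cancel_left]
          exact hy
        · exact hY1 y hy h
    have hle : Y ≤ insert z Y := Set.subset_insert z Y
    have := hY.2 hmem hle
    exact hz1 (this (Set.mem_insert z Y))
  refine ⟨Y, {y | q⁻¹ * y ∈ Y}, {y | y ∉ Y ∧ q⁻¹ * y ∉ Y}, hY1, ?_, ?_, ?_, ?_, ?_⟩
  · intro y hy hy2
    exact hY1 _ hy hy2
  · rintro y ⟨h1, h2⟩ ⟨h3, h4⟩
    have h5 := hcov (q⁻¹ * y) h3 h4
    rw [mul_inv_cancel_left] at h5
    exact h1 h5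
  · intro y hy
    exact ⟨fun h => hY1 y hy h, fun h => h.1 hy⟩
  · intro y hy
    exact ⟨fun h => hY1 y h hy, fun h => h.2 hy⟩
  · intro y h1 h2
    exact ⟨h1, h2⟩

end

theorem w2 : TaskW2 := by
  intro Q G _ _ π hG hQ g h a₀ b₀ hg hh hab
  obtain ⟨Y₁, Y₂, Y₃, h1, h2, h3, d1, d2, d3⟩ := three_colours (π g) hg
  refine ⟨↥(HH Q G), inferInstance, io π, rho Q G, ls_HH hG hQ, ?_, ?_, ind Y₁ a₀, ind Y₁ b₀,
    ind Y₂ a₀, ind Y₂ b₀, ind Y₃ a₀, ind Y₃ b₀, ?_⟩
  · intro a b hab2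
    have h4 : ((io π a : ↥(HH Q G)) : Wr Q G).left 1 = ((io π b : ↥(HH Q G)) : Wr Q G).left 1 := by
      rw [hab2]
    exact h4
  · ext x
    rfl
  · rw [cc_ind π g h a₀ b₀ hab Y₁ h1, cc_ind π g h a₀ b₀ hab Y₂ h2,
      cc_ind π g h a₀ b₀ hab Y₃ h3]
    apply Subtype.ext
    apply SemidirectProduct.ext
    · funext y
      have e : ((ind Y₁ h * ind Y₂ h * ind Y₃ h : ↥(HH Q G)) : Wr Q G).left y =
          ((ind Y₁ h : ↥(HH Q G)) : Wr Q G).left y * ((ind Y₂ h : ↥(HH Q G)) : Wr Q G).left y *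
            ((ind Y₃ h : ↥(HH Q G)) : Wr Q G).left y := by
        show (((ind Y₁ h : ↥(HH Q G)) : Wr Q G) * ((ind Y₂ h : ↥(HH Q G)) : Wr Q G) *
          ((ind Y₃ h : ↥(HH Q G)) : Wr Q G)).left y = _
        rw [mul_left', mul_left']
        simp only [SemidirectProduct.mul_right, ind_right, inv_one, one_mul]
      rw [e]
      show h = _
      by_cases c1 : y ∈ Y₁
      · rw [ind_left_of_mem Y₁ h y c1, ind_left_of_notMem Y₂ h y (d1 y c1).1,
          ind_left_of_notMem Y₃ h y (d1 y c1).2]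
        simp
      · by_cases c2 : y ∈ Y₂
        · rw [ind_left_of_notMem Y₁ h y c1, ind_left_of_mem Y₂ h y c2,
            ind_left_of_notMem Y₃ h y (d2 y c2).2]
          simp
        · rw [ind_left_of_notMem Y₁ h y c1, ind_left_of_notMem Y₂ h y c2,
            ind_left_of_mem Y₃ h y (d3 y c1 c2)]
          simp
    · show π h = (1 : Q) * 1 * 1
      rw [hh]; simp

end Pool.Agent.H528R3.W2
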